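import Pool.Agent.Work.MP_2b9663_nt.He.Euler
import Pool.Agent.Work.MP_2b9663_nt.Ch.ThmA

set_option autoImplicit false

/-!
Analyticity of the `L`-series of Hecke characters.
-/

namespace Pool.Agent.Work.MP_2b9663_nt

open NumberField Ideal

variable {K : Type} [Field K] [NumberField K]

namespace HeckeChar

lemma sup_top_of_le {I M N : Ideal (𝓞 K)} (h : I ⊔ M = ⊤) (hMN : M ≤ N) : I ⊔ N = ⊤ :=
  top_le_iff.1 (h ▸ sup_le_sup_left hMN I)

open scoped Classical in
/-- the trivial character modulo an ideal -/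
noncomputable def triv (M : Ideal (𝓞 K)) (hM : M ≠ ⊥) : HeckeChar K where
  cond := M
  cond_ne := hM
  toFun I := if I ⊔ M = ⊤ then 1 else 0
  map_mul' I J := by
    by_cases h1 : I ⊔ M = ⊤
    · by_cases h2 : J ⊔ M = ⊤
      · rw [if_pos h1, if_pos h2, if_pos (He.coprime_mul h1 h2), mul_one]
      · rw [if_neg h2, mul_zero, if_neg]
        intro h3
        exact h2 (top_le_iff.1 (h3 ▸ sup_le_sup_right Ideal.mul_le_right M))
    · rw [if_neg h1, zero_mul, if_neg]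
      intro h3
      exact h1 (top_le_iff.1 (h3 ▸ sup_le_sup_right Ideal.mul_le_left M))
  norm_eq I _ h := by rw [if_pos h, norm_one]
  eq_zero I h := if_neg h
  n := 0
  t := 0
  principal x _ h := by
    rw [if_pos]
    · unfold infChar
      simp
    · rw [eq_top_iff_one]
      have h1 : (1 : 𝓞 K) = x + (-(x - 1)) := by ring
      rw [h1]
      exact Ideal.add_mem _ (Ideal.mem_sup_left (Ideal.mem_span_singleton_self x))
        (Ideal.mem_sup_right (M.neg_mem h))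

/-- the product of two characters -/
noncomputable def mul (ψ φ : HeckeChar K) : HeckeChar K where
  cond := ψ.cond * φ.cond
  cond_ne := mul_ne_zero ψ.cond_ne φ.cond_ne
  toFun I := ψ I * φ I
  map_mul' I J := by rw [ψ.map_mul, φ.map_mul]; ring
  norm_eq I hI h := by
    rw [norm_mul, ψ.norm_eq I hI (sup_top_of_le h Ideal.mul_le_left),
      φ.norm_eq I hI (sup_top_of_le h Ideal.mul_le_right), mul_one]
  eq_zero I h := by
    by_cases h1 : I ⊔ ψ.cond = ⊤
    · by_cases h2 : I ⊔ φ.cond = ⊤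
      · exfalso
        apply h
        rw [sup_comm] at h1 h2 ⊢
        exact He.coprime_mul h1 h2
      · have : φ I = 0 := φ.eq_zero I h2
        rw [this, mul_zero]
    · have : ψ I = 0 := ψ.eq_zero I h1
      rw [this, zero_mul]
  n := ψ.n + φ.n
  t := ψ.t + φ.t
  principal x hx h := by
    have h1 : ψ (span {x}) = _ := ψ.principal x hx (Ideal.mul_le_left h)
    have h2 : φ (span {x}) = _ := φ.principal x hx (Ideal.mul_le_right h)
    rw [h1, h2, infChar_add _ _ _ _ (by simpa using hx)]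

/-- the complex conjugate of a character -/
noncomputable def conj (ψ : HeckeChar K) : HeckeChar K where
  cond := ψ.cond
  cond_ne := ψ.cond_ne
  toFun I := (starRingEnd ℂ) (ψ I)
  map_mul' I J := by rw [ψ.map_mul, _root_.map_mul]
  norm_eq I hI h := by rw [RCLike.norm_conj, ψ.norm_eq I hI h]
  eq_zero I h := by
    have : ψ I = 0 := ψ.eq_zero I h
    rw [this, map_zero]
  n := -ψ.n
  t := -ψ.t
  principal x hx h := by
    have h1 : ψ (span {x}) = _ := ψ.principal x hx h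
    rw [h1, infChar_neg]

/-- nontrivial characters -/
def Nontriv (ψ : HeckeChar K) : Prop := ∃ a : Ideal (𝓞 K), a ≠ ⊥ ∧ a ⊔ ψ.cond = ⊤ ∧ ψ a ≠ 1

/-- characters whose square is trivial -/
def Quad (ψ : HeckeChar K) : Prop := ∀ a : Ideal (𝓞 K), a ≠ ⊥ → a ⊔ ψ.cond = ⊤ → ψ a * ψ a = 1

end HeckeChar

namespace He

/-- the half plane -/
def UU : Set ℂ := {s | 0 < s.re}

lemma isOpen_UU : IsOpen UU := isOpen_lt continuous_const Complex.continuous_re

lemma isPreconnected_UU : IsPreconnected UU :=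
  (convex_halfSpace_re_gt 0).isPreconnected

/-- **Glueing of local continuations.** -/
theorem glue {L : ℂ → ℂ} (H : ∀ s₀ ∈ UU, ∃ f g : ℂ → ℂ, DifferentiableOn ℂ f UU ∧
    DifferentiableOn ℂ g UU ∧ f s₀ ≠ 0 ∧ ∀ s : ℂ, 1 < s.re → f s * L s = g s) :
    ∃ F : ℂ → ℂ, DifferentiableOn ℂ F UU ∧ ∀ s : ℂ, 1 < s.re → F s = L s := by
  classical
  have H' : ∀ s₀ : ℂ, ∃ f g : ℂ → ℂ, s₀ ∈ UU → DifferentiableOn ℂ f UU ∧
    DifferentiableOn ℂ g UU ∧ f s₀ ≠ 0 ∧ ∀ s : ℂ, 1 < s.re → f s * L s = g s := by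
    intro s₀
    by_cases h : s₀ ∈ UU
    · obtain ⟨f, g, h1⟩ := H s₀ h
      exact ⟨f, g, fun _ => h1⟩
    · exact ⟨0, 0, fun h' => absurd h' h⟩
  choose f g hfg using H'
  have key : ∀ s₀ ∈ UU, ∀ s ∈ UU, f s₀ s * g s s = f s s * g s₀ s := by
    intro s₀ h₀ s hs
    obtain ⟨a1, a2, a3, a4⟩ := hfg s₀ h₀
    obtain ⟨b1, b2, b3, b4⟩ := hfg s hs
    have h1 : AnalyticOnNhd ℂ (fun z => f s₀ z * g s z) UU :=
      (a1.mul b2).analyticOnNhd isOpen_UU
    have h2 : AnalyticOnNhd ℂ (fun z => f s z * g s₀ z) UU :=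
      (b1.mul a2).analyticOnNhd isOpen_UU
    have h3 : (fun z => f s₀ z * g s z) =ᶠ[nhds (2 : ℂ)] fun z => f s z * g s₀ z := by
      have h4 : {z : ℂ | 1 < z.re} ∈ nhds (2 : ℂ) :=
        (isOpen_lt continuous_const Complex.continuous_re).mem_nhds (by
          change (1 : ℝ) < (2 : ℂ).re
          norm_num)
      filter_upwards [h4] with z hz
      rw [← a4 z hz, ← b4 z hz]
      ring
    exact h1.eqOn_of_preconnected_of_eventuallyEq h2 isPreconnected_UU
      (by change (0 : ℝ) < (2 : ℂ).re; norm_num) h3 hs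
  refine ⟨fun s => g s s / f s s, fun s₀ h₀ => ?_, fun s hs => ?_⟩
  · obtain ⟨a1, a2, a3, a4⟩ := hfg s₀ h₀
    have h1 : DifferentiableAt ℂ (fun z => g s₀ z / f s₀ z) s₀ :=
      ((a2 s₀ h₀).differentiableAt (isOpen_UU.mem_nhds h₀)).div
        ((a1 s₀ h₀).differentiableAt (isOpen_UU.mem_nhds h₀)) a3
    refine (h1.congr_of_eventuallyEq ?_).differentiableWithinAt
    have h2 : ∀ᶠ z in nhds s₀, f s₀ z ≠ 0 :=
      ((a1 s₀ h₀).differentiableAt (isOpen_UU.mem_nhds h₀)).continuousAt.eventually_ne a3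
    filter_upwards [h2, isOpen_UU.mem_nhds h₀] with z hz hzU
    rw [div_eq_div_iff (hfg z hzU).2.2.1 hz, mul_comm, key s₀ h₀ z hzU]
    ring
  · have hsU : s ∈ UU := by
      change (0 : ℝ) < s.re
      linarith
    obtain ⟨a1, a2, a3, a4⟩ := hfg s hsU
    beta_reduce
    rw [← a4 s hs, mul_div_cancel_left₀ _ a3]

variable (ψ : HeckeChar K)

lemma cpow_differentiable {N : ℕ} (hN : N ≠ 0) (c : ℂ) :
    Differentiable ℂ fun s : ℂ => c * (N : ℂ) ^ (1 - s) - 1 := by
  have hN' : (N : ℂ) ≠ 0 := by exact_mod_cast hN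
  intro s
  exact (((differentiableAt_const _).sub differentiableAt_id).const_cpow (Or.inl hN')).const_mul c
    |>.sub_const 1

/-- **Analyticity at `1`.** -/
theorem analytic_one (h : ψ.Nontriv) :
    ∃ F : ℂ → ℂ, AnalyticAt ℂ F 1 ∧ ∀ s : ℂ, 1 < s.re → F s = LH ψ s := by
  obtain ⟨a, ha0, ha, hne⟩ := h
  obtain ⟨g, hg, hgs⟩ := LH_continuation ψ a ha0 ha
  have ha1 : absNorm a ≠ 0 := by
    rw [Ne, Ideal.absNorm_eq_zero_iff]
    exact ha0
  have ha2 : 1 < absNorm a := by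
    by_contra hle
    have h1 : absNorm a = 1 := by omega
    rw [Ideal.absNorm_eq_one_iff] at h1
    rw [h1] at hne
    exact hne ψ.map_top
  refine ⟨fun s => g s / (ψ a * (absNorm a : ℂ) ^ (1 - s) - 1), ?_, fun s hs => ?_⟩
  · refine AnalyticAt.div ?_ ?_ ?_
    · exact hg.analyticAt (isOpen_UU.mem_nhds (by change (0 : ℝ) < (1 : ℂ).re; norm_num))
    · exact (cpow_differentiable ha1 _).analyticAt _
    · rw [sub_self, Complex.cpow_zero, mul_one, sub_ne_zero]
      exact hne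
  · beta_reduce
    rw [← hgs s hs, mul_comm, mul_div_assoc, div_self, mul_one]
    rw [sub_ne_zero]
    intro h1
    have h2 : ‖ψ a * (absNorm a : ℂ) ^ (1 - s)‖ < 1 := by
      rw [norm_mul, ψ.norm_eq a ha0 ha, one_mul,
        Complex.norm_natCast_cpow_of_pos (Nat.pos_of_ne_zero ha1) (1 - s)]
      refine Real.rpow_lt_one_of_one_lt_of_neg (by exact_mod_cast ha2) ?_
      rw [Complex.sub_re, Complex.one_re]
      linarith
    rw [h1, norm_one] at h2
    exact lt_irrefl _ h2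

/-- the squares of the ideals generated by the integers `1 + m k` -/
lemma sq_data (hq : ψ.Quad) (k : ℕ) :
    ∃ a : Ideal (𝓞 K), a ≠ ⊥ ∧ a ⊔ ψ.cond = ⊤ ∧ ψ a = 1 ∧
      absNorm a = (1 + absNorm ψ.cond * k) ^ (2 * Module.finrank ℤ (𝓞 K)) := by
  set m := absNorm ψ.cond with hm
  set b : ℕ := 1 + m * k with hb
  have hb0 : Ideal.span {(b : 𝓞 K)} ≠ ⊥ := by
    rw [Ne, Ideal.span_singleton_eq_bot]
    have : b ≠ 0 := by rw [hb]; omega
    exact_mod_cast this
  have hb1 : Ideal.span {(b : 𝓞 K)} ⊔ ψ.cond = ⊤ := by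
    rw [eq_top_iff_one]
    have h1 : (1 : 𝓞 K) = (b : 𝓞 K) + (-(k : 𝓞 K)) * (m : 𝓞 K) := by
      rw [hb]
      push_cast
      ring
    rw [h1]
    exact Ideal.add_mem _ (Ideal.mem_sup_left (Ideal.mem_span_singleton_self _))
      (Ideal.mem_sup_right (ψ.cond.mul_mem_left _ (absNorm_mem ψ.cond)))
  have hN : absNorm (Ideal.span {(b : 𝓞 K)}) = b ^ Module.finrank ℤ (𝓞 K) := by
    rw [Ideal.absNorm_span_singleton]
    have h1 : ((b : ℕ) : 𝓞 K) = algebraMap ℤ (𝓞 K) (b : ℤ) := by simp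
    rw [h1, Algebra.norm_algebraMap, Int.natAbs_pow, Int.natAbs_natCast]
  refine ⟨Ideal.span {(b : 𝓞 K)} * Ideal.span {(b : 𝓞 K)}, mul_ne_zero hb0 hb0,
    coprime_mul hb1 hb1, ?_, ?_⟩
  · rw [ψ.map_mul]
    exact hq _ hb0 hb1
  · rw [map_mul, hN, ← pow_add, two_mul]

lemma cond_norm_ne : absNorm ψ.cond ≠ 0 := by
  rw [Ne, Ideal.absNorm_eq_zero_iff]
  exact ψ.cond_ne

/-- the witnesses at the points different from `1` -/
lemma quad_witness (hq : ψ.Quad) {s₀ : ℂ} (hs : s₀ ≠ 1) :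
    ∃ a : Ideal (𝓞 K), a ≠ ⊥ ∧ a ⊔ ψ.cond = ⊤ ∧ ψ a * (absNorm a : ℂ) ^ (1 - s₀) - 1 ≠ 0 := by
  have hfin : 2 * Module.finrank ℤ (𝓞 K) ≠ 0 := by
    have := Module.finrank_pos (R := ℤ) (M := 𝓞 K)
    omega
  by_cases hre : s₀.re = 1
  · have hy : s₀.im ≠ 0 := by
      intro h0
      exact hs (Complex.ext hre h0)
    obtain ⟨k, hk⟩ := exists_cpow_ne_one (absNorm ψ.cond) (cond_norm_ne ψ)
      (2 * Module.finrank ℤ (𝓞 K)) hfin hy
    obtain ⟨a, h1, h2, h3, h4⟩ := sq_data ψ hq k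
    refine ⟨a, h1, h2, ?_⟩
    have h5 : (1 : ℂ) - s₀ = -(s₀.im * Complex.I) := by
      apply Complex.ext
      · simp [hre]
      · simp
    rw [h3, one_mul, h4, h5, sub_ne_zero]
    exact hk
  · obtain ⟨a, h1, h2, h3, h4⟩ := sq_data ψ hq 1
    refine ⟨a, h1, h2, ?_⟩
    rw [h3, one_mul, sub_ne_zero]
    intro h5
    have h6 := congrArg norm h5
    have ha1 : 1 < absNorm a := by
      rw [h4]
      have := cond_norm_ne ψ
      exact Nat.one_lt_pow hfin (by omega)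
    rw [norm_one, Complex.norm_natCast_cpow_of_pos (by omega) (1 - s₀)] at h6
    have h7 : (1 - s₀).re ≠ 0 := by
      rw [Complex.sub_re, Complex.one_re]
      intro h0
      exact hre (by linarith)
    have ha1' : (1 : ℝ) < (absNorm a : ℝ) := by exact_mod_cast ha1
    rcases lt_or_gt_of_ne h7 with h8 | h8
    · exact absurd h6 (Real.rpow_lt_one_of_one_lt_of_neg ha1' h8).ne
    · exact absurd h6 (Real.one_lt_rpow ha1' h8).ne'

/-- **Continuation** of `(s - 1) L(s, ψ)` for quadratic or trivial `ψ`. -/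
theorem quad_continuation (hq : ψ.Quad) :
    ∃ Z : ℂ → ℂ, DifferentiableOn ℂ Z UU ∧ ∀ s : ℂ, 1 < s.re → Z s = (s - 1) * LH ψ s := by
  refine glue fun s₀ hs₀ => ?_
  by_cases hs : s₀ = 1
  · obtain ⟨a, h1, h2, h3, h4⟩ := sq_data ψ hq 1
    obtain ⟨g, hg, hgs⟩ := LH_continuation ψ a h1 h2
    have hfin : 2 * Module.finrank ℤ (𝓞 K) ≠ 0 := by
      have := Module.finrank_pos (R := ℤ) (M := 𝓞 K)
      omega
    have ha1 : 1 < absNorm a := by
      rw [h4]
      have := cond_norm_ne ψ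
      exact Nat.one_lt_pow hfin (by omega)
    have ha0 : absNorm a ≠ 0 := by omega
    have ha0' : (absNorm a : ℂ) ≠ 0 := by exact_mod_cast ha0
    set φ : ℂ → ℂ := fun s => (1 : ℂ) * (absNorm a : ℂ) ^ (1 - s) - 1 with hφ
    have hφd : Differentiable ℂ φ := cpow_differentiable ha0 1
    have hφ1 : φ 1 = 0 := by simp [hφ]
    refine ⟨dslope φ 1, g, ?_, hg, ?_, fun s hs' => ?_⟩
    · exact (Complex.differentiableOn_dslope (isOpen_UU.mem_nhds (by
        change (0 : ℝ) < (1 : ℂ).re; norm_num))).2 hφd.differentiableOn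
    · rw [hs, dslope_same]
      have h5 : HasDerivAt φ (1 * ((absNorm a : ℂ) ^ ((1 : ℂ) - 1) * Complex.log (absNorm a : ℂ) * (-1))) 1 := by
        refine HasDerivAt.sub_const _ (HasDerivAt.const_mul _ ?_)
        exact (hasDerivAt_id (1 : ℂ)).const_sub 1 |>.const_cpow (Or.inl ha0')
      rw [h5.deriv, sub_self, Complex.cpow_zero]
      have h6 : Complex.log (absNorm a : ℂ) ≠ 0 := by
        rw [← Complex.natCast_log]
        have : Real.log (absNorm a : ℝ) ≠ 0 := (Real.log_pos (by exact_mod_cast ha1)).ne'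
        exact_mod_cast this
      simpa using h6
    · have h5 : dslope φ 1 s * (s - 1) = φ s := by
        have := sub_smul_dslope φ 1 s
        rw [hφ1, sub_zero, smul_eq_mul] at this
        rw [← this]
        ring
      rw [← mul_assoc, h5, ← hgs s hs', h3]
  · obtain ⟨a, h1, h2, h3⟩ := quad_witness ψ hq hs
    obtain ⟨g, hg, hgs⟩ := LH_continuation ψ a h1 h2
    have ha0 : absNorm a ≠ 0 := by
      rw [Ne, Ideal.absNorm_eq_zero_iff]
      exact h1
    refine ⟨fun s => ψ a * (absNorm a : ℂ) ^ (1 - s) - 1, fun s => (s - 1) * g s,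
      (cpow_differentiable ha0 _).differentiableOn, ?_, h3, fun s hs' => ?_⟩
    · exact ((differentiable_id.sub_const 1).differentiableOn).mul hg
    · beta_reduce
      rw [← hgs s hs']
      ring

/-- **Continuation** of `L(s, ψ)` for quadratic `ψ`. -/
theorem quad_nontriv_continuation (hq : ψ.Quad) (hnt : ψ.Nontriv) :
    ∃ F : ℂ → ℂ, DifferentiableOn ℂ F UU ∧ ∀ s : ℂ, 1 < s.re → F s = LH ψ s := by
  refine glue fun s₀ hs₀ => ?_
  have hw : ∃ a : Ideal (𝓞 K), a ≠ ⊥ ∧ a ⊔ ψ.cond = ⊤ ∧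
      ψ a * (absNorm a : ℂ) ^ (1 - s₀) - 1 ≠ 0 := by
    by_cases hs : s₀ = 1
    · obtain ⟨a, h1, h2, h3⟩ := hnt
      refine ⟨a, h1, h2, ?_⟩
      rw [hs, sub_self, Complex.cpow_zero, mul_one, sub_ne_zero]
      exact h3
    · exact quad_witness ψ hq hs
  obtain ⟨a, h1, h2, h3⟩ := hw
  obtain ⟨g, hg, hgs⟩ := LH_continuation ψ a h1 h2
  have ha0 : absNorm a ≠ 0 := by
    rw [Ne, Ideal.absNorm_eq_zero_iff]
    exact h1
  exact ⟨fun s => ψ a * (absNorm a : ℂ) ^ (1 - s) - 1, g,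
    (cpow_differentiable ha0 _).differentiableOn, hg, h3, fun s hs' => hgs s hs'⟩

end He

end Pool.Agent.Work.MP_2b9663_nt
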