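import Pool.Agent.Work.MP_2b9663_nt.He.DefsL

set_option autoImplicit false

/-!
Galois conjugates of Hecke characters, and lower bounds for traces.
-/

namespace Pool.Agent.Work.MP_2b9663_nt

open NumberField IsDedekindDomain

section

variable {K : Type} [Field K] [NumberField K]

/-- the image of the ideal `I` under the automorphism `σ` of `K` -/
def conjI (σ : K ≃ₐ[ℚ] K) (I : Ideal (𝓞 K)) : Ideal (𝓞 K) :=
  I.map (RingOfIntegers.mapRingEquiv (σ : K ≃+* K))

/-- The system `t` of traces is invariant under the automorphisms in `G`: `t (σ v) k = t v k`. This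
holds if it comes from a representation of the Galois group of the fixed field of `G`. -/
def InvariantK (S : Finset (HeightOneSpectrum (𝓞 K))) (t : HeightOneSpectrum (𝓞 K) → ℕ → ℂ)
    (G : Subgroup (K ≃ₐ[ℚ] K)) : Prop :=
  ∀ σ ∈ G, ∀ v v' : HeightOneSpectrum (𝓞 K), v ∉ S → v' ∉ S →
    v'.asIdeal = conjI σ v.asIdeal → ∀ k : ℕ, k ≠ 0 → t v' k = t v k

/-- the conjugates of the Hecke characters `ψ` and `φ` by the automorphisms `σ` and `τ` are different:
`ψ (σ I) ≠ φ (τ I)` for a nonzero ideal `I` with `σ I` prime to the modulus of `ψ` and `τ I` prime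
to the modulus of `φ` -/
def ConjDiffer (ψ φ : HeckeChar K) (σ τ : K ≃ₐ[ℚ] K) : Prop :=
  ∃ I : Ideal (𝓞 K), I ≠ ⊥ ∧ conjI σ I ⊔ ψ.cond = ⊤ ∧ conjI τ I ⊔ φ.cond = ⊤ ∧
    ψ.toFun (conjI σ I) ≠ φ.toFun (conjI τ I)

/-- the real parts of the traces `t v 1` are at least `c * N(v) ^ (i / 2)`, for all but finitely
many `v` -/
def LowerK (t : HeightOneSpectrum (𝓞 K) → ℕ → ℂ) (i : ℕ) (c : ℝ) : Prop :=
  ∃ T : Finset (HeightOneSpectrum (𝓞 K)), ∀ v, v ∉ T →
    c * Real.sqrt (Ideal.absNorm v.asIdeal : ℝ) ^ i ≤ (t v 1).re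

end

section

variable {κ : Type} {K : κ → Type} [∀ j, Field (K j)] [∀ j, NumberField (K j)]

/-- For all `j` with `δ j ≠ 0`, no two of the conjugates by automorphisms in `G j` of the Hecke
characters `ψ a j r` of `K j` are equal. -/
def DistinctOrbits {ι : Type} {w : κ → ℕ} (G : ∀ j, Subgroup (K j ≃ₐ[ℚ] K j)) (δ : κ → ℝ)
    (ψ : ι → ∀ j, Fin (w j) → HeckeChar (K j)) : Prop :=
  ∀ j, δ j ≠ 0 → ∀ (a a' : ι) (r r' : Fin (w j)), ∀ σ ∈ G j, ∀ τ ∈ G j, (a, r, σ) ≠ (a', r', τ) →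
    ConjDiffer (ψ a j r) (ψ a' j r') σ τ

end

end Pool.Agent.Work.MP_2b9663_nt
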