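import Pool.Agent.Work.MP_2b9663_nt.He.Final

set_option autoImplicit false

/-!
Bessel's inequality, abstract form: the orders in a family.
-/

namespace Pool.Agent.Work.MP_2b9663_nt.He

open Filter Topology

variable {ι : Type} {μ : ℝ → ℝ} {y : ι → ℝ → ℝ} {m : ι → ℤ} {D : ℝ}

/-- the bound for linear combinations of the functions `y a` -/
def CoreBound (y : ι → ℝ → ℝ) (D : ℝ) : Prop :=
  ∀ (s : Finset ι) (x : ι → ℝ) (η : ℝ), 0 < η → ∀ᶠ ε : ℝ in 𝓝[>] 0,
    ∑ a ∈ s, x a * y a ε ≤ D * Real.sqrt (∑ a ∈ s, x a ^ 2) + η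

/-- **The mean inequality.** -/
theorem coreA (hcp : CoreBound y D)
    (hm : ∀ a, Tendsto (fun ε => μ ε + y a ε) (𝓝[>] 0) (𝓝 (-(m a : ℝ)))) (s : Finset ι)
    (x : ι → ℝ) (n : ℝ) (hn : ∑ a ∈ s, x a = 0 ∨ Tendsto μ (𝓝[>] 0) (𝓝 (-n))) :
    ∑ a ∈ s, x a * (n - m a) ≤ D * Real.sqrt (∑ a ∈ s, x a ^ 2) := by
  -- the limit
  have hlim : Tendsto (fun ε => ∑ a ∈ s, x a * y a ε) (𝓝[>] 0)
      (𝓝 (∑ a ∈ s, x a * (n - m a))) := by
    have h1 : ∀ ε, ∑ a ∈ s, x a * y a ε =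
        ∑ a ∈ s, x a * (μ ε + y a ε) - (∑ a ∈ s, x a) * μ ε := by
      intro ε
      rw [Finset.sum_mul, ← Finset.sum_sub_distrib]
      exact Finset.sum_congr rfl fun a _ => by ring
    have h2 : Tendsto (fun ε => ∑ a ∈ s, x a * (μ ε + y a ε)) (𝓝[>] 0)
        (𝓝 (∑ a ∈ s, x a * (-(m a : ℝ)))) :=
      tendsto_finsetSum _ fun a _ => (hm a).const_mul _
    simp only [h1]
    rcases hn with hn | hn
    · simp only [hn, zero_mul, sub_zero]
      have h3 : ∑ a ∈ s, x a * (n - m a) = ∑ a ∈ s, x a * (-(m a : ℝ)) := by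
        have h4 : ∑ a ∈ s, x a * (n - m a) = (∑ a ∈ s, x a) * n + ∑ a ∈ s, x a * (-(m a : ℝ)) := by
          rw [Finset.sum_mul, ← Finset.sum_add_distrib]
          exact Finset.sum_congr rfl fun a _ => by ring
        rw [h4, hn, zero_mul, zero_add]
      rw [h3]
      exact h2
    · have h3 := h2.sub (hn.const_mul (∑ a ∈ s, x a))
      have h4 : ∑ a ∈ s, x a * (n - m a) =
          ∑ a ∈ s, x a * (-(m a : ℝ)) - (∑ a ∈ s, x a) * -n := by
        rw [Finset.sum_mul, ← Finset.sum_sub_distrib]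
        exact Finset.sum_congr rfl fun a _ => by ring
      rw [h4]
      exact h3
  refine le_of_forall_pos_le_add fun e he => ?_
  exact le_of_tendsto hlim (hcp s x e he)

/-- the case of a known fixed part -/
theorem knownA (hD : 0 ≤ D) (hcp : CoreBound y D)
    (hm : ∀ a, Tendsto (fun ε => μ ε + y a ε) (𝓝[>] 0) (𝓝 (-(m a : ℝ)))) (n : ℤ)
    (hn : Tendsto μ (𝓝[>] 0) (𝓝 (-(n : ℝ)))) : NearlyEqual m n D := by
  refine encard_le fun s => ?_
  have h1 := coreA hcp hm s (fun a => (n : ℝ) - m a) n (Or.inr hn)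
  have h2 : ∀ a, ((n : ℝ) - m a) * (n - m a) = ((m a : ℝ) - n) ^ 2 := fun a => by ring
  have h3 : ∀ a, ((n : ℝ) - m a) ^ 2 = ((m a : ℝ) - n) ^ 2 := fun a => by ring
  simp only [h2, h3] at h1
  exact sq_le_of_core (Finset.sum_nonneg fun a _ => sq_nonneg _) hD h1

/-- the case of an infinite family -/
theorem infiniteA [Infinite ι] (hD0 : 0 ≤ D) (hcp : CoreBound y D)
    (hm : ∀ a, Tendsto (fun ε => μ ε + y a ε) (𝓝[>] 0) (𝓝 (-(m a : ℝ)))) :
    ∃ n : ℤ, NearlyEqual m n D ∧ (m ⁻¹' {n}).Infinite := by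
  classical
  -- the variance inequality
  have hvar : ∀ (s : Finset ι) (c : ℝ), s.card * c = ∑ a ∈ s, (m a : ℝ) →
      ∑ a ∈ s, ((m a : ℝ) - c) ^ 2 ≤ D ^ 2 := by
    intro s c hc
    have h1 := coreA hcp hm s (fun a => c - m a) c (Or.inl (by
      rw [Finset.sum_sub_distrib, Finset.sum_const, nsmul_eq_mul, hc, sub_self]))
    have h2 : ∀ a, (c - m a) * (c - m a) = ((m a : ℝ) - c) ^ 2 := fun a => by ring
    have h3 : ∀ a, (c - m a) ^ 2 = ((m a : ℝ) - c) ^ 2 := fun a => by ring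
    simp only [h2, h3] at h1
    exact sq_le_of_core (Finset.sum_nonneg fun a _ => sq_nonneg _) hD0 h1
  -- the orders are bounded
  have hbdd : ∀ a b : ι, ((m a : ℝ) - m b) ^ 2 ≤ 2 * D ^ 2 := by
    intro a b
    by_cases hab : a = b
    · subst hab
      rw [sub_self]
      nlinarith [sq_nonneg D]
    · have h1 := hvar {a, b} (((m a : ℝ) + m b) / 2) (by
        rw [Finset.card_pair hab, Finset.sum_pair hab]
        push_cast
        ring)
      rw [Finset.sum_pair hab] at h1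
      nlinarith
  obtain ⟨a₀⟩ := (inferInstance : Nonempty ι)
  have hrange : (Set.range m).Finite := by
    obtain ⟨B, hB⟩ := exists_nat_gt (2 * D ^ 2 + 1)
    refine (Set.finite_Icc (m a₀ - B) (m a₀ + B)).subset ?_
    rintro _ ⟨a, rfl⟩
    have h1 := hbdd a a₀
    have h2 : |((m a : ℝ) - m a₀)| ≤ B := by
      by_contra hc
      push Not at hc
      have h3 : (B : ℝ) ^ 2 < |((m a : ℝ) - m a₀)| ^ 2 :=
        pow_lt_pow_left₀ hc (Nat.cast_nonneg _) two_ne_zero
      rw [sq_abs] at h3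
      have h4 : (1 : ℝ) ≤ B := by nlinarith [sq_nonneg D]
      nlinarith
    have h3 := abs_le.1 h2
    constructor
    · have : ((m a₀ - B : ℤ) : ℝ) ≤ m a := by push_cast; linarith [h3.1]
      exact_mod_cast this
    · have : (m a : ℝ) ≤ ((m a₀ + B : ℤ) : ℝ) := by push_cast; linarith [h3.2]
      exact_mod_cast this
  obtain ⟨n, -, hn⟩ : ∃ n ∈ Set.range m, (m ⁻¹' {n}).Infinite := by
    by_contra hcon
    push Not at hcon
    have h1 : (⋃ n ∈ Set.range m, m ⁻¹' {n}).Finite :=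
      Set.Finite.biUnion hrange fun n hn => hcon n hn
    have h2 : (⋃ n ∈ Set.range m, m ⁻¹' {n}) = Set.univ := by
      ext a
      simp
    rw [h2] at h1
    exact Set.infinite_univ h1
  refine ⟨n, encard_le fun s => ?_, hn⟩
  set Y : ℝ := ∑ a ∈ s, ((m a : ℝ) - n) ^ 2 with hY
  set T : ℝ := ∑ a ∈ s, ((m a : ℝ) - n) with hT
  have key : ∀ M : ℕ, 0 < M → Y ≤ D ^ 2 + T ^ 2 / M := by
    intro M hM
    obtain ⟨s', hs', hcard⟩ := Set.Infinite.exists_subset_card_eq
      (hn.diff s.finite_toSet) M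
    have hdisj : Disjoint s s' := by
      rw [Finset.disjoint_left]
      intro a ha ha'
      exact (hs' ha').2 ha
    have hval : ∀ a ∈ s', m a = n := fun a ha => (hs' ha).1
    set u := s ∪ s' with hu
    have hucard : (u.card : ℝ) = s.card + M := by
      rw [hu, Finset.card_union_of_disjoint hdisj, hcard]
      push_cast
      rfl
    have hu0 : (0 : ℝ) < u.card := by
      rw [hucard]
      have : (0 : ℝ) < M := by exact_mod_cast hM
      positivity
    have hsum : ∑ a ∈ u, ((m a : ℝ) - n) = T := by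
      rw [hu, Finset.sum_union hdisj, hT]
      have : ∑ a ∈ s', ((m a : ℝ) - n) = 0 :=
        Finset.sum_eq_zero fun a ha => by rw [hval a ha, sub_self]
      rw [this, add_zero]
    have hsum2 : ∑ a ∈ u, ((m a : ℝ) - n) ^ 2 = Y := by
      rw [hu, Finset.sum_union hdisj, hY]
      have : ∑ a ∈ s', ((m a : ℝ) - n) ^ 2 = 0 :=
        Finset.sum_eq_zero fun a ha => by rw [hval a ha, sub_self]; ring
      rw [this, add_zero]
    have h1 := hvar u (n + T / u.card) (by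
      have h2 : ∑ a ∈ u, (m a : ℝ) = T + u.card * n := by
        rw [← hsum, Finset.sum_sub_distrib, Finset.sum_const, nsmul_eq_mul]
        ring
      rw [h2]
      field_simp
      ring)
    have h2 : ∑ a ∈ u, ((m a : ℝ) - (n + T / u.card)) ^ 2 = Y - T ^ 2 / u.card := by
      have h3 : ∀ a, ((m a : ℝ) - (n + T / u.card)) ^ 2 =
          ((m a : ℝ) - n) ^ 2 - 2 * (T / u.card) * ((m a : ℝ) - n) + (T / u.card) ^ 2 := fun a => by
        ring
      simp only [h3]
      rw [Finset.sum_add_distrib, Finset.sum_sub_distrib, ← Finset.mul_sum, hsum, hsum2,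
        Finset.sum_const, nsmul_eq_mul]
      field_simp
      ring
    rw [h2] at h1
    have h3 : T ^ 2 / u.card ≤ T ^ 2 / M := by
      refine div_le_div_of_nonneg_left (sq_nonneg T) (by exact_mod_cast hM) ?_
      rw [hucard]
      linarith [Nat.cast_nonneg (α := ℝ) s.card]
    linarith
  refine le_of_forall_pos_le_add fun e he => ?_
  obtain ⟨M, hM⟩ := exists_nat_gt (T ^ 2 / e)
  have hM0 : (0 : ℝ) < M := lt_of_le_of_lt (by positivity) hM
  have h1 := key M (by exact_mod_cast hM0)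
  have h2 : T ^ 2 / M ≤ e := by
    rw [div_le_iff₀ hM0]
    rw [div_lt_iff₀ he] at hM
    linarith
  linarith

/-- a lower bound for the fixed part gives an upper bound for the orders -/
theorem lowerA (hcp : CoreBound y D)
    (hm : ∀ a, Tendsto (fun ε => μ ε + y a ε) (𝓝[>] 0) (𝓝 (-(m a : ℝ)))) {n : ℤ}
    (hn : (m ⁻¹' {n}).Infinite) {c : ℝ}
    (hc : ∀ η : ℝ, 0 < η → ∀ᶠ ε : ℝ in 𝓝[>] 0, c - η ≤ μ ε) : (n : ℝ) ≤ -c := by
  classical
  refine le_of_forall_pos_le_add fun e he => ?_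
  -- the number of indices
  obtain ⟨M, hM⟩ := exists_nat_gt (max 1 ((4 * D / e) ^ 2))
  have hM1 : (1 : ℝ) < M := lt_of_le_of_lt (le_max_left _ _) hM
  have hM0 : (0 : ℝ) < M := by linarith
  have hDM : D * Real.sqrt M ≤ e / 4 * M := by
    have h1 : (4 * D / e) ^ 2 ≤ M := (le_max_right _ _).trans hM.le
    have h2 : 4 * D / e ≤ Real.sqrt M := Real.le_sqrt_of_sq_le h1
    have h3 : Real.sqrt M * Real.sqrt M = M := Real.mul_self_sqrt hM0.le
    have h4 : 4 * D ≤ Real.sqrt M * e := by rwa [div_le_iff₀ he] at h2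
    have h5 : 0 ≤ Real.sqrt M := Real.sqrt_nonneg _
    nlinarith [mul_le_mul_of_nonneg_right h4 h5]
  obtain ⟨s, hs, hcard⟩ := Set.Infinite.exists_subset_card_eq hn M
  have hval : ∀ a ∈ s, m a = n := fun a ha => hs ha
  have h1 := hcp s (fun _ => -1) (e / 4) (by positivity)
  have h2 : Tendsto (fun ε => ∑ a ∈ s, (μ ε + y a ε)) (𝓝[>] 0) (𝓝 (-(M * (n : ℝ)))) := by
    have h3 : Tendsto (fun ε => ∑ a ∈ s, (μ ε + y a ε)) (𝓝[>] 0) (𝓝 (∑ a ∈ s, (-(m a : ℝ)))) :=
      tendsto_finsetSum _ fun a _ => hm a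
    have h4 : ∑ a ∈ s, (-(m a : ℝ)) = -(M * (n : ℝ)) := by
      rw [Finset.sum_congr rfl fun a ha => by rw [hval a ha], Finset.sum_const, hcard,
        nsmul_eq_mul]
      ring
    rwa [h4] at h3
  have h3 := h2.eventually (gt_mem_nhds (lt_add_of_pos_right (-(M * (n : ℝ))) (by positivity :
    (0 : ℝ) < e / 4)))
  obtain ⟨ε, h4, h5, h6⟩ := (h1.and (h3.and (hc (e / 4) (by positivity)))).exists
  have h7 : ∑ a ∈ s, ((-1 : ℝ)) ^ 2 = M := by simp [hcard]
  rw [h7] at h4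
  have h8 : ∑ a ∈ s, (-1 : ℝ) * y a ε = M * μ ε - ∑ a ∈ s, (μ ε + y a ε) := by
    rw [Finset.sum_add_distrib, Finset.sum_const, hcard, nsmul_eq_mul, ← Finset.mul_sum]
    ring
  rw [h8] at h4
  have h9 : M * (c - e / 4) ≤ M * μ ε := mul_le_mul_of_nonneg_left h6 hM0.le
  have h10 : M * (n : ℝ) ≤ M * (-c + e) := by nlinarith
  exact le_of_mul_le_mul_left h10 hM0

end Pool.Agent.Work.MP_2b9663_nt.He
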