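import Pool.Agent.Work.MP_2b9663_nt.He.Comp
import Pool.Agent.Work.MP_2b9663_nt.He.AbsBes

set_option autoImplicit false

/-!
Families of twists by Hecke characters: the gain from the Galois conjugates.
-/

namespace Pool.Agent.Work.MP_2b9663_nt

open NumberField Ideal Filter Topology IsDedekindDomain He

namespace He

section One

variable {K : Type} [Field K] [NumberField K] {S : Finset (HeightOneSpectrum (𝓞 K))}
  {t : HeightOneSpectrum (𝓞 K) → ℕ → ℂ} {i : ℕ}

/-- the twists of an invariant system by conjugate characters have the same mean value -/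
lemma mean_comp {d : ℝ} (hd : 0 ≤ d) (h : WeilK S t i d) {G : Subgroup (K ≃ₐ[ℚ] K)}
    (hG : InvariantK S t G) {σ : K ≃ₐ[ℚ] K} (hσ : σ ∈ G) {w : ℕ} (ψ : Fin w → HeckeChar K) :
    Tendsto (fun ε => MR (fun v => (nk S t i v * ∑ r, (ψ r).comp σ v.asIdeal).re) ε -
      MR (fun v => (nk S t i v * ∑ r, ψ r v.asIdeal).re) ε) (𝓝[>] 0) (𝓝 0) := by
  classical
  set c : HeightOneSpectrum (𝓞 K) → ℝ := fun v => (nk S t i v * ∑ r, ψ r v.asIdeal).re with hc
  set c' : HeightOneSpectrum (𝓞 K) → ℝ := fun v => (nk S t i v * ∑ r, (ψ r).comp σ v.asIdeal).re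
    with hc'
  have hB : ∀ (φ : Fin w → HeckeChar K) (v : HeightOneSpectrum (𝓞 K)),
      |(nk S t i v * ∑ r, φ r v.asIdeal).re| ≤ d * w := by
    intro φ v
    refine (Complex.abs_re_le_norm _).trans ?_
    rw [norm_mul]
    refine mul_le_mul (nk_norm_le hd h v) ?_ (norm_nonneg _) hd
    refine (norm_sum_le _ _).trans ?_
    refine (Finset.sum_le_sum fun r _ => (φ r).norm_le_one v.ne_bot).trans ?_
    simp
  have hBc : BK c := ⟨_, hB ψ⟩
  have hBc' : BK c' := ⟨_, hB fun r => (ψ r).comp σ⟩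
  have hBs : BK fun v => c (spE σ v) := ⟨_, fun v => hB ψ (spE σ v)⟩
  -- the two functions agree outside a finite set
  set T : Finset (HeightOneSpectrum (𝓞 K)) := S ∪ S.image (spE σ).symm with hT
  have hval : ∀ v, v ∉ T → c' v + (-1) * c (spE σ v) = 0 := by
    intro v hv
    rw [hT, Finset.mem_union, not_or] at hv
    have hv1 : spE σ v ∉ S := fun h1 => hv.2 (Finset.mem_image.2 ⟨_, h1, (spE σ).symm_apply_apply v⟩)
    have h2 : nk S t i (spE σ v) = nk S t i v := by
      unfold nk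
      rw [if_neg hv1, if_neg hv.1, hG σ hσ v (spE σ v) hv.1 hv1 rfl 1 one_ne_zero, qn_spE]
    simp only [hc, hc', h2]
    have h3 : ∀ r, (ψ r).comp σ v.asIdeal = ψ r (spE σ v).asIdeal := fun r => rfl
    simp only [h3]
    ring
  have h1 : Tendsto (MR fun v => c' v + (-1) * c (spE σ v)) (𝓝[>] 0) (𝓝 0) := by
    refine tendsto_div_log (C := ∑ v ∈ T, |c' v + (-1) * c (spE σ v)|) ?_
    filter_upwards [eventually_unit] with ε hε
    exact SR_finite T hval hε.1
  refine h1.congr' ?_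
  filter_upwards [eventually_unit] with ε hε
  rw [MR_add hBc' (hBs.const_mul (-1)) hε.1, MR_const_mul, MR_spE σ c]
  ring

end One

section Many

variable {κ : Type} [Fintype κ] {K : κ → Type} [∀ j, Field (K j)] [∀ j, NumberField (K j)]
  {S : ∀ j, Finset (HeightOneSpectrum (𝓞 (K j)))}
  {t : ∀ j, HeightOneSpectrum (𝓞 (K j)) → ℕ → ℂ} {i : ℕ} {w : κ → ℕ} {d δ : κ → ℝ}
  {ι : Type} {ψ : ι → ∀ j, Fin (w j) → HeckeChar (K j)}

/-- the bound for one component, with the gain from the conjugates -/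
theorem component_orbit (j : κ) (hd : 0 ≤ d j) (h : WeilK (S j) (t j) i (d j))
    (hδ : SecondMoment (S j) (t j) i (d j) (δ j)) {G : ∀ j, Subgroup (K j ≃ₐ[ℚ] K j)}
    (hG : InvariantK (S j) (t j) (G j)) (hdist : DistinctOrbits G δ ψ) (s : Finset ι) (x : ι → ℝ)
    {η : ℝ} (hη : 0 < η) :
    ∀ᶠ ε : ℝ in 𝓝[>] 0, ∑ a ∈ s, x a * cm S t i (ψ a) j ε ≤
      Real.sqrt (w j * δ j / Nat.card (G j)) * Real.sqrt (∑ a ∈ s, x a ^ 2) + η := by
  classical
  haveI : Finite (G j) := inferInstance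
  haveI : Fintype (G j) := Fintype.ofFinite _
  set N : ℕ := Nat.card (G j) with hN
  have hN0 : (0 : ℝ) < N := by
    rw [hN]
    exact_mod_cast Nat.card_pos
  have hNc : N = Fintype.card (G j) := Nat.card_eq_fintype_card
  set ν : ℝ := ∑ a ∈ s, x a ^ 2 with hν
  have hν0 : 0 ≤ ν := Finset.sum_nonneg fun a _ => sq_nonneg _
  -- the bound for the sum over all conjugates
  set P : Finset ((ι × Fin (w j)) × G j) :=
    (s ×ˢ (Finset.univ : Finset (Fin (w j)))) ×ˢ (Finset.univ : Finset (G j)) with hP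
  have h1 := component_bound hd h hδ P (fun p => x p.1.1)
    (fun p => (ψ p.1.1 j p.1.2).comp (p.2 : K j ≃ₐ[ℚ] K j)) (fun hj p _ p' _ hne =>
      (hdist j hj p.1.1 p'.1.1 p.1.2 p'.1.2 _ p.2.2 _ p'.2.2 (fun hcon => hne (by
        simp only [Prod.mk.injEq] at hcon
        exact Prod.ext (Prod.ext hcon.1 hcon.2.1) (Subtype.ext hcon.2.2)))).differ)
    (η := N * (η / 2)) (by positivity)
  have h2 : ∑ p ∈ P, x p.1.1 ^ 2 = N * (w j * ν) := by
    rw [hP, Finset.sum_product, Finset.sum_product]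
    simp only [Finset.sum_const, Finset.card_univ, Fintype.card_fin, nsmul_eq_mul]
    rw [← hNc]
    simp only [← Finset.mul_sum]
    ring
  rw [h2] at h1
  have h3 : Real.sqrt (δ j * (N * (w j * ν))) =
      N * (Real.sqrt (w j * δ j / N) * Real.sqrt ν) := by
    rw [← Real.sqrt_mul' _ hν0]
    have h4 : δ j * (N * (w j * ν)) = (N : ℝ) ^ 2 * (w j * δ j / N * ν) := by
      field_simp
    rw [h4, Real.sqrt_mul (by positivity), Real.sqrt_sq hN0.le]
  rw [h3] at h1
  -- the sum over all conjugates and `N` times the sum over the characters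
  have h4 : Tendsto (fun ε => MR (fun v => (nk (S j) (t j) i v * WW P (fun p => x p.1.1)
      (fun p => (ψ p.1.1 j p.1.2).comp (p.2 : K j ≃ₐ[ℚ] K j)) v).re) ε -
      N * ∑ a ∈ s, x a * cm S t i (ψ a) j ε) (𝓝[>] 0) (𝓝 0) := by
    have h5 : Tendsto (fun ε => ∑ σ : G j, ∑ a ∈ s, x a *
        (MR (fun v => (nk (S j) (t j) i v *
          ∑ r, (ψ a j r).comp (σ : K j ≃ₐ[ℚ] K j) v.asIdeal).re) ε -
        MR (fun v => (nk (S j) (t j) i v * ∑ r, ψ a j r v.asIdeal).re) ε)) (𝓝[>] 0)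
        (𝓝 (∑ σ : G j, ∑ a ∈ s, x a * 0)) :=
      tendsto_finsetSum _ fun σ _ => tendsto_finsetSum _ fun a _ =>
        (mean_comp hd h hG σ.2 (ψ a j)).const_mul _
    simp only [mul_zero, Finset.sum_const_zero] at h5
    refine h5.congr' ?_
    filter_upwards [eventually_unit] with ε hε
    have h6 : (fun v => (nk (S j) (t j) i v * WW P (fun p => x p.1.1)
        (fun p => (ψ p.1.1 j p.1.2).comp (p.2 : K j ≃ₐ[ℚ] K j)) v).re) =
        fun v => ∑ σ : G j, ∑ a ∈ s, x a *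
          (nk (S j) (t j) i v * ∑ r, (ψ a j r).comp (σ : K j ≃ₐ[ℚ] K j) v.asIdeal).re := by
      funext v
      unfold WW
      rw [hP, Finset.sum_product_right, Finset.mul_sum, Complex.re_sum]
      refine Finset.sum_congr rfl fun σ _ => ?_
      rw [Finset.sum_product, Finset.mul_sum, Complex.re_sum]
      refine Finset.sum_congr rfl fun a _ => ?_
      dsimp only
      rw [← Finset.mul_sum, mul_left_comm, Complex.re_ofReal_mul]
    have hbk : ∀ (σ : G j) (a : ι), BK fun v => (nk (S j) (t j) i v *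
        ∑ r, (ψ a j r).comp (σ : K j ≃ₐ[ℚ] K j) v.asIdeal).re := by
      intro σ a
      refine ⟨d j * w j, fun v => ?_⟩
      refine (Complex.abs_re_le_norm _).trans ?_
      rw [norm_mul]
      refine mul_le_mul (nk_norm_le hd h v) ?_ (norm_nonneg _) hd
      refine (norm_sum_le _ _).trans ?_
      refine (Finset.sum_le_sum fun r _ => ((ψ a j r).comp (σ : K j ≃ₐ[ℚ] K j)).norm_le_one
        v.ne_bot).trans ?_
      simp
    rw [h6, MR_sum Finset.univ (fun σ _ => BK.sum s fun a _ => (hbk σ a).const_mul _) hε.1]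
    have h7 : ∀ σ : G j, MR (fun v => ∑ a ∈ s, x a *
        (nk (S j) (t j) i v * ∑ r, (ψ a j r).comp (σ : K j ≃ₐ[ℚ] K j) v.asIdeal).re) ε =
        ∑ a ∈ s, x a * MR (fun v => (nk (S j) (t j) i v *
          ∑ r, (ψ a j r).comp (σ : K j ≃ₐ[ℚ] K j) v.asIdeal).re) ε := by
      intro σ
      rw [MR_sum s (fun a _ => (hbk σ a).const_mul _) hε.1]
      exact Finset.sum_congr rfl fun a _ => MR_const_mul _ _ _
    simp only [h7, mul_sub, Finset.sum_sub_distrib, Finset.sum_const, Finset.card_univ,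
      nsmul_eq_mul]
    rw [← hNc]
    rfl
  have h5 := h4.eventually (lt_mem_nhds (show -(N * (η / 2)) < (0 : ℝ) by
    have : 0 < (N : ℝ) * (η / 2) := by positivity
    linarith))
  filter_upwards [h1, h5] with ε h6 h7
  have h8 : N * ∑ a ∈ s, x a * cm S t i (ψ a) j ε ≤
      N * (Real.sqrt (w j * δ j / N) * Real.sqrt ν + η) := by
    nlinarith
  exact le_of_mul_le_mul_left h8 hN0

/-- **The mean inequality**, with the gain from the conjugates. -/
theorem core_orbit (hd : ∀ j, 0 ≤ d j) (h : ∀ j, WeilK (S j) (t j) i (d j))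
    (hδ : ∀ j, SecondMoment (S j) (t j) i (d j) (δ j)) {G : ∀ j, Subgroup (K j ≃ₐ[ℚ] K j)}
    (hG : ∀ j, InvariantK (S j) (t j) (G j)) (hdist : DistinctOrbits G δ ψ) :
    CoreBound (fun a ε => ∑ j, cm S t i (ψ a) j ε)
      (∑ j, Real.sqrt (w j * δ j / Nat.card (G j))) := by
  intro s x η hη
  set η' : ℝ := η / (Fintype.card κ + 1) with hη'
  have hη'0 : 0 < η' := by positivity
  have h1 := fun j => component_orbit j (hd j) (h j) (hδ j) (hG j) hdist s x hη'0
  filter_upwards [eventually_all.2 h1] with ε h2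
  have h3 : ∑ a ∈ s, x a * ∑ j, cm S t i (ψ a) j ε =
      ∑ j, ∑ a ∈ s, x a * cm S t i (ψ a) j ε := by
    simp only [Finset.mul_sum]
    exact Finset.sum_comm
  rw [h3, Finset.sum_mul]
  refine (Finset.sum_le_sum fun j _ => h2 j).trans ?_
  rw [Finset.sum_add_distrib]
  refine add_le_add le_rfl ?_
  rw [Finset.sum_const, Finset.card_univ, nsmul_eq_mul, hη', mul_div_assoc',
    div_le_iff₀ (by positivity)]
  nlinarith [hη.le]

end Many

/-- the mean value of the traces is bounded below -/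
lemma lower_mean {K : Type} [Field K] [NumberField K] {S : Finset (HeightOneSpectrum (𝓞 K))}
    {t : HeightOneSpectrum (𝓞 K) → ℕ → ℂ} {i : ℕ} {b c : ℝ} (hb : 0 ≤ b) (h : WeilK S t i b)
    (hc : LowerK t i c) {η : ℝ} (hη : 0 < η) :
    ∀ᶠ ε : ℝ in 𝓝[>] 0, c - η ≤ MR (fun v => (nk S t i v).re) ε := by
  classical
  obtain ⟨T, hT⟩ := hc
  -- a function which agrees with the constant `c` outside a finite set
  set f : HeightOneSpectrum (𝓞 K) → ℝ := fun v => min c (nk S t i v).re with hf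
  have hfB : BK f := ⟨|c| + b, fun v => by
    have h1 := (Complex.abs_re_le_norm _).trans (nk_norm_le hb h v)
    have h2 := abs_le.1 h1
    have h3 := abs_le.1 (le_refl |c|)
    rw [abs_le]
    constructor
    · rw [le_min_iff]
      constructor <;> linarith [h2.1, h3.1, abs_nonneg c]
    · exact (min_le_left _ _).trans (by linarith [le_abs_self c])⟩
  have h1 : ∀ v, v ∉ T ∪ S → c * 1 = f v := by
    intro v hv
    rw [Finset.mem_union, not_or] at hv
    rw [mul_one, hf]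
    refine (min_eq_left ?_).symm
    have hs : 0 < Real.sqrt (qn v) ^ i := pow_pos (Real.sqrt_pos.mpr (qn_pos v)) i
    unfold nk
    rw [if_neg hv.2, Complex.div_ofReal_re, le_div_iff₀ hs]
    exact hT v hv.1
  have h2 : Tendsto (MR fun _ : HeightOneSpectrum (𝓞 K) => c * 1) (𝓝[>] 0) (𝓝 c) := by
    have h3 := (MR_one (K := K)).const_mul c
    rw [mul_one] at h3
    exact h3.congr fun ε => (MR_const_mul _ _ _).symm
  have h3 := MR_congr (BK.one.const_mul c) hfB (T ∪ S) h1 h2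
  filter_upwards [h3.eventually (lt_mem_nhds (sub_lt_self c hη)), eventually_unit] with ε h4 hε
  exact h4.le.trans (MR_mono hfB (nk_BK hb h) (fun v => min_le_right _ _) hε.1 hε.2)

end He

section

variable {κ : Type} [Fintype κ] {K₀ : Type} [Field K₀] [NumberField K₀] {K : κ → Type}
  [∀ j, Field (K j)] [∀ j, NumberField (K j)] {S₀ : Finset (HeightOneSpectrum (𝓞 K₀))}
  {t₀ : HeightOneSpectrum (𝓞 K₀) → ℕ → ℂ} {S : ∀ j, Finset (HeightOneSpectrum (𝓞 (K j)))}
  {t : ∀ j, HeightOneSpectrum (𝓞 (K j)) → ℕ → ℂ} {i : ℕ} {w : κ → ℕ} {b₀ : ℝ} {d δ : κ → ℝ}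

/-- **Families of twists by Hecke characters**, with the gain from the Galois conjugates. -/
theorem hecke_orbits {ι : Type} (hb₀ : 0 ≤ b₀) (h₀ : WeilK S₀ t₀ i b₀) (hd : ∀ j, 0 ≤ d j)
    (h : ∀ j, WeilK (S j) (t j) i (d j)) (hδ : ∀ j, SecondMoment (S j) (t j) i (d j) (δ j))
    (G : ∀ j, Subgroup (K j ≃ₐ[ℚ] K j)) (hG : ∀ j, InvariantK (S j) (t j) (G j))
    (ψ : ι → ∀ j, Fin (w j) → HeckeChar (K j)) (hdist : DistinctOrbits G δ ψ) (F : ι → ℂ → ℂ)
    (hF : ∀ a, IsHeckeContinuation S₀ t₀ S t i (ψ a) (F a)) :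
    ∃ m : ι → ℤ, (∀ a, meromorphicOrderAt (F a) ((i : ℂ) / 2 + 1) = m a) ∧
      (∀ n, OrdK S₀ t₀ i n → NearlyEqual m n (∑ j, Real.sqrt (w j * δ j / Nat.card (G j))) ∧
        ∀ c, LowerK t₀ i c → (n : ℝ) ≤ -c) ∧
      (Infinite ι → ∃ n, NearlyEqual m n (∑ j, Real.sqrt (w j * δ j / Nat.card (G j))) ∧
        ∀ c, LowerK t₀ i c → (n : ℝ) ≤ -c) := by
  choose m hm hmean using fun a => member hb₀ h₀ hd h (hF a)
  have hcp := core_orbit hd h hδ hG hdist
  have hD : 0 ≤ ∑ j, Real.sqrt ((w j : ℝ) * δ j / Nat.card (G j)) :=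
    Finset.sum_nonneg fun _ _ => Real.sqrt_nonneg _
  refine ⟨m, hm, fun n hn => ⟨knownA hD hcp hmean n (fixed_mean hb₀ h₀ hn), fun c hc => ?_⟩,
    fun _ => ?_⟩
  · have h1 := fixed_mean hb₀ h₀ hn
    have h2 : c ≤ -(n : ℝ) := by
      refine le_of_forall_sub_le fun η hη => ?_
      exact ge_of_tendsto h1 (lower_mean hb₀ h₀ hc hη)
    linarith
  · obtain ⟨n, hn, hinf⟩ := infiniteA hD hcp hmean
    exact ⟨n, hn, fun c hc => lowerA hcp hmean hinf fun η hη => lower_mean hb₀ h₀ hc hη⟩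

end

end Pool.Agent.Work.MP_2b9663_nt
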