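import Pool.Agent.Work.MP_2b9663_nt.He.Class

set_option autoImplicit false

/-!
Basic properties of Hecke characters.
-/

namespace Pool.Agent.Work.MP_2b9663_nt

open NumberField NumberField.mixedEmbedding

variable {K : Type} [Field K] [NumberField K]

lemma infChar_mul (n : InfinitePlace K → ℤ) (t : InfinitePlace K → ℝ) (x y : K) :
    infChar n t (x * y) = infChar n t x * infChar n t y := by
  unfold infChar
  rw [← Finset.prod_mul_distrib]
  refine Finset.prod_congr rfl fun w _ => ?_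
  rw [map_mul, map_mul, Complex.ofReal_mul, Complex.mul_cpow_ofReal_nonneg (apply_nonneg w x)
    (apply_nonneg w y), mul_div_mul_comm, mul_zpow]
  ring

lemma norm_infChar (n : InfinitePlace K → ℤ) (t : InfinitePlace K → ℝ) {x : K} (hx : x ≠ 0) :
    ‖infChar n t x‖ = 1 := by
  rw [← He.infU_mixed, He.norm_infU_le]
  rw [norm_eq_norm]
  simpa using hx

lemma infChar_ne_zero (n : InfinitePlace K → ℤ) (t : InfinitePlace K → ℝ) {x : K} (hx : x ≠ 0) :
    infChar n t x ≠ 0 := by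
  rw [← norm_ne_zero_iff, norm_infChar n t hx]
  exact one_ne_zero

lemma infChar_add (n n' : InfinitePlace K → ℤ) (t t' : InfinitePlace K → ℝ) {x : K} (hx : x ≠ 0) :
    infChar (n + n') (t + t') x = infChar n t x * infChar n' t' x := by
  unfold infChar
  rw [← Finset.prod_mul_distrib]
  refine Finset.prod_congr rfl fun w _ => ?_
  have hw : ((w x : ℝ) : ℂ) ≠ 0 := by
    exact_mod_cast (InfinitePlace.pos_iff.2 hx).ne'
  have he : w.embedding x ≠ 0 := by simpa using hx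
  rw [Pi.add_apply, Pi.add_apply, zpow_add₀ (div_ne_zero he hw), Complex.ofReal_add, add_mul,
    Complex.cpow_add _ _ hw]
  ring

lemma infChar_neg (n : InfinitePlace K → ℤ) (t : InfinitePlace K → ℝ) (x : K) :
    infChar (-n) (-t) x = (starRingEnd ℂ) (infChar n t x) := by
  unfold infChar
  rw [map_prod]
  refine Finset.prod_congr rfl fun w _ => ?_
  rw [map_mul, map_zpow₀, map_div₀, Complex.conj_ofReal, Pi.neg_apply, Pi.neg_apply]
  have h1 : (starRingEnd ℂ) (((w x : ℝ) : ℂ) ^ ((t w : ℂ) * Complex.I)) =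
      ((w x : ℝ) : ℂ) ^ (((-t w : ℝ) : ℂ) * Complex.I) := by
    have h2 := Complex.cpow_conj ((w x : ℝ) : ℂ) ((t w : ℂ) * Complex.I) (by
      rw [Complex.arg_ofReal_of_nonneg (apply_nonneg w x)]
      exact Real.pi_ne_zero.symm)
    rw [Complex.conj_ofReal, map_mul, Complex.conj_ofReal, Complex.conj_I] at h2
    rw [← h2]
    congr 1
    push_cast
    ring
  rw [h1]
  congr 1
  by_cases hx : x = 0
  · subst hx
    rcases eq_or_ne (n w) 0 with h0 | h0
    · simp [h0]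
    · simp [zero_zpow _ h0]
  · have he : w.embedding x ≠ 0 := by simpa using hx
    have hw : ((w x : ℝ) : ℂ) ≠ 0 := by
      exact_mod_cast (InfinitePlace.pos_iff.2 hx).ne'
    have h2 : (w.embedding x / ((w x : ℝ) : ℂ)) * ((starRingEnd ℂ) (w.embedding x) / ((w x : ℝ) : ℂ)) = 1 := by
      rw [div_mul_div_comm, Complex.mul_conj, Complex.normSq_eq_norm_sq]
      have h3 : ‖w.embedding x‖ = w x := InfinitePlace.norm_embedding_eq w x
      rw [h3]
      push_cast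
      field_simp
    rw [zpow_neg, ← inv_zpow]
    congr 1
    exact inv_eq_of_mul_eq_one_right h2

namespace HeckeChar

instance : CoeFun (HeckeChar K) (fun _ => Ideal (𝓞 K) → ℂ) := ⟨HeckeChar.toFun⟩

variable (ψ : HeckeChar K)

lemma map_mul (I J : Ideal (𝓞 K)) : ψ (I * J) = ψ I * ψ J := ψ.map_mul' I J

lemma map_top : ψ ⊤ = 1 := by
  have h1 : ψ ⊤ * ψ ⊤ = ψ ⊤ := by
    rw [← ψ.map_mul, Ideal.top_mul]
  have h2 : ψ ⊤ ≠ 0 := by
    rw [← norm_ne_zero_iff, ψ.norm_eq ⊤ top_ne_bot (top_sup_eq _)]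
    exact one_ne_zero
  exact mul_left_cancel₀ h2 (h1.trans (mul_one _).symm)

lemma norm_le_one {I : Ideal (𝓞 K)} (hI : I ≠ ⊥) : ‖ψ I‖ ≤ 1 := by
  by_cases h : I ⊔ ψ.cond = ⊤
  · exact (ψ.norm_eq I hI h).le
  · rw [ψ.eq_zero I h, norm_zero]
    exact zero_le_one

lemma ne_zero {I : Ideal (𝓞 K)} (hI : I ≠ ⊥) (h : I ⊔ ψ.cond = ⊤) : ψ I ≠ 0 := by
  rw [← norm_ne_zero_iff, ψ.norm_eq I hI h]
  exact one_ne_zero

lemma map_pow (I : Ideal (𝓞 K)) (k : ℕ) : ψ (I ^ k) = ψ I ^ k := by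
  induction k with
  | zero => rw [pow_zero, pow_zero, Ideal.one_eq_top, ψ.map_top]
  | succ k ih => rw [pow_succ, pow_succ, ψ.map_mul, ih]

/-- a nonzero element of the modulus -/
lemma exists_mem : ∃ c : 𝓞 K, c ∈ ψ.cond ∧ c ≠ 0 := Submodule.exists_mem_ne_zero_of_ne_bot ψ.cond_ne

open scoped Classical in
/-- a nonzero element congruent to `x` -/
noncomputable def nz (x : 𝓞 K) : 𝓞 K := if x = 0 then ψ.exists_mem.choose else x

lemma nz_ne (x : 𝓞 K) : ψ.nz x ≠ 0 := by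
  unfold nz
  split_ifs with h
  · exact ψ.exists_mem.choose_spec.2
  · exact h

lemma nz_sub (x : 𝓞 K) : ψ.nz x - x ∈ ψ.cond := by
  unfold nz
  split_ifs with h
  · rw [h, sub_zero]
    exact ψ.exists_mem.choose_spec.1
  · rw [sub_self]
    exact ψ.cond.zero_mem

lemma nz_eq {x : 𝓞 K} (hx : x ≠ 0) : ψ.nz x = x := if_neg hx

/-- the finite part of the character on principal ideals -/
noncomputable def fin (x : 𝓞 K) : ℂ :=
  ψ (Ideal.span {ψ.nz x}) / infChar ψ.n ψ.t ((ψ.nz x : 𝓞 K) : K)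

lemma fin_aux {x y : 𝓞 K} (hx : x ≠ 0) (hy : y ≠ 0) (hxy : x - y ∈ ψ.cond) :
    ψ (Ideal.span {x}) / infChar ψ.n ψ.t (x : K) =
      ψ (Ideal.span {y}) / infChar ψ.n ψ.t (y : K) := by
  have hsup : ∀ z w : 𝓞 K, z - w ∈ ψ.cond → Ideal.span {z} ⊔ ψ.cond = ⊤ →
      Ideal.span {w} ⊔ ψ.cond = ⊤ := by
    intro z w hzw h
    rw [eq_top_iff, ← h]
    refine sup_le ?_ le_sup_right
    rw [Ideal.span_singleton_le_iff_mem]
    have h1 : z = w + (z - w) := by ring
    rw [h1]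
    exact Ideal.add_mem _ (Ideal.mem_sup_left (Ideal.mem_span_singleton_self w))
      (Ideal.mem_sup_right hzw)
  by_cases hc : Ideal.span {x} ⊔ ψ.cond = ⊤
  · have hcy := hsup x y hxy hc
    have h1 : (1 : 𝓞 K) ∈ Ideal.span {x} ⊔ ψ.cond := by rw [hc]; trivial
    obtain ⟨u, hu, v, hv, huv⟩ := Submodule.mem_sup.1 h1
    obtain ⟨z, rfl⟩ := Ideal.mem_span_singleton'.1 hu
    set z' : 𝓞 K := ψ.nz z with hz'
    have hz0 : z' ≠ 0 := ψ.nz_ne z
    have hzz : z' - z ∈ ψ.cond := ψ.nz_sub z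
    have h2 : z' * x - 1 ∈ ψ.cond := by
      have h3 : z' * x - 1 = x * (z' - z) + (-v) := by
        rw [← huv]; ring
      rw [h3]
      exact Ideal.add_mem _ (ψ.cond.mul_mem_left _ hzz) (ψ.cond.neg_mem hv)
    have h3 : z' * y - 1 ∈ ψ.cond := by
      have h4 : z' * y - 1 = (z' * x - 1) + (-z') * (x - y) := by ring
      rw [h4]
      exact Ideal.add_mem _ h2 (ψ.cond.mul_mem_left _ hxy)
    have key : ∀ w : 𝓞 K, w ≠ 0 → z' * w - 1 ∈ ψ.cond →
        ψ (Ideal.span {w}) / infChar ψ.n ψ.t (w : K) =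
          infChar ψ.n ψ.t (z' : K) / ψ (Ideal.span {z'}) := by
      intro w hw hzw
      have h5 := ψ.principal (z' * w) (mul_ne_zero hz0 hw) hzw
      have h6 : Ideal.span {z' * w} = Ideal.span {z'} * Ideal.span {w} :=
        (Ideal.span_singleton_mul_span_singleton _ _).symm
      have hw' : (w : K) ≠ 0 := by simpa using hw
      have hz'' : (z' : K) ≠ 0 := by simpa using hz0
      change ψ (Ideal.span {z' * w}) = _ at h5
      rw [h6, ψ.map_mul] at h5
      have h7 : ((z' * w : 𝓞 K) : K) = (z' : K) * (w : K) := by push_cast; rfl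
      rw [h7, infChar_mul] at h5
      have h8 : ψ (Ideal.span {z'}) ≠ 0 := by
        intro h0
        rw [h0, zero_mul] at h5
        exact mul_ne_zero (infChar_ne_zero ψ.n ψ.t hz'') (infChar_ne_zero ψ.n ψ.t hw') h5.symm
      rw [div_eq_div_iff (infChar_ne_zero ψ.n ψ.t hw') h8, mul_comm, h5]
    rw [key x hx h2, key y hy h3]
  · have hcy : Ideal.span {y} ⊔ ψ.cond ≠ ⊤ := fun h => hc (hsup y x (by
      rw [← neg_sub]
      exact ψ.cond.neg_mem hxy) h)
    have h1 : ψ (Ideal.span {x}) = 0 := ψ.eq_zero _ hc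
    have h2 : ψ (Ideal.span {y}) = 0 := ψ.eq_zero _ hcy
    rw [h1, h2, zero_div, zero_div]

/-- the finite part is periodic -/
lemma fin_periodic (x : 𝓞 K) {a : 𝓞 K} (ha : a ∈ ψ.cond) : ψ.fin (x + a) = ψ.fin x := by
  unfold fin
  refine ψ.fin_aux (ψ.nz_ne _) (ψ.nz_ne _) ?_
  have h1 : ψ.nz (x + a) - ψ.nz x = (ψ.nz (x + a) - (x + a)) + a + (-(ψ.nz x - x)) := by ring
  rw [h1]
  exact Ideal.add_mem _ (Ideal.add_mem _ (ψ.nz_sub _) ha) (ψ.cond.neg_mem (ψ.nz_sub _))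

lemma fin_mul_infChar {x : 𝓞 K} (hx : x ≠ 0) :
    ψ.fin x * infChar ψ.n ψ.t (x : K) = ψ (Ideal.span {x}) := by
  have hx' : (x : K) ≠ 0 := by simpa using hx
  unfold fin
  rw [ψ.nz_eq hx, div_mul_cancel₀ _ (infChar_ne_zero ψ.n ψ.t hx')]

lemma norm_fin_le (x : 𝓞 K) : ‖ψ.fin x‖ ≤ 1 := by
  have hx' : ((ψ.nz x : 𝓞 K) : K) ≠ 0 := by simpa using ψ.nz_ne x
  unfold fin
  rw [norm_div, norm_infChar ψ.n ψ.t hx', div_one]
  exact ψ.norm_le_one (by
    rw [Ne, Ideal.span_singleton_eq_bot]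
    exact ψ.nz_ne x)

end HeckeChar

end Pool.Agent.Work.MP_2b9663_nt
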