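import Pool.Agent.Work.MP_2b9663_nt.He.Smooth

set_option autoImplicit false

/-!
The bound for the iterated differences of the homogeneous functions.
-/

namespace Pool.Agent.Work.MP_2b9663_nt.He

open NumberField NumberField.mixedEmbedding NumberField.Units
  NumberField.Units.dirichletUnitTheorem Module InfinitePlace Filter Topology

section Aux

variable {A F ι : Type} [AddCommGroup A] [Fintype ι]

lemma Pd_const_mul (g : ι → A) (a : ℂ) (f : A → ℂ) (k : ℕ) :
    (Pd g)^[k] (fun x => a * f x) = fun x => a * (Pd g)^[k] f x := by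
  induction k with
  | zero => rfl
  | succ k ih =>
    rw [Function.iterate_succ_apply', ih, Function.iterate_succ_apply']
    funext x
    unfold Pd
    rw [Finset.mul_sum]
    exact Finset.sum_congr rfl fun i _ => by ring

lemma Pd_slice {B : Type} [AddCommGroup B] [AddCommGroup F] (g : ι → A) (b : B) (f : B × A → F)
    (k : ℕ) (x : A) :
    (Pd g)^[k] (fun x => f (b, x)) x = (Pd fun i => ((0 : B), g i))^[k] f (b, x) := by
  induction k generalizing x with
  | zero => rfl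
  | succ k ih =>
    rw [Function.iterate_succ_apply', Function.iterate_succ_apply']
    unfold Pd at ih ⊢
    refine Finset.sum_congr rfl fun i _ => ?_
    rw [ih, ih]
    congr 2
    rw [Prod.mk_add_mk, add_zero]

end Aux

variable {K : Type} [Field K] [NumberField K]

/-- the factor of homogeneity -/
noncomputable def fac (K : Type) [Field K] [NumberField K] (t : InfinitePlace K → ℝ) (s : ℂ)
    (c : ℝ) : ℂ :=
  (∏ w : InfinitePlace K, (c : ℂ) ^ ((t w : ℂ) * Complex.I)) *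
    ((c ^ finrank ℚ K : ℝ) : ℂ) ^ (-s)

lemma norm_fac (t : InfinitePlace K → ℝ) (s : ℂ) {c : ℝ} (hc : 0 < c) :
    ‖fac K t s c‖ = c ^ (-((finrank ℚ K : ℝ) * s.re)) := by
  unfold fac
  rw [norm_mul, norm_prod, Finset.prod_eq_one, one_mul,
    Complex.norm_cpow_eq_rpow_re_of_pos (by positivity), Complex.neg_re, ← Real.rpow_natCast,
    ← Real.rpow_mul hc.le]
  · congr 1
    ring
  · intro w _
    rw [Complex.norm_cpow_eq_rpow_re_of_pos hc]
    simp

lemma sw_smul {c : ℝ} (hc : c ≠ 0) (X : mixedSpace K) : sw K (c • X) = sw K X := by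
  unfold sw
  rw [mixedEmbedding.norm_smul]
  by_cases h : mixedEmbedding.norm X = 0
  · rw [if_pos (by rw [h, mul_zero]), if_pos h]
  · rw [if_neg (mul_ne_zero (pow_ne_zero _ (abs_ne_zero.2 hc)) h), if_neg h]
    unfold lc
    rw [logMap_real_smul h hc]

lemma infU_smul (n : InfinitePlace K → ℤ) (t : InfinitePlace K → ℝ) {c : ℝ} (hc : 0 < c)
    (X : mixedSpace K) : infU n t (c • X) =
      (∏ w : InfinitePlace K, (c : ℂ) ^ ((t w : ℂ) * Complex.I)) * infU n t X := by
  unfold infU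
  rw [← Finset.prod_mul_distrib]
  refine Finset.prod_congr rfl fun w _ => ?_
  rw [cw_smul, normAtPlace_smul, abs_of_pos hc]
  have hc' : (c : ℂ) ≠ 0 := by exact_mod_cast hc.ne'
  rw [Complex.ofReal_mul, mul_div_mul_left _ _ hc',
    Complex.mul_cpow_ofReal_nonneg hc.le (normAtPlace_nonneg _ _)]
  ring

lemma HH_smul (n : InfinitePlace K → ℤ) (t : InfinitePlace K → ℝ) (s : ℂ) {c : ℝ} (hc : 0 < c)
    (X : mixedSpace K) : HH n t s (c • X) = fac K t s c * HH n t s X := by
  unfold HH fac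
  rw [sw_smul hc.ne', infU_smul n t hc, mixedEmbedding.norm_smul, abs_of_pos hc,
    Complex.ofReal_mul, Complex.mul_cpow_ofReal_nonneg (by positivity)
      (mixedEmbedding.norm_nonneg X)]
  ring

open scoped Classical in
/-- the derivatives are bounded on compact sets -/
lemma exists_deriv_bound (n : InfinitePlace K → ℤ) (t : InfinitePlace K → ℝ) (k : ℕ) (R : ℝ) :
    ∃ C : ℝ, 0 ≤ C ∧ ∀ z : ℂ × mixedSpace K, ‖z.1‖ ≤ R → 1 / 2 ≤ ‖z.2‖ → ‖z.2‖ ≤ 2 →
      ‖iteratedFDeriv ℝ k (fun z : ℂ × mixedSpace K => HH n t z.1 z.2) z‖ ≤ C := by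
  set f : ℂ × mixedSpace K → ℂ := fun z => HH n t z.1 z.2 with hf
  set Ω : Set (ℂ × mixedSpace K) := {z | z.2 ≠ 0} with hΩ
  have hΩo : IsOpen Ω := isOpen_ne_fun continuous_snd continuous_const
  have h1 : ContDiffOn ℝ k f Ω := fun z hz => (contDiffAt_HH n t k hz).contDiffWithinAt
  have h2 : ContinuousOn (iteratedFDeriv ℝ k f) Ω := by
    have h3 := h1.continuousOn_iteratedFDerivWithin (m := k) le_rfl hΩo.uniqueDiffOn
    exact h3.congr fun z hz => (iteratedFDerivWithin_of_isOpen k hΩo hz).symm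
  set Q : Set (ℂ × mixedSpace K) := {z | ‖z.1‖ ≤ R ∧ 1 / 2 ≤ ‖z.2‖ ∧ ‖z.2‖ ≤ 2} with hQ
  have hQc : IsCompact Q := by
    refine Metric.isCompact_of_isClosed_isBounded ?_ ?_
    · refine IsClosed.inter ?_ (IsClosed.inter ?_ ?_)
      · exact isClosed_le continuous_fst.norm continuous_const
      · exact isClosed_le continuous_const continuous_snd.norm
      · exact isClosed_le continuous_snd.norm continuous_const
    · refine (Metric.isBounded_iff_subset_closedBall (0 : ℂ × mixedSpace K)).2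
        ⟨max R 2, fun z hz => ?_⟩
      rw [mem_closedBall_zero_iff, Prod.norm_def]
      exact max_le_max hz.1 hz.2.2
  have hQΩ : Q ⊆ Ω := fun z hz h0 => by
    have := hz.2.1
    rw [h0, norm_zero] at this
    linarith
  obtain ⟨C, hC⟩ := hQc.exists_bound_of_continuousOn (h2.mono hQΩ)
  exact ⟨max C 0, le_max_right _ _, fun z a b c => (hC z ⟨a, b, c⟩).trans (le_max_left _ _)⟩

open scoped Classical in
/-- **The iterated differences decay.** -/
theorem HH_bound (n : InfinitePlace K → ℤ) (t : InfinitePlace K → ℝ) {ι : Type} [Fintype ι]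
    (g : ι → mixedSpace K) (k : ℕ) (R : ℝ) :
    ∃ R₀ C : ℝ, 1 ≤ R₀ ∧ 0 ≤ C ∧ ∀ (s : ℂ) (X : mixedSpace K), ‖s‖ ≤ R → R₀ ≤ ‖X‖ →
      ‖(Pd g)^[k] (HH n t s) X‖ ≤ C * ‖X‖ ^ (-((finrank ℚ K : ℝ) * s.re + k)) := by
  obtain ⟨C₀, hC₀, H⟩ := exists_deriv_bound n t k (R + 1)
  set M : ℝ := ∑ i, ‖g i‖ with hM
  have hM0 : 0 ≤ M := Finset.sum_nonneg fun i _ => norm_nonneg _
  have hgM : ∀ i, ‖g i‖ ≤ M := fun i =>
    Finset.single_le_sum (f := fun i => ‖g i‖) (fun i _ => norm_nonneg _) (Finset.mem_univ i)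
  refine ⟨2 * k * M + 1, (Fintype.card ι * M) ^ k * C₀, by
    have : 0 ≤ 2 * (k : ℝ) * M := by positivity
    linarith, by positivity, fun s X hs hX => ?_⟩
  set c : ℝ := ‖X‖ with hc
  have hc0 : 0 < c := by
    have : 0 ≤ 2 * (k : ℝ) * M := by positivity
    linarith
  set Y : mixedSpace K := c⁻¹ • X with hY
  have hY1 : ‖Y‖ = 1 := by
    rw [hY, _root_.norm_smul, norm_inv, Real.norm_of_nonneg hc0.le, ← hc, inv_mul_cancel₀ hc0.ne']
  have hXY : X = c • Y := by rw [hY, smul_inv_smul₀ hc0.ne']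
  have e1 : (Pd g)^[k] (HH n t s) X =
      fac K t s c * (Pd fun i => ((0 : ℂ), c⁻¹ • g i))^[k]
        (fun z : ℂ × mixedSpace K => HH n t z.1 z.2) (s, Y) := by
    rw [← Pd_slice (fun i => c⁻¹ • g i) s (fun z : ℂ × mixedSpace K => HH n t z.1 z.2) k Y]
    have h1 := Pd_iterate_comp (DistribSMul.toAddMonoidHom (mixedSpace K) c)
      (fun i => c⁻¹ • g i) (HH n t s) k Y
    simp only [DistribSMul.toAddMonoidHom_apply, smul_inv_smul₀ hc0.ne'] at h1
    rw [hXY, ← h1]
    simp only [HH_smul n t s hc0]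
    rw [Pd_const_mul]
  have hkM : (k : ℝ) * (M / c) ≤ 1 / 2 := by
    rw [mul_div_assoc', div_le_iff₀ hc0]
    linarith
  have hball : ∀ z ∈ Metric.closedBall ((s, Y) : ℂ × mixedSpace K) (0 + k * (M / c)),
      ‖z.1‖ ≤ R + 1 ∧ 1 / 2 ≤ ‖z.2‖ ∧ ‖z.2‖ ≤ 2 := by
    intro z hz
    rw [zero_add, Metric.mem_closedBall, dist_eq_norm, Prod.norm_def] at hz
    have h1 : ‖z.1 - s‖ ≤ 1 / 2 := (le_max_left _ _).trans (hz.trans hkM)
    have h2 : ‖z.2 - Y‖ ≤ 1 / 2 := (le_max_right _ _).trans (hz.trans hkM)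
    refine ⟨?_, ?_, ?_⟩
    · have := norm_add_le (z.1 - s) s
      rw [sub_add_cancel] at this
      linarith
    · have := norm_sub_norm_le Y z.2
      rw [norm_sub_rev] at this
      linarith
    · have := norm_add_le (z.2 - Y) Y
      rw [sub_add_cancel] at this
      linarith
  have e2 : ‖(Pd fun i => ((0 : ℂ), c⁻¹ • g i))^[k]
      (fun z : ℂ × mixedSpace K => HH n t z.1 z.2) (s, Y)‖ ≤
      (Fintype.card ι * (M / c)) ^ k * C₀ := by
    refine Pd_bound k (g := fun i => ((0 : ℂ), c⁻¹ • g i)) (M := M / c) ?_ (z₀ := (s, Y)) (r := 0)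
      ?_ ?_ (s, Y) (Metric.mem_closedBall_self le_rfl)
    · intro i
      rw [Prod.norm_def]
      refine max_le (by simpa using div_nonneg hM0 hc0.le) ?_
      change ‖c⁻¹ • g i‖ ≤ M / c
      rw [_root_.norm_smul, norm_inv, Real.norm_of_nonneg hc0.le, div_eq_inv_mul]
      exact mul_le_mul_of_nonneg_left (hgM i) (inv_nonneg.2 hc0.le)
    · intro z hz
      refine contDiffAt_HH n t k fun h0 => ?_
      have := (hball z hz).2.1
      rw [h0, norm_zero] at this
      linarith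
    · intro z hz
      obtain ⟨a, b, d⟩ := hball z hz
      exact H z a b d
  rw [e1, norm_mul, norm_fac t s hc0]
  refine (mul_le_mul_of_nonneg_left e2 (Real.rpow_nonneg hc0.le _)).trans (le_of_eq ?_)
  rw [neg_add, Real.rpow_add hc0, Real.rpow_neg hc0.le (k : ℝ), Real.rpow_natCast]
  rw [mul_div_assoc', div_pow]
  field_simp

end Pool.Agent.Work.MP_2b9663_nt.He
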