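import Pool.Agent.Work.MP_2b9663_nt.He.Trans
import Pool.Agent.Work.MP_2b9663_nt.Ch.Unfold
import Pool.Agent.Work.MP_2b9663_nt.Ch.Classes

set_option autoImplicit false

/-!
The `L`-series of a multiplicative function on the ideals in terms of lattice sums.
-/

namespace Pool.Agent.Work.MP_2b9663_nt.He

open NumberField NumberField.mixedEmbedding Ideal
open scoped nonZeroDivisors

variable (K : Type) [Field K] [NumberField K]

/-- unfolding for the smooth weight -/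
theorem unfold_sw (G : Ideal (𝓞 K) → ℂ)
    (hG : Summable fun I : {I : Ideal (𝓞 K) // I ≠ ⊥ ∧ I.IsPrincipal} => ‖G I‖) :
    HasSum (fun x : 𝓞 K => (swt K x : ℂ) * G (span {x}))
      (∑' I : {I : Ideal (𝓞 K) // I ≠ ⊥ ∧ I.IsPrincipal}, G I) := by
  have h0 : ∀ x ∉ Set.range (genMap K), (swt K x : ℂ) * G (span {x}) = 0 := by
    intro x hx
    have : x = 0 := by
      by_contra hc
      exact hx (mem_range_genMap K hc)
    rw [this, swt_zero]
    simp
  rw [← (genMap_injective K).hasSum_iff h0]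
  have h1 : ((fun x : 𝓞 K => (swt K x : ℂ) * G (span {x})) ∘ genMap K) =
      fun q => (swt K (genMap K q) : ℂ) * G q.1 := by
    funext q
    simp only [Function.comp_apply]
    rw [span_genMap]
  rw [h1]
  have hW : ∀ I : {I : Ideal (𝓞 K) // I ≠ ⊥ ∧ I.IsPrincipal},
      HasSum (fun u : (𝓞 K)ˣ => swt K (genMap K (I, u))) 1 := by
    intro I
    have h := swt_units K (genMap K (I, 1)) (genMap_ne_zero K (I, 1))
    simp only [← genMap_mul] at h
    exact h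
  have h2 : Summable fun q : {I : Ideal (𝓞 K) // I ≠ ⊥ ∧ I.IsPrincipal} × (𝓞 K)ˣ =>
      swt K (genMap K q) * ‖G q.1‖ := by
    refine (summable_prod_of_nonneg fun q => mul_nonneg (swt_nonneg K _) (norm_nonneg _)).mpr
      ⟨fun I => ?_, ?_⟩
    · exact (hW I).summable.mul_right ‖G (I : Ideal (𝓞 K))‖
    · refine hG.congr fun I => ?_
      show ‖G (I : Ideal (𝓞 K))‖ = ∑' u : (𝓞 K)ˣ, swt K (genMap K (I, u)) * ‖G (I : Ideal (𝓞 K))‖
      rw [tsum_mul_right, (hW I).tsum_eq, one_mul]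
  have h3 : Summable fun q : {I : Ideal (𝓞 K) // I ≠ ⊥ ∧ I.IsPrincipal} × (𝓞 K)ˣ =>
      (swt K (genMap K q) : ℂ) * G q.1 := by
    refine Summable.of_norm (h2.congr fun q => ?_)
    rw [norm_mul, Complex.norm_real, Real.norm_of_nonneg (swt_nonneg K _)]
  have h4 : ∀ I : {I : Ideal (𝓞 K) // I ≠ ⊥ ∧ I.IsPrincipal},
      HasSum (fun u : (𝓞 K)ˣ => (swt K (genMap K (I, u)) : ℂ) * G I) (G I) := by
    intro I
    have h5 := (Complex.hasSum_ofReal.mpr (hW I)).mul_right (G (I : Ideal (𝓞 K)))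
    rw [Complex.ofReal_one, one_mul] at h5
    exact h5
  have h6 := h3.hasSum.prod_fiberwise h4
  rw [h6.tsum_eq]
  exact h3.hasSum

variable {K}

open scoped Classical in
/-- the lattice sum over the ideal `J` -/
noncomputable def SS (h : Ideal (𝓞 K) → ℂ) (J : Ideal (𝓞 K)) : ℂ :=
  ∑' x : 𝓞 K, if x ∈ J then (swt K x : ℂ) * h (span {x}) else 0

/-- the sum over one class -/
lemma class_sum' {h : Ideal (𝓞 K) → ℂ} (hs : Summable fun I => ‖h I‖) (a J : (Ideal (𝓞 K))⁰) :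
    ∑' I : {I : (Ideal (𝓞 K))⁰ // ClassGroup.mk0 (a * I) = (ClassGroup.mk0 J)⁻¹},
      h ((J : Ideal (𝓞 K)) * ((a : Ideal (𝓞 K)) * ((I : (Ideal (𝓞 K))⁰) : Ideal (𝓞 K)))) =
        SS h ((a : Ideal (𝓞 K)) * J) := by
  classical
  have ha : (a : Ideal (𝓞 K)) ≠ ⊥ := nonZeroDivisors.coe_ne_zero a
  have hJ : (J : Ideal (𝓞 K)) ≠ ⊥ := nonZeroDivisors.coe_ne_zero J
  set G : Ideal (𝓞 K) → ℂ := fun P => if P ≤ (a : Ideal (𝓞 K)) * J then h P else 0 with hG
  have hGs : Summable fun I : {I : Ideal (𝓞 K) // I ≠ ⊥ ∧ I.IsPrincipal} => ‖G I‖ := by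
    refine Summable.of_nonneg_of_le (fun _ => norm_nonneg _) (fun I => ?_)
      (hs.comp_injective Subtype.val_injective)
    rw [hG]
    dsimp only
    split_ifs with h
    · exact le_rfl
    · rw [norm_zero]
      exact norm_nonneg _
  have h1 : SS h ((a : Ideal (𝓞 K)) * J) =
      ∑' I : {I : Ideal (𝓞 K) // I ≠ ⊥ ∧ I.IsPrincipal}, G I := by
    rw [← (unfold_sw K G hGs).tsum_eq]
    unfold SS
    refine tsum_congr fun x => ?_
    rw [hG]
    dsimp only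
    rw [Ideal.span_singleton_le_iff_mem]
    by_cases hx : x ∈ (a : Ideal (𝓞 K)) * J
    · rw [if_pos hx, if_pos hx]
    · rw [if_neg hx, if_neg hx, mul_zero]
  rw [h1]
  have hcop : ∀ I : (Ideal (𝓞 K))⁰,
      ((J : Ideal (𝓞 K)) * ((a : Ideal (𝓞 K)) * (I : Ideal (𝓞 K)))) = ((J * (a * I) : (Ideal (𝓞 K))⁰) : Ideal (𝓞 K)) := by
    intro I
    rfl
  let g : {I : (Ideal (𝓞 K))⁰ // ClassGroup.mk0 (a * I) = (ClassGroup.mk0 J)⁻¹} →
      {I : Ideal (𝓞 K) // I ≠ ⊥ ∧ I.IsPrincipal} := fun I =>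
    ⟨(J : Ideal (𝓞 K)) * ((a : Ideal (𝓞 K)) * (I.1 : Ideal (𝓞 K))), by
      rw [hcop]
      exact nonZeroDivisors.coe_ne_zero _, by
      rw [hcop]
      refine (ClassGroup.mk0_eq_one_iff (SetLike.coe_mem _)).mp ?_
      have : ClassGroup.mk0 (J * (a * I.1)) = 1 := by
        rw [map_mul, I.2, mul_inv_cancel]
      exact this⟩
  have hg : Function.Injective g := by
    intro I I' h
    have h2 : (J : Ideal (𝓞 K)) * ((a : Ideal (𝓞 K)) * (I.1 : Ideal (𝓞 K))) =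
        (J : Ideal (𝓞 K)) * ((a : Ideal (𝓞 K)) * (I'.1 : Ideal (𝓞 K))) := congrArg Subtype.val h
    have h3 := mul_left_cancel₀ hJ h2
    have h4 := mul_left_cancel₀ ha h3
    exact Subtype.ext (Subtype.ext h4)
  have hsup : Function.support (fun P : {I : Ideal (𝓞 K) // I ≠ ⊥ ∧ I.IsPrincipal} => G P) ⊆
      Set.range g := by
    intro P hP
    have hle : (P : Ideal (𝓞 K)) ≤ (a : Ideal (𝓞 K)) * J := by
      by_contra hc
      apply hP
      rw [hG]
      dsimp only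
      rw [if_neg hc]
    obtain ⟨I, hI'⟩ := Ideal.dvd_iff_le.mpr hle
    have hI0 : I ≠ ⊥ := by
      rintro rfl
      apply P.2.1
      rw [hI', Ideal.mul_bot]
    have hI1 : I ∈ (Ideal (𝓞 K))⁰ := mem_nonZeroDivisors_of_ne_zero hI0
    obtain ⟨I1, hI2⟩ : ∃ I1 : (Ideal (𝓞 K))⁰, (I1 : Ideal (𝓞 K)) = I := ⟨⟨I, hI1⟩, rfl⟩
    have h5 : (P : Ideal (𝓞 K)) = ((J * (a * I1) : (Ideal (𝓞 K))⁰) : Ideal (𝓞 K)) := by
      rw [hI', ← hcop, hI2]
      ring
    have h6 : ClassGroup.mk0 (J * (a * I1)) = 1 := by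
      have h7 := P.2.2
      rw [h5] at h7
      exact (ClassGroup.mk0_eq_one_iff (J * (a * I1)).2).mpr h7
    rw [map_mul] at h6
    refine ⟨⟨I1, (inv_eq_of_mul_eq_one_right h6).symm⟩, ?_⟩
    apply Subtype.ext
    rw [h5]
    rfl
  rw [← hg.tsum_eq hsup]
  refine tsum_congr fun I => ?_
  rw [hG]
  dsimp only
  rw [if_pos]
  have : ((g I : {I : Ideal (𝓞 K) // I ≠ ⊥ ∧ I.IsPrincipal}) : Ideal (𝓞 K)) =
      ((a : Ideal (𝓞 K)) * J) * (I.1 : Ideal (𝓞 K)) := by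
    show (J : Ideal (𝓞 K)) * ((a : Ideal (𝓞 K)) * (I.1 : Ideal (𝓞 K))) = _
    ring
  rw [this]
  exact Ideal.mul_le_left

/-- **Decomposition in classes.** -/
theorem classes' {h : Ideal (𝓞 K) → ℂ} (hs : Summable fun I => ‖h I‖)
    (hmul : ∀ I J, h (I * J) = h I * h J) (hbot : h ⊥ = 0)
    (J : ClassGroup (𝓞 K) → (Ideal (𝓞 K))⁰) (hJ : ∀ C, ClassGroup.mk0 (J C) = C⁻¹)
    (hne : ∀ C, h (J C : Ideal (𝓞 K)) ≠ 0) (a : Ideal (𝓞 K)) (ha : a ≠ ⊥) :
    h a * ∑' I, h I = ∑ C, (h (J C : Ideal (𝓞 K)))⁻¹ * SS h (a * J C) := by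
  classical
  set a' : (Ideal (𝓞 K))⁰ := ⟨a, mem_nonZeroDivisors_of_ne_zero ha⟩ with ha'
  have h1 : HasSum (fun I : (Ideal (𝓞 K))⁰ => h I) (∑' I, h I) := by
    have := (Function.Injective.hasSum_iff (f := fun I => h I) (g := fun I : (Ideal (𝓞 K))⁰ =>
      (I : Ideal (𝓞 K))) (a := ∑' I, h I) Subtype.val_injective ?_).mpr hs.of_norm.hasSum
    · exact this
    · intro I hI1
      have : I = ⊥ := by
        by_contra hc
        exact hI1 ⟨⟨I, mem_nonZeroDivisors_of_ne_zero hc⟩, rfl⟩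
      rw [this]
      exact hbot
  have h2 : HasSum (fun I : (Ideal (𝓞 K))⁰ => h (a * I)) (h a * ∑' I, h I) := by
    have := h1.mul_left (h a)
    simp only [hmul]
    exact this
  set t : ClassGroup (𝓞 K) → (Ideal (𝓞 K))⁰ → ℂ := fun C I =>
    if ClassGroup.mk0 (a' * I) = C then h (a * I) else 0 with ht
  have ht1 : ∀ C, Summable (t C) := by
    intro C
    refine Summable.of_norm_bounded (g := fun I : (Ideal (𝓞 K))⁰ => ‖h (a * I)‖) ?_ ?_
    · have h3 : Function.Injective (fun I : (Ideal (𝓞 K))⁰ => a * (I : Ideal (𝓞 K))) := by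
        intro I I' h
        exact Subtype.ext (mul_left_cancel₀ ha h)
      exact hs.comp_injective h3
    · intro I
      rw [ht]
      dsimp only
      split_ifs
      · exact le_rfl
      · rw [norm_zero]
        exact norm_nonneg _
  have h3 : h a * ∑' I, h I = ∑ C, ∑' I, t C I := by
    rw [← h2.tsum_eq, ← Summable.tsum_finsetSum (fun C _ => ht1 C)]
    refine tsum_congr fun I => ?_
    rw [ht]
    simp
  rw [h3]
  refine Finset.sum_congr rfl fun C _ => ?_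
  have h5 : ∑' I, t C I = ∑' I : {I : (Ideal (𝓞 K))⁰ //
      ClassGroup.mk0 (a' * I) = (ClassGroup.mk0 (J C))⁻¹}, h (a * (I : (Ideal (𝓞 K))⁰)) := by
    have hC : (ClassGroup.mk0 (J C))⁻¹ = C := by rw [hJ, inv_inv]
    rw [hC]
    have h6 : t C = Set.indicator {I : (Ideal (𝓞 K))⁰ | ClassGroup.mk0 (a' * I) = C}
        (fun I => h (a * (I : (Ideal (𝓞 K))⁰))) := by
      funext I
      rw [ht, Set.indicator_apply]
      rfl
    rw [h6, ← tsum_subtype]
    rfl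
  rw [h5, ← class_sum' hs a' (J C), ← tsum_mul_left]
  refine tsum_congr fun I => ?_
  rw [hmul (J C : Ideal (𝓞 K)), inv_mul_cancel_left₀ (hne C)]

end Pool.Agent.Work.MP_2b9663_nt.He
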