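import Pool.Agent.Work.MP_2b9663_nt.He.Defs

set_option autoImplicit false

/-!
`L`-functions of systems of traces over number fields, twisted by Hecke characters.
-/

namespace Pool.Agent.Work.MP_2b9663_nt

open NumberField IsDedekindDomain

section

variable {K : Type} [Field K] [NumberField K]

/-- `|t v k| ≤ b * N(v) ^ (k i / 2)` for all `k ≥ 1` and all the primes `v` of `K` outside the finite
set `S` of primes. If `t v k` are the traces of the powers of the Frobenius elements on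
`H ^ i (X)`, for a smooth projective variety `X` over `K`, this holds with the `i`-th Betti number
`b`, by Deligne. -/
def WeilK (S : Finset (HeightOneSpectrum (𝓞 K))) (t : HeightOneSpectrum (𝓞 K) → ℕ → ℂ) (i : ℕ)
    (b : ℝ) : Prop :=
  ∀ v, v ∉ S → ∀ k : ℕ, k ≠ 0 →
    ‖t v k‖ ≤ b * Real.sqrt ((Ideal.absNorm v.asIdeal : ℝ) ^ k) ^ i

/-- the logarithm of the Euler factor with the traces `t k` at a prime of norm `q` -/
noncomputable def logK (t : ℕ → ℂ) (q : ℕ) (s : ℂ) : ℂ :=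
  ∑' k : ℕ, t (k + 1) * (q : ℂ) ^ (-(((k + 1 : ℕ) : ℂ) * s)) / ((k + 1 : ℕ) : ℂ)

/-- `E` agrees for `Re s > i / 2 + 1` with an Euler product over the primes `v` of `K` whose factor
at every prime outside a finite set `T` of primes, containing `S`, is the one attached to the traces
`t v k`, and whose factors at the primes in `T` are `Q v (N(v) ^ (-s))⁻¹`, with arbitrary polynomials
`Q v` not vanishing at `N(v) ^ (-s₀)`, `s₀ = i / 2 + 1`. -/
def IsEulerK (S : Finset (HeightOneSpectrum (𝓞 K))) (t : HeightOneSpectrum (𝓞 K) → ℕ → ℂ) (i : ℕ)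
    (E : ℂ → ℂ) : Prop :=
  ∃ (T : Finset (HeightOneSpectrum (𝓞 K))) (Q : HeightOneSpectrum (𝓞 K) → Polynomial ℂ), S ⊆ T ∧
    (∀ v ∈ T, (Q v).eval ((Ideal.absNorm v.asIdeal : ℂ) ^ (-((i : ℂ) / 2 + 1))) ≠ 0) ∧
    ∀ s : ℂ, (i : ℝ) / 2 + 1 < s.re →
      E s = (∏ v ∈ T, ((Q v).eval ((Ideal.absNorm v.asIdeal : ℂ) ^ (-s)))⁻¹) *
        Complex.exp (∑' v : {v : HeightOneSpectrum (𝓞 K) // v ∉ T},
          logK (t v) (Ideal.absNorm v.1.asIdeal) s)

/-- the traces of the twist of the system `t` by the sum of the Hecke characters `ψ r` -/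
noncomputable def twistK {w : ℕ} (t : HeightOneSpectrum (𝓞 K) → ℕ → ℂ)
    (ψ : Fin w → HeckeChar K) (v : HeightOneSpectrum (𝓞 K)) (k : ℕ) : ℂ :=
  t v k * ∑ r, (ψ r).toFun v.asIdeal ^ k

/-- the Hecke characters `ψ` and `φ` are different: they differ at a nonzero ideal which is prime to
both moduli -/
def HeckeChar.Differ (ψ φ : HeckeChar K) : Prop :=
  ∃ I : Ideal (𝓞 K), I ≠ ⊥ ∧ I ⊔ ψ.cond = ⊤ ∧ I ⊔ φ.cond = ⊤ ∧ ψ.toFun I ≠ φ.toFun I

/-- `n` is the order at `s₀ = i / 2 + 1` of the `L`-function of the traces `t v k`: either this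
`L`-function extends meromorphically to a neighbourhood of `s₀`, with the order `n`; or
`t v k = b * N(v) ^ (k i / 2)` for a natural number `b`, as for `b` classes of algebraic cycles over
`K`, and `n = -b`. In particular this holds with `n = 0` if `t = 0`. -/
def OrdK (S : Finset (HeightOneSpectrum (𝓞 K))) (t : HeightOneSpectrum (𝓞 K) → ℕ → ℂ) (i : ℕ)
    (n : ℤ) : Prop :=
  (∃ E : ℂ → ℂ, IsEulerK S t i E ∧ MeromorphicAt E ((i : ℂ) / 2 + 1) ∧
    meromorphicOrderAt E ((i : ℂ) / 2 + 1) = n) ∨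
  ∃ b : ℕ, (∀ v, v ∉ S → ∀ k : ℕ, k ≠ 0 →
    t v k = b * Real.sqrt ((Ideal.absNorm v.asIdeal : ℝ) ^ k) ^ i) ∧ n = -b

/-- `δ` bounds the mean value of the squares of the absolute values of the normalised traces `t v 1`:
either `δ` is the square of the dimension `d` in the Weil bound; or the `L`-function of the traces
`|t v k| ^ 2` (the tensor product of the system with its dual, up to a twist) extends meromorphically
to a neighbourhood of `i + 1`, and has the order `-δ` there. -/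
def SecondMoment (S : Finset (HeightOneSpectrum (𝓞 K))) (t : HeightOneSpectrum (𝓞 K) → ℕ → ℂ)
    (i : ℕ) (d δ : ℝ) : Prop :=
  δ = d ^ 2 ∨ ∃ (E : ℂ → ℂ) (M : ℤ), IsEulerK S (fun v k => ((‖t v k‖ ^ 2 : ℝ) : ℂ)) (2 * i) E ∧
    MeromorphicAt E (((2 * i : ℕ) : ℂ) / 2 + 1) ∧
    meromorphicOrderAt E (((2 * i : ℕ) : ℂ) / 2 + 1) = -M ∧ δ = M

end

section

variable {κ : Type} [Fintype κ] {K₀ : Type} [Field K₀] [NumberField K₀] {K : κ → Type}
  [∀ j, Field (K j)] [∀ j, NumberField (K j)]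

/-- `F` is a meromorphic continuation to a neighbourhood of `s₀ = i / 2 + 1` of the product of the
`L`-function of the system `t₀` over `K₀` and of the `L`-functions of the systems `t j` over the
number fields `K j`, twisted by the sums of the Hecke characters `ψ j r` of `K j`. -/
def IsHeckeContinuation (S₀ : Finset (HeightOneSpectrum (𝓞 K₀)))
    (t₀ : HeightOneSpectrum (𝓞 K₀) → ℕ → ℂ) (S : ∀ j, Finset (HeightOneSpectrum (𝓞 (K j))))
    (t : ∀ j, HeightOneSpectrum (𝓞 (K j)) → ℕ → ℂ) (i : ℕ) {w : κ → ℕ}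
    (ψ : ∀ j, Fin (w j) → HeckeChar (K j)) (F : ℂ → ℂ) : Prop :=
  MeromorphicAt F ((i : ℂ) / 2 + 1) ∧ ∃ (E₀ : ℂ → ℂ) (E : κ → ℂ → ℂ), IsEulerK S₀ t₀ i E₀ ∧
    (∀ j, IsEulerK (S j) (twistK (t j) (ψ j)) i (E j)) ∧
    ∀ s : ℂ, (i : ℝ) / 2 + 1 < s.re → F s = E₀ s * ∏ j, E j s

/-- For all `j` with `δ j ≠ 0`, no two of the Hecke characters `ψ a j r` of `K j` are equal. -/
def Distinct {ι : Type} {w : κ → ℕ} (δ : κ → ℝ) (ψ : ι → ∀ j, Fin (w j) → HeckeChar (K j)) :
    Prop :=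
  ∀ j, δ j ≠ 0 → ∀ (a a' : ι) (r r' : Fin (w j)), (a, r) ≠ (a', r') →
    (ψ a j r).Differ (ψ a' j r')

end

/-- The orders `m a` are equal to `n` up to an error bounded by `D` in the mean square: the sum of the
squares of the `m a - n` over any finite set of indices is at most `D ^ 2`, so that `m a = n` for
all but at most `D ^ 2` of the indices `a`. -/
def NearlyEqual {ι : Type} (m : ι → ℤ) (n : ℤ) (D : ℝ) : Prop :=
  (∀ s : Finset ι, ∑ a ∈ s, ((m a : ℝ) - n) ^ 2 ≤ D ^ 2) ∧ {a | m a ≠ n}.encard ≤ (⌊D ^ 2⌋₊ : ℕ)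

end Pool.Agent.Work.MP_2b9663_nt
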