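import Pool.Agent.Work.MP_2b9663_nt.He.Nonvan
import Pool.Agent.Work.MP_2b9663_nt.He.DefsL

set_option autoImplicit false

/-!
Mean values over the primes of a number field.
-/

namespace Pool.Agent.Work.MP_2b9663_nt.He

open NumberField Ideal Filter Topology IsDedekindDomain

variable {K : Type} [Field K] [NumberField K]

/-- the weighted sum over the primes -/
noncomputable def SR (c : HeightOneSpectrum (𝓞 K) → ℝ) (ε : ℝ) : ℝ :=
  ∑' v : HeightOneSpectrum (𝓞 K), c v * qn v ^ (-(1 + ε))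

/-- the mean value -/
noncomputable def MR (c : HeightOneSpectrum (𝓞 K) → ℝ) (ε : ℝ) : ℝ := SR c ε / (-Real.log ε)

/-- bounded functions -/
def BK (c : HeightOneSpectrum (𝓞 K) → ℝ) : Prop := ∃ B : ℝ, ∀ v, |c v| ≤ B

lemma qpow_nonneg (v : HeightOneSpectrum (𝓞 K)) (σ : ℝ) : 0 ≤ qn v ^ σ :=
  Real.rpow_nonneg (qn_pos v).le _

lemma SR_summable {c : HeightOneSpectrum (𝓞 K) → ℝ} (hc : BK c) {ε : ℝ} (hε : 0 < ε) :
    Summable fun v : HeightOneSpectrum (𝓞 K) => c v * qn v ^ (-(1 + ε)) := by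
  obtain ⟨B, hB⟩ := hc
  refine Summable.of_norm_bounded ((qn_summable (K := K) (σ := 1 + ε) (by linarith)).mul_left B)
    fun v => ?_
  rw [norm_mul, Real.norm_eq_abs, Real.norm_of_nonneg (qpow_nonneg v _)]
  exact mul_le_mul_of_nonneg_right (hB v) (qpow_nonneg v _)

lemma BK.add {c d : HeightOneSpectrum (𝓞 K) → ℝ} (hc : BK c) (hd : BK d) :
    BK fun v => c v + d v := by
  obtain ⟨B, hB⟩ := hc
  obtain ⟨C, hC⟩ := hd
  exact ⟨B + C, fun v => (abs_add_le _ _).trans (add_le_add (hB v) (hC v))⟩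

lemma BK.const_mul {c : HeightOneSpectrum (𝓞 K) → ℝ} (a : ℝ) (hc : BK c) :
    BK fun v => a * c v := by
  obtain ⟨B, hB⟩ := hc
  exact ⟨|a| * B, fun v => by
    rw [abs_mul]
    exact mul_le_mul_of_nonneg_left (hB v) (abs_nonneg _)⟩

lemma BK.sum {ι : Type} (s : Finset ι) {c : ι → HeightOneSpectrum (𝓞 K) → ℝ}
    (hc : ∀ i ∈ s, BK (c i)) : BK fun v => ∑ i ∈ s, c i v := by
  classical
  induction s using Finset.induction_on with
  | empty => exact ⟨0, fun v => by simp⟩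
  | insert a s ha ih =>
    simp only [Finset.sum_insert ha]
    exact (hc a (Finset.mem_insert_self _ _)).add (ih fun i hi => hc i (Finset.mem_insert_of_mem hi))

lemma BK.one : BK fun _ : HeightOneSpectrum (𝓞 K) => (1 : ℝ) := ⟨1, fun _ => by simp⟩

lemma MR_add {c d : HeightOneSpectrum (𝓞 K) → ℝ} (hc : BK c) (hd : BK d) {ε : ℝ} (hε : 0 < ε) :
    MR (fun v => c v + d v) ε = MR c ε + MR d ε := by
  unfold MR SR
  rw [← add_div, ← (SR_summable hc hε).tsum_add (SR_summable hd hε)]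
  congr 1
  exact tsum_congr fun v => by ring

lemma MR_const_mul (a : ℝ) (c : HeightOneSpectrum (𝓞 K) → ℝ) (ε : ℝ) :
    MR (fun v => a * c v) ε = a * MR c ε := by
  unfold MR SR
  rw [← mul_div_assoc, ← tsum_mul_left]
  congr 1
  exact tsum_congr fun v => by ring

lemma MR_sum {ι : Type} (s : Finset ι) {c : ι → HeightOneSpectrum (𝓞 K) → ℝ}
    (hc : ∀ i ∈ s, BK (c i)) {ε : ℝ} (hε : 0 < ε) :
    MR (fun v => ∑ i ∈ s, c i v) ε = ∑ i ∈ s, MR (c i) ε := by
  classical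
  induction s using Finset.induction_on with
  | empty => simp [MR, SR]
  | insert a s ha ih =>
    simp only [Finset.sum_insert ha]
    rw [MR_add (hc a (Finset.mem_insert_self _ _))
      (BK.sum s fun i hi => hc i (Finset.mem_insert_of_mem hi)) hε,
      ih fun i hi => hc i (Finset.mem_insert_of_mem hi)]

lemma neglog_pos' {ε : ℝ} (hε : 0 < ε) (hε1 : ε < 1) : 0 < -Real.log ε := by
  have := Real.log_neg hε hε1
  linarith

lemma MR_mono {c d : HeightOneSpectrum (𝓞 K) → ℝ} (hc : BK c) (hd : BK d) (h : ∀ v, c v ≤ d v)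
    {ε : ℝ} (hε : 0 < ε) (hε1 : ε < 1) : MR c ε ≤ MR d ε := by
  unfold MR SR
  refine div_le_div_of_nonneg_right ?_ (neglog_pos' hε hε1).le
  exact (SR_summable hc hε).tsum_le_tsum
    (fun v => mul_le_mul_of_nonneg_right (h v) (qpow_nonneg v _)) (SR_summable hd hε)

lemma eventually_unit : ∀ᶠ ε : ℝ in 𝓝[>] 0, 0 < ε ∧ ε < 1 := by
  filter_upwards [Ioo_mem_nhdsGT (zero_lt_one (α := ℝ))] with ε hε
  exact hε

lemma neglog_atTop : Tendsto (fun ε : ℝ => -Real.log ε) (𝓝[>] 0) atTop :=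
  tendsto_neg_atBot_atTop.comp Real.tendsto_log_nhdsGT_zero

/-- bounded functions are negligible -/
lemma tendsto_div_log {g : ℝ → ℝ} {C : ℝ} (h : ∀ᶠ ε : ℝ in 𝓝[>] 0, |g ε| ≤ C) :
    Tendsto (fun ε : ℝ => g ε / (-Real.log ε)) (𝓝[>] 0) (𝓝 0) := by
  have h1 : Tendsto (fun ε : ℝ => |C| / (-Real.log ε)) (𝓝[>] 0) (𝓝 0) :=
    neglog_atTop.const_div_atTop _
  refine squeeze_zero_norm' ?_ h1
  filter_upwards [h, eventually_unit] with ε h2 h3
  have h4 := neglog_pos' h3.1 h3.2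
  rw [norm_div, Real.norm_of_nonneg h4.le, Real.norm_eq_abs]
  exact div_le_div_of_nonneg_right (h2.trans (le_abs_self C)) h4.le

/-- from a bounded error to the limit -/
lemma tendsto_of_log {g : ℝ → ℝ} {κ C : ℝ} (h : ∀ᶠ ε : ℝ in 𝓝[>] 0, |g ε + κ * Real.log ε| ≤ C) :
    Tendsto (fun ε : ℝ => g ε / (-Real.log ε)) (𝓝[>] 0) (𝓝 κ) := by
  have h1 := (tendsto_div_log h).add_const κ
  rw [zero_add] at h1
  refine h1.congr' ?_
  filter_upwards [eventually_unit] with ε h3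
  have h4 : Real.log ε ≠ 0 := (Real.log_neg h3.1 h3.2).ne
  field_simp
  ring

lemma MR_one : Tendsto (MR fun _ : HeightOneSpectrum (𝓞 K) => (1 : ℝ)) (𝓝[>] 0) (𝓝 1) := by
  obtain ⟨C, hC⟩ := SQ_log K
  refine tendsto_of_log (C := C) ?_
  filter_upwards [hC] with ε h
  rw [one_mul]
  unfold SR
  simpa [SQ] using h

/-- functions supported on finite sets are negligible -/
lemma SR_finite {c : HeightOneSpectrum (𝓞 K) → ℝ} (T : Finset (HeightOneSpectrum (𝓞 K)))
    (h : ∀ v, v ∉ T → c v = 0) {ε : ℝ} (hε : 0 < ε) : |SR c ε| ≤ ∑ v ∈ T, |c v| := by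
  unfold SR
  rw [tsum_eq_sum (s := T) fun v hv => by rw [h v hv, zero_mul]]
  refine (Finset.abs_sum_le_sum_abs _ _).trans (Finset.sum_le_sum fun v _ => ?_)
  rw [abs_mul, abs_of_nonneg (qpow_nonneg v _)]
  refine mul_le_of_le_one_right (abs_nonneg _) ?_
  exact Real.rpow_le_one_of_one_le_of_nonpos (by linarith [two_le_qn v]) (by linarith)

lemma MR_congr {c d : HeightOneSpectrum (𝓞 K) → ℝ} (hc : BK c) (hd : BK d)
    (T : Finset (HeightOneSpectrum (𝓞 K))) (h : ∀ v, v ∉ T → c v = d v) {κ : ℝ}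
    (hlim : Tendsto (MR c) (𝓝[>] 0) (𝓝 κ)) : Tendsto (MR d) (𝓝[>] 0) (𝓝 κ) := by
  have h1 : Tendsto (MR fun v => d v + (-1) * c v) (𝓝[>] 0) (𝓝 0) := by
    refine tendsto_div_log (C := ∑ v ∈ T, |d v + (-1) * c v|) ?_
    filter_upwards [eventually_unit] with ε hε
    exact SR_finite T (fun v hv => by rw [h v hv]; ring) hε.1
  have h2 := h1.add hlim
  rw [zero_add] at h2
  refine h2.congr' ?_
  filter_upwards [eventually_unit] with ε hε
  rw [MR_add hd (hc.const_mul (-1)) hε.1, MR_const_mul]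
  ring

section Orth

variable (ψ φ : HeckeChar K)

/-- the real part of the product with the conjugate -/
noncomputable def rc (v : HeightOneSpectrum (𝓞 K)) : ℝ :=
  (ψ v.asIdeal * (starRingEnd ℂ) (φ v.asIdeal)).re

lemma rc_le (v : HeightOneSpectrum (𝓞 K)) : |rc ψ φ v| ≤ 1 := by
  refine (Complex.abs_re_le_norm _).trans ?_
  rw [norm_mul, RCLike.norm_conj]
  exact mul_le_one₀ (ψ.norm_le_one v.ne_bot) (norm_nonneg _) (φ.norm_le_one v.ne_bot)

lemma rc_BK : BK (rc ψ φ) := ⟨1, rc_le ψ φ⟩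

lemma TP_re {ε : ℝ} (hε : 0 < ε) :
    (TP ψ ((1 + ε : ℝ) : ℂ)).re = SR (fun v => (ψ v.asIdeal).re) ε := by
  have hs := re_one_add hε
  have h2 := (primes_summable (hP_summable ψ hs)).of_norm
  have h2' := Complex.hasSum_re h2.hasSum
  unfold TP SR
  rw [← h2'.tsum_eq]
  refine tsum_congr fun v => ?_
  unfold hP
  have h6 : (absNorm v.asIdeal : ℂ) ^ (-((1 + ε : ℝ) : ℂ)) =
      ((qn v ^ (-(1 + ε)) : ℝ) : ℂ) := by
    rw [Complex.ofReal_cpow (qn_pos v).le]
    unfold qn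
    push_cast
    rfl
  rw [h6, Complex.re_mul_ofReal]

/-- **Orthogonality.** -/
theorem orth_differ (h : ψ.Differ φ) : Tendsto (MR (rc ψ φ)) (𝓝[>] 0) (𝓝 0) := by
  obtain ⟨I, hI, h1, h2, h3⟩ := h
  have hnt : (ψ.mul φ.conj).Nontriv := by
    refine ⟨I, hI, ?_, ?_⟩
    · change I ⊔ ψ.cond * φ.cond = ⊤
      rw [sup_comm] at h1 h2 ⊢
      exact coprime_mul h1 h2
    · change ψ I * (starRingEnd ℂ) (φ I) ≠ 1
      intro h4
      apply h3
      have h5 : (starRingEnd ℂ) (φ I) * φ I = 1 := by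
        rw [mul_comm, Complex.mul_conj, Complex.normSq_eq_norm_sq, φ.norm_eq I hI h2]
        simp
      calc ψ I = ψ I * ((starRingEnd ℂ) (φ I) * φ I) := by rw [h5, mul_one]
        _ = φ I := by rw [← mul_assoc, h4, one_mul]
  obtain ⟨C, hC⟩ := TP_bounded _ hnt
  refine tendsto_div_log (C := C) ?_
  filter_upwards [hC, eventually_unit] with ε h4 h5
  rw [TP_re _ h5.1] at h4
  exact h4

theorem orth_self : Tendsto (MR (rc ψ ψ)) (𝓝[>] 0) (𝓝 1) := by
  classical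
  refine MR_congr BK.one (rc_BK ψ ψ) (finite_not_coprime K ψ.cond_ne).toFinset
    (fun v hv => ?_) MR_one
  rw [Set.Finite.mem_toFinset, Set.mem_ofPred_eq, not_not] at hv
  unfold rc
  rw [Complex.mul_conj, Complex.normSq_eq_norm_sq, ψ.norm_eq _ v.ne_bot hv]
  simp

end Orth

end Pool.Agent.Work.MP_2b9663_nt.He
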