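import Pool.Agent.Work.MP_2b9663_nt.He.DefsO
import Pool.Agent.Work.MP_2b9663_nt.He.MeanK

set_option autoImplicit false

/-!
Galois conjugates of Hecke characters.
-/

namespace Pool.Agent.Work.MP_2b9663_nt

open NumberField Ideal IsDedekindDomain Filter Topology

section

variable {K : Type} [Field K] [NumberField K]

/-- the automorphism of the ring of integers -/
noncomputable def intE (σ : K ≃ₐ[ℚ] K) : 𝓞 K ≃+* 𝓞 K :=
  RingOfIntegers.mapRingEquiv (σ : K ≃+* K)

lemma conjI_eq (σ : K ≃ₐ[ℚ] K) (I : Ideal (𝓞 K)) : conjI σ I = I.map (intE σ) := rfl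

lemma intE_coe (σ : K ≃ₐ[ℚ] K) (x : 𝓞 K) : ((intE σ x : 𝓞 K) : K) = σ (x : K) := rfl

lemma conjI_mul (σ : K ≃ₐ[ℚ] K) (I J : Ideal (𝓞 K)) :
    conjI σ (I * J) = conjI σ I * conjI σ J := Ideal.map_mul _ _ _

lemma conjI_sup (σ : K ≃ₐ[ℚ] K) (I J : Ideal (𝓞 K)) :
    conjI σ (I ⊔ J) = conjI σ I ⊔ conjI σ J := Ideal.map_sup _ _ _

lemma conjI_top (σ : K ≃ₐ[ℚ] K) : conjI σ (⊤ : Ideal (𝓞 K)) = ⊤ := Ideal.map_top _

lemma conjI_symm (σ : K ≃ₐ[ℚ] K) (I : Ideal (𝓞 K)) : conjI σ.symm (conjI σ I) = I := by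
  change Ideal.map (intE σ.symm : 𝓞 K →+* 𝓞 K) (Ideal.map (intE σ : 𝓞 K →+* 𝓞 K) I) = I
  rw [Ideal.map_map]
  have h1 : ((intE σ.symm : 𝓞 K →+* 𝓞 K)).comp (intE σ : 𝓞 K →+* 𝓞 K) = RingHom.id _ := by
    ext x
    change ((intE σ.symm (intE σ x) : 𝓞 K) : K) = (x : K)
    rw [intE_coe, intE_coe, AlgEquiv.symm_apply_apply]
  rw [h1, Ideal.map_id]

lemma conjI_symm' (σ : K ≃ₐ[ℚ] K) (I : Ideal (𝓞 K)) : conjI σ (conjI σ.symm I) = I := by
  have := conjI_symm σ.symm I
  rwa [AlgEquiv.symm_symm] at this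

lemma conjI_ne_bot (σ : K ≃ₐ[ℚ] K) {I : Ideal (𝓞 K)} (h : I ≠ ⊥) : conjI σ I ≠ ⊥ := by
  intro h1
  apply h
  rw [← conjI_symm σ I, h1]
  exact Ideal.map_bot

lemma conjI_span (σ : K ≃ₐ[ℚ] K) (x : 𝓞 K) : conjI σ (span {x}) = span {intE σ x} := by
  rw [conjI_eq, Ideal.map_span, Set.image_singleton]

/-- the place `x ↦ w (σ x)` -/
noncomputable def plE (σ : K ≃ₐ[ℚ] K) : InfinitePlace K ≃ InfinitePlace K where
  toFun w := w.comap (σ : K →+* K)
  invFun w := w.comap (σ.symm : K →+* K)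
  left_inv w := by
    change (w.comap (σ : K →+* K)).comap (σ.symm : K →+* K) = w
    rw [← InfinitePlace.comap_comp]
    have : ((σ : K →+* K)).comp (σ.symm : K →+* K) = RingHom.id K := by
      ext x
      exact σ.apply_symm_apply x
    rw [this]
    rfl
  right_inv w := by
    change (w.comap (σ.symm : K →+* K)).comap (σ : K →+* K) = w
    rw [← InfinitePlace.comap_comp]
    have : ((σ.symm : K →+* K)).comp (σ : K →+* K) = RingHom.id K := by
      ext x
      exact σ.symm_apply_apply x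
    rw [this]
    rfl

open scoped Classical in
/-- the discrete component of the infinite type of the conjugate -/
noncomputable def compN (σ : K ≃ₐ[ℚ] K) (n : InfinitePlace K → ℤ) (w : InfinitePlace K) : ℤ :=
  if w.embedding = ((plE σ).symm w).embedding.comp (σ : K →+* K) then n ((plE σ).symm w)
  else -n ((plE σ).symm w)

/-- the continuous component of the infinite type of the conjugate -/
noncomputable def compT (σ : K ≃ₐ[ℚ] K) (t : InfinitePlace K → ℝ) (w : InfinitePlace K) : ℝ :=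
  t ((plE σ).symm w)

lemma infChar_comp (σ : K ≃ₐ[ℚ] K) (n : InfinitePlace K → ℤ) (t : InfinitePlace K → ℝ) {x : K}
    (hx : x ≠ 0) : infChar n t (σ x) = infChar (compN σ n) (compT σ t) x := by
  classical
  unfold infChar
  refine Fintype.prod_equiv (plE σ) _ _ fun w => ?_
  have h0 : (plE σ).symm (plE σ w) = w := Equiv.symm_apply_apply _ _
  have h1 : (plE σ w) x = w (σ x) := rfl
  have h2 : (plE σ w).embedding = w.embedding.comp (σ : K →+* K) ∨
      ComplexEmbedding.conjugate (plE σ w).embedding = w.embedding.comp (σ : K →+* K) := by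
    have h3 : plE σ w = InfinitePlace.mk (w.embedding.comp (σ : K →+* K)) := by
      change w.comap (σ : K →+* K) = _
      conv_lhs => rw [← InfinitePlace.mk_embedding w]
      rw [InfinitePlace.comap_mk]
    rw [h3]
    rcases InfinitePlace.embedding_mk_eq (w.embedding.comp (σ : K →+* K)) with h4 | h4
    · exact Or.inl h4
    · right
      rw [h4]
      exact ComplexEmbedding.involutive_conjugate K _
  unfold compN compT
  rw [h0, h1]
  congr 1
  by_cases h3 : (plE σ w).embedding = w.embedding.comp (σ : K →+* K)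
  · rw [if_pos h3, h3]
    rfl
  · rw [if_neg h3]
    rcases h2 with h2 | h2
    · exact absurd h2 h3
    have h4 : w.embedding (σ x) = (starRingEnd ℂ) ((plE σ w).embedding x) := by
      have := DFunLike.congr_fun h2 x
      exact this.symm
    have hw : w (σ x) ≠ 0 := by
      rw [Ne, map_eq_zero, map_eq_zero]
      exact hx
    set z : ℂ := (plE σ w).embedding x with hz
    have hzn : ‖z‖ = w (σ x) := by
      rw [hz, InfinitePlace.norm_embedding_eq, h1]
    rw [h4, zpow_neg, ← inv_zpow]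
    congr 1
    have hz0 : z ≠ 0 := by
      rw [← norm_ne_zero_iff, hzn]
      exact hw
    have hwc : ((w (σ x) : ℝ) : ℂ) ≠ 0 := by exact_mod_cast hw
    rw [inv_div, div_eq_div_iff hwc hz0, mul_comm, Complex.mul_conj, Complex.normSq_eq_norm_sq, hzn]
    push_cast
    ring

namespace HeckeChar

/-- the conjugate of a Hecke character -/
noncomputable def comp (ψ : HeckeChar K) (σ : K ≃ₐ[ℚ] K) : HeckeChar K where
  cond := conjI σ.symm ψ.cond
  cond_ne := conjI_ne_bot _ ψ.cond_ne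
  toFun I := ψ.toFun (conjI σ I)
  map_mul' I J := by rw [conjI_mul, ψ.map_mul']
  norm_eq I hI h := by
    refine ψ.norm_eq _ (conjI_ne_bot σ hI) ?_
    have h1 := congrArg (conjI σ) h
    rwa [conjI_sup, conjI_symm', conjI_top] at h1
  eq_zero I h := by
    refine ψ.eq_zero _ fun h1 => h ?_
    have h2 := congrArg (conjI σ.symm) h1
    rwa [conjI_sup, conjI_symm, conjI_top] at h2
  n := compN σ ψ.n
  t := compT σ ψ.t
  principal x hx h := by
    have hx' : intE σ x ≠ 0 := by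
      rw [Ne, map_eq_zero_iff _ (intE σ).injective]
      exact hx
    have h1 : intE σ x - 1 ∈ ψ.cond := by
      have h2 : intE σ (x - 1) ∈ conjI σ (conjI σ.symm ψ.cond) := by
        rw [conjI_eq]
        exact Ideal.mem_map_of_mem _ h
      rwa [conjI_symm', map_sub, map_one] at h2
    rw [conjI_span, ψ.principal _ hx' h1, intE_coe]
    exact infChar_comp σ ψ.n ψ.t (by simpa using hx)

lemma comp_cond (ψ : HeckeChar K) (σ : K ≃ₐ[ℚ] K) : (ψ.comp σ).cond = conjI σ.symm ψ.cond := rfl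

lemma comp_apply (ψ : HeckeChar K) (σ : K ≃ₐ[ℚ] K) (I : Ideal (𝓞 K)) :
    (ψ.comp σ).toFun I = ψ.toFun (conjI σ I) := rfl

end HeckeChar

/-- different conjugates are different Hecke characters -/
lemma ConjDiffer.differ {ψ φ : HeckeChar K} {σ τ : K ≃ₐ[ℚ] K} (h : ConjDiffer ψ φ σ τ) :
    (ψ.comp σ).Differ (φ.comp τ) := by
  obtain ⟨I, hI, h1, h2, h3⟩ := h
  refine ⟨I, hI, ?_, ?_, h3⟩
  · have h4 := congrArg (conjI σ.symm) h1
    rwa [conjI_sup, conjI_symm, conjI_top] at h4
  · have h4 := congrArg (conjI τ.symm) h2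
    rwa [conjI_sup, conjI_symm, conjI_top] at h4

/-- the action of an automorphism on the primes -/
noncomputable def spE (σ : K ≃ₐ[ℚ] K) : HeightOneSpectrum (𝓞 K) ≃ HeightOneSpectrum (𝓞 K) where
  toFun v := ⟨conjI σ v.asIdeal, by
    haveI := v.isPrime
    exact Ideal.map_isPrime_of_equiv (intE σ), conjI_ne_bot σ v.ne_bot⟩
  invFun v := ⟨conjI σ.symm v.asIdeal, by
    haveI := v.isPrime
    exact Ideal.map_isPrime_of_equiv (intE σ.symm), conjI_ne_bot _ v.ne_bot⟩
  left_inv v := HeightOneSpectrum.ext (conjI_symm σ _)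
  right_inv v := HeightOneSpectrum.ext (conjI_symm' σ _)

lemma spE_asIdeal (σ : K ≃ₐ[ℚ] K) (v : HeightOneSpectrum (𝓞 K)) :
    (spE σ v).asIdeal = conjI σ v.asIdeal := rfl

lemma absNorm_conjI (σ : K ≃ₐ[ℚ] K) (I : Ideal (𝓞 K)) : absNorm (conjI σ I) = absNorm I := by
  rw [absNorm_apply, absNorm_apply]
  exact (Nat.card_congr (Ideal.quotientEquiv I (conjI σ I) (intE σ) rfl).toEquiv).symm

end

namespace He

variable {K : Type} [Field K] [NumberField K]

lemma qn_spE (σ : K ≃ₐ[ℚ] K) (v : HeightOneSpectrum (𝓞 K)) : qn (spE σ v) = qn v := by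
  unfold qn
  rw [spE_asIdeal, absNorm_conjI]

/-- mean values are invariant under automorphisms -/
lemma MR_spE (σ : K ≃ₐ[ℚ] K) (c : HeightOneSpectrum (𝓞 K) → ℝ) (ε : ℝ) :
    MR (fun v => c (spE σ v)) ε = MR c ε := by
  unfold MR SR
  congr 1
  rw [← (spE σ).tsum_eq fun v => c v * qn v ^ (-(1 + ε))]
  exact tsum_congr fun v => by rw [qn_spE]

end He

end Pool.Agent.Work.MP_2b9663_nt
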