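import Pool.Agent.Work.MP_2b9663_nt.He.Basic

set_option autoImplicit false

/-!
The continuation of the `L`-series of Hecke characters.
-/

namespace Pool.Agent.Work.MP_2b9663_nt.He

open NumberField NumberField.mixedEmbedding Ideal
open scoped nonZeroDivisors

variable {K : Type} [Field K] [NumberField K] (ψ : HeckeChar K)

/-- the terms of the `L`-series -/
noncomputable def hP (s : ℂ) (I : Ideal (𝓞 K)) : ℂ := ψ I * (absNorm I : ℂ) ^ (-s)

/-- the `L`-series of a Hecke character -/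
noncomputable def LH (s : ℂ) : ℂ := ∑' I : Ideal (𝓞 K), hP ψ s I

lemma hP_mul (s : ℂ) (I J : Ideal (𝓞 K)) : hP ψ s (I * J) = hP ψ s I * hP ψ s J := by
  unfold hP
  rw [ψ.map_mul, map_mul, Nat.cast_mul, Complex.natCast_mul_natCast_cpow]
  ring

lemma hP_bot {s : ℂ} (hs : s ≠ 0) : hP ψ s ⊥ = 0 := by
  simp [hP, Ideal.absNorm_bot, Complex.zero_cpow (neg_ne_zero.mpr hs)]

lemma hP_top (s : ℂ) : hP ψ s ⊤ = 1 := by
  simp [hP, ψ.map_top]

lemma norm_hP_le {s : ℂ} (hs : s.re ≠ 0) (I : Ideal (𝓞 K)) :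
    ‖hP ψ s I‖ ≤ (absNorm I : ℝ) ^ (-s.re) := by
  by_cases hI : I = ⊥
  · subst hI
    rw [hP_bot ψ (by rintro rfl; exact hs rfl), norm_zero]
    exact Real.rpow_nonneg (Nat.cast_nonneg _) _
  · unfold hP
    rw [norm_mul]
    have h2 : ‖(absNorm I : ℂ) ^ (-s)‖ = (absNorm I : ℝ) ^ (-s.re) := by
      rw [Complex.norm_natCast_cpow_of_re_ne_zero _ (by simpa using hs)]
      simp
    rw [h2]
    exact mul_le_of_le_one_left (Real.rpow_nonneg (Nat.cast_nonneg _) _) (ψ.norm_le_one hI)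

lemma hP_summable {s : ℂ} (hs : 1 < s.re) : Summable (fun I => ‖hP ψ s I‖) :=
  Summable.of_nonneg_of_le (fun _ => norm_nonneg _) (norm_hP_le ψ (by linarith))
    (rpow_absNorm_summable K hs)

open scoped Classical in
lemma SS_eq (s : ℂ) (J : Ideal (𝓞 K)) : SS (hP ψ s) J =
    ∑' x : 𝓞 K, (if x ∈ J then ψ.fin x else 0) * HX ψ.n ψ.t s x := by
  unfold SS
  refine tsum_congr fun x => ?_
  by_cases hx : x = 0
  · subst hx
    rw [HX_zero, swt_zero]
    simp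
  · split_ifs
    · unfold HX HH hP
      rw [← ψ.fin_mul_infChar hx, infU_mixed, Ideal.absNorm_span_singleton]
      have h1 : (((Algebra.norm ℤ x).natAbs : ℕ) : ℂ) =
          ((mixedEmbedding.norm (mixedEmbedding K (x : K)) : ℝ) : ℂ) := by
        rw [← Lip.nrm_eq]
        rfl
      rw [h1, swt]
      ring
    · simp

lemma coprime_mul {M a J : Ideal (𝓞 K)} (ha : a ⊔ M = ⊤) (hJ : J ⊔ M = ⊤) : a * J ⊔ M = ⊤ := by
  rw [← Ideal.isCoprime_iff_sup_eq] at ha hJ ⊢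
  exact IsCoprime.mul_left ha hJ

theorem SS_mul (a J : Ideal (𝓞 K)) (ha : a ⊔ ψ.cond = ⊤) (hJ : J ⊔ ψ.cond = ⊤) (hJ0 : J ≠ ⊥)
    (ha0 : a ≠ ⊥) :
    ∃ g : ℂ → ℂ, DifferentiableOn ℂ g {s | 0 < s.re} ∧
      ∀ s : ℂ, 1 < s.re → SS (hP ψ s) (a * J) = SS (hP ψ s) J / (absNorm a : ℂ) + g s := by
  classical
  set M : Ideal (𝓞 K) := ψ.cond with hM
  have hM0 : M ≠ ⊥ := ψ.cond_ne
  set A : Ideal (𝓞 K) := M * (a * J) with hA
  have haJ0 : a * J ≠ ⊥ := mul_ne_zero ha0 hJ0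
  have hA0 : A ≠ ⊥ := mul_ne_zero hM0 haJ0
  have hAM : A ≤ M := Ideal.mul_le_left
  have hAaJ : A ≤ a * J := Ideal.mul_le_right
  have haJJ : a * J ≤ J := Ideal.mul_le_right
  have hAJ : A ≤ J := hAaJ.trans haJJ
  have hper : ∀ x, ∀ y ∈ M, ψ.fin (x + y) = ψ.fin x := fun x y hy => ψ.fin_periodic x hy
  have h1 := mn_ideal hA0 hAJ hAM (by rw [sup_comm]; exact hJ) hper
  have h2 := mn_ideal hA0 hAaJ hAM (by rw [sup_comm]; exact coprime_mul ha hJ) hper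
  have ha1 : (absNorm a : ℂ) ≠ 0 := by
    rw [Nat.cast_ne_zero, Ne, Ideal.absNorm_eq_zero_iff]
    exact ha0
  have hJ1 : (absNorm J : ℂ) ≠ 0 := by
    rw [Nat.cast_ne_zero, Ne, Ideal.absNorm_eq_zero_iff]
    exact hJ0
  set k : 𝓞 K → ℂ := fun x => (absNorm a : ℂ)⁻¹ * (if x ∈ J then ψ.fin x else 0) -
    (if x ∈ a * J then ψ.fin x else 0) with hk
  have hk0 : mn A k = 0 := by
    rw [hk, mn_sub hA0, mn_mul hA0]
    rw [← h1, map_mul] at h2
    push_cast at h2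
    have h3 : (absNorm J : ℂ) * ((absNorm a : ℂ) * mn A (fun x => if x ∈ a * J then ψ.fin x else 0)) =
        (absNorm J : ℂ) * mn A (fun x => if x ∈ J then ψ.fin x else 0) := by
      rw [← h2]; ring
    have h4 := mul_left_cancel₀ hJ1 h3
    rw [← h4]
    field_simp
    ring
  have hkper : ∀ x, ∀ y ∈ A, k (x + y) = k x := fun x y hy => by
    have e1 : x + y ∈ J ↔ x ∈ J := (Ideal.add_mem_iff_left J (hAJ hy))
    have e2 : x + y ∈ a * J ↔ x ∈ a * J := (Ideal.add_mem_iff_left (a * J) (hAaJ hy))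
    simp only [hk, e1, e2, hper x y (hAM hy)]
  obtain ⟨g, hg, hgs⟩ := translation_all ψ.n ψ.t A hA0 k hkper hk0
  refine ⟨fun s => -g s, hg.neg, fun s hs => ?_⟩
  have hF := HX_summable ψ.n ψ.t hs
  have hsum : ∀ I : Ideal (𝓞 K), Summable fun x : 𝓞 K =>
      (if x ∈ I then ψ.fin x else 0) * HX ψ.n ψ.t s x :=
    fun I => by
      refine Summable.of_norm_bounded hF.norm fun x => ?_
      rw [norm_mul]
      refine mul_le_of_le_one_left (norm_nonneg _) ?_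
      split_ifs
      · exact ψ.norm_fin_le x
      · simp
  beta_reduce
  rw [hgs s hs, SS_eq ψ, SS_eq ψ]
  have h5 : ∑' x : 𝓞 K, k x * HX ψ.n ψ.t s x =
      (absNorm a : ℂ)⁻¹ * ∑' x : 𝓞 K, (if x ∈ J then ψ.fin x else 0) * HX ψ.n ψ.t s x -
        ∑' x : 𝓞 K, (if x ∈ a * J then ψ.fin x else 0) * HX ψ.n ψ.t s x := by
    rw [← tsum_mul_left, ← ((hsum J).mul_left _).tsum_sub (hsum (a * J))]
    refine tsum_congr fun x => ?_
    simp only [hk]
    ring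
  rw [h5]
  ring

/-- **Continuation** of `(ψ(a) N(a)^(1-s) - 1) L(s, ψ)` to `Re s > 0`. -/
theorem LH_continuation (a : Ideal (𝓞 K)) (ha0 : a ≠ ⊥) (ha : a ⊔ ψ.cond = ⊤) :
    ∃ g : ℂ → ℂ, DifferentiableOn ℂ g {s | 0 < s.re} ∧ ∀ s : ℂ, 1 < s.re →
      (ψ a * (absNorm a : ℂ) ^ (1 - s) - 1) * LH ψ s = g s := by
  choose J hJ hJm using fun C : ClassGroup (𝓞 K) => exists_ideal_sup_eq_top ψ.cond ψ.cond_ne C⁻¹
  have hJm' : ∀ C, (J C : Ideal (𝓞 K)) ⊔ ψ.cond = ⊤ := fun C => by rw [sup_comm]; exact hJm C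
  have hJ0 : ∀ C, (J C : Ideal (𝓞 K)) ≠ ⊥ := fun C => nonZeroDivisors.coe_ne_zero _
  choose g hg hgs using fun C : ClassGroup (𝓞 K) => SS_mul ψ a (J C) ha (hJm' C) (hJ0 C) ha0
  have hN : ∀ C, (absNorm (J C : Ideal (𝓞 K)) : ℂ) ≠ 0 := fun C => by
    rw [Nat.cast_ne_zero, Ne, Ideal.absNorm_eq_zero_iff]
    exact hJ0 C
  have ha1 : (absNorm a : ℂ) ≠ 0 := by
    rw [Nat.cast_ne_zero, Ne, Ideal.absNorm_eq_zero_iff]
    exact ha0
  refine ⟨fun s => (absNorm a : ℂ) * ∑ C, (hP ψ s (J C))⁻¹ * g C s, ?_, fun s hs => ?_⟩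
  · refine DifferentiableOn.const_mul (DifferentiableOn.fun_sum fun C _ => ?_) _
    refine DifferentiableOn.mul ?_ (hg C)
    have h1 : ∀ s : ℂ, (hP ψ s (J C))⁻¹ =
        (ψ (J C : Ideal (𝓞 K)))⁻¹ * (absNorm (J C : Ideal (𝓞 K)) : ℂ) ^ s := fun s => by
      unfold hP
      rw [mul_inv, Complex.cpow_neg, inv_inv]
    simp only [h1]
    refine DifferentiableOn.const_mul ?_ _
    intro s _
    exact (differentiableAt_id.const_cpow (Or.inl (hN C))).differentiableWithinAt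
  · have hs0 : s ≠ 0 := by
      rintro rfl
      simp at hs
      linarith
    have hne : ∀ C, hP ψ s (J C : Ideal (𝓞 K)) ≠ 0 := fun C => by
      unfold hP
      refine mul_ne_zero (ψ.ne_zero (hJ0 C) (hJm' C)) ?_
      rw [Complex.cpow_ne_zero_iff]
      exact Or.inl (hN C)
    have h1 := classes' (hP_summable ψ hs) (hP_mul ψ s) (hP_bot ψ hs0) J hJ hne a ha0
    have h2 := classes' (hP_summable ψ hs) (hP_mul ψ s) (hP_bot ψ hs0) J hJ hne ⊤ top_ne_bot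
    simp only [hP_top, one_mul, Ideal.top_mul] at h2
    change _ * LH ψ s = _ at h1
    change LH ψ s = _ at h2
    have h4 : ∑ C, (hP ψ s (J C))⁻¹ * SS (hP ψ s) (a * J C) =
        (∑ C, (hP ψ s (J C))⁻¹ * SS (hP ψ s) (J C)) / absNorm a +
        ∑ C, (hP ψ s (J C))⁻¹ * g C s := by
      rw [Finset.sum_div, ← Finset.sum_add_distrib]
      refine Finset.sum_congr rfl fun C _ => ?_
      rw [hgs C s hs]
      ring
    rw [h4, ← h2] at h1
    have h3 : (absNorm a : ℂ) ^ (1 - s) = absNorm a * (absNorm a : ℂ) ^ (-s) := by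
      rw [sub_eq_add_neg, Complex.cpow_add _ _ ha1, Complex.cpow_one]
    have h5 : (ψ a * (absNorm a : ℂ) ^ (1 - s) - 1) * LH ψ s =
        absNorm a * (hP ψ s a * LH ψ s) - LH ψ s := by
      rw [h3, hP]; ring
    beta_reduce
    rw [h5, h1]
    field_simp
    ring

end Pool.Agent.Work.MP_2b9663_nt.He
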