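import Mathlib

set_option autoImplicit false

/-!
Unitary Hecke characters of number fields.
-/

namespace Pool.Agent.Work.MP_2b9663_nt

open NumberField

/-- The character of `K ^ ×` of infinite type `(n, t)`: the product over the infinite places `w` of
`(x_w / |x_w|) ^ (n w) * |x_w| ^ (i t w)`, where `x_w` is the image of `x` under the embedding of
`K` in `ℂ` attached to `w`. -/
noncomputable def infChar {K : Type} [Field K] [NumberField K] (n : InfinitePlace K → ℤ)
    (t : InfinitePlace K → ℝ) (x : K) : ℂ :=
  ∏ w : InfinitePlace K, (w.embedding x / ((w x : ℝ) : ℂ)) ^ n w *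
    ((w x : ℝ) : ℂ) ^ ((t w : ℂ) * Complex.I)

/-- The unitary Hecke characters of the number field `K`, regarded as functions on the ideals of
its ring of integers: multiplicative functions of absolute value one on the ideals prime to a
nonzero ideal `cond` and zero on the others, which agree with a character of some infinite type
`(n, t)` on the principal ideals `(x)`, `x` congruent to `1` modulo `cond`. -/
structure HeckeChar (K : Type) [Field K] [NumberField K] where
  /-- the modulus of definition -/
  cond : Ideal (𝓞 K)
  /-- the modulus is not zero -/
  cond_ne : cond ≠ ⊥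
  /-- the values -/
  toFun : Ideal (𝓞 K) → ℂ
  /-- multiplicativity -/
  map_mul' : ∀ I J, toFun (I * J) = toFun I * toFun J
  /-- the absolute value is one on the nonzero ideals prime to the modulus -/
  norm_eq : ∀ I, I ≠ ⊥ → I ⊔ cond = ⊤ → ‖toFun I‖ = 1
  /-- the values at the other ideals vanish -/
  eq_zero : ∀ I, I ⊔ cond ≠ ⊤ → toFun I = 0
  /-- the infinite type, discrete component -/
  n : InfinitePlace K → ℤ
  /-- the infinite type, continuous component -/
  t : InfinitePlace K → ℝ
  /-- the values at principal ideals -/
  principal : ∀ x : 𝓞 K, x ≠ 0 → x - 1 ∈ cond → toFun (Ideal.span {x}) = infChar n t (x : K)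

end Pool.Agent.Work.MP_2b9663_nt
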