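import Mathlib

set_option autoImplicit false

/-!
Iterated averaged differences of smooth functions.
-/

namespace Pool.Agent.Work.MP_2b9663_nt.He

open Metric

section Def

variable {A B F ι : Type} [AddCommGroup A] [AddCommGroup B] [AddCommGroup F] [Fintype ι]

/-- the sum of the differences with the translates by the vectors `g i` -/
def Pd (g : ι → A) (f : A → F) (x : A) : F := ∑ i, (f x - f (x + g i))

lemma Pd_comp (φ : A →+ B) (g : ι → A) (f : B → F) (x : A) :
    Pd g (fun y => f (φ y)) x = Pd (fun i => φ (g i)) f (φ x) := by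
  unfold Pd
  simp only [map_add]

lemma Pd_iterate_comp (φ : A →+ B) (g : ι → A) (f : B → F) (k : ℕ) (x : A) :
    (Pd g)^[k] (fun y => f (φ y)) x = (Pd fun i => φ (g i))^[k] f (φ x) := by
  induction k generalizing x with
  | zero => rfl
  | succ k ih =>
    rw [Function.iterate_succ_apply', Function.iterate_succ_apply']
    have : (Pd g)^[k] (fun y => f (φ y)) = fun y => (Pd fun i => φ (g i))^[k] f (φ y) :=
      funext ih
    rw [this, Pd_comp]

/-- on a ball the iterated difference depends only on the values on a larger ball -/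
lemma Pd_norm_le_of_bound {F : Type} [NormedAddCommGroup F] {A : Type} [AddCommGroup A]
    (g : ι → A) (S : Set A) (hS : ∀ x ∈ S, ∀ i, x + g i ∈ S) (f : A → F) (C : ℝ)
    (hf : ∀ x ∈ S, ‖f x‖ ≤ C) (k : ℕ) :
    ∀ x ∈ S, ‖(Pd g)^[k] f x‖ ≤ (2 * Fintype.card ι) ^ k * C := by
  induction k with
  | zero => intro x hx; simpa using hf x hx
  | succ k ih =>
    intro x hx
    rw [Function.iterate_succ_apply']
    unfold Pd
    refine (norm_sum_le _ _).trans ?_
    calc ∑ i, ‖(Pd g)^[k] f x - (Pd g)^[k] f (x + g i)‖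
        ≤ ∑ _i : ι, 2 * ((2 * (Fintype.card ι : ℝ)) ^ k * C) := by
          refine Finset.sum_le_sum fun i _ => (norm_sub_le _ _).trans ?_
          have h1 := ih x hx
          have h2 := ih (x + g i) (hS x hx i)
          linarith
      _ = (2 * (Fintype.card ι : ℝ)) ^ (k + 1) * C := by
          rw [Finset.sum_const, Finset.card_univ, nsmul_eq_mul, pow_succ]
          ring

end Def

section Smooth

variable {E : Type} [NormedAddCommGroup E] [NormedSpace ℝ E] {ι : Type} [Fintype ι]

lemma Pd_hasFDerivAt {F : Type} [NormedAddCommGroup F] [NormedSpace ℝ F] {g : ι → E} {M : ℝ}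
    (hg : ∀ i, ‖g i‖ ≤ M) {f : E → F} {f' : E → E →L[ℝ] F} {z₀ : E} (k : ℕ) {r : ℝ}
    (hf : ∀ z ∈ closedBall z₀ (r + k * M), HasFDerivAt f (f' z) z) :
    ∀ z ∈ closedBall z₀ r, HasFDerivAt ((Pd g)^[k] f) ((Pd g)^[k] f' z) z := by
  induction k generalizing r with
  | zero => intro z hz; simpa using hf z (by simpa using hz)
  | succ k ih =>
    intro z hz
    rw [Function.iterate_succ_apply', Function.iterate_succ_apply']
    have hM : (Nonempty ι) → 0 ≤ M := fun ⟨i⟩ => (norm_nonneg _).trans (hg i)
    unfold Pd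
    have key : ∀ i, HasFDerivAt (fun x => (Pd g)^[k] f x - (Pd g)^[k] f (x + g i))
        ((Pd g)^[k] f' z - (Pd g)^[k] f' (z + g i)) z := by
      intro i
      have hM0 := hM ⟨i⟩
      have h1 : ∀ z ∈ closedBall z₀ (r + M), HasFDerivAt ((Pd g)^[k] f) ((Pd g)^[k] f' z) z := by
        refine ih (r := r + M) fun z hz => hf z ?_
        have : r + M + k * M = r + (k + 1 : ℕ) * M := by push_cast; ring
        rwa [← this]
      have h2 : HasFDerivAt (fun x => (Pd g)^[k] f (x + g i)) ((Pd g)^[k] f' (z + g i)) z := by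
        have h3 := h1 (z + g i) (by
          rw [mem_closedBall, dist_eq_norm] at hz ⊢
          calc ‖z + g i - z₀‖ = ‖(z - z₀) + g i‖ := by congr 1; abel
            _ ≤ ‖z - z₀‖ + ‖g i‖ := norm_add_le _ _
            _ ≤ r + M := add_le_add hz (hg i))
        exact (hasFDerivAt_comp_add_right (g i)).mpr h3
      exact (h1 z (closedBall_subset_closedBall (by linarith) hz)).sub h2
    have h4 := HasFDerivAt.fun_sum (u := Finset.univ) fun i (_ : i ∈ Finset.univ) => key i
    exact h4

/-- **The iterated difference is bounded by the derivative of order `k`.** -/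
theorem Pd_bound (k : ℕ) : ∀ {F : Type} [NormedAddCommGroup F] [NormedSpace ℝ F] {g : ι → E} {M : ℝ}
    (_ : ∀ i, ‖g i‖ ≤ M) {f : E → F} {z₀ : E} {r C : ℝ}
    (_ : ∀ z ∈ closedBall z₀ (r + k * M), ContDiffAt ℝ k f z)
    (_ : ∀ z ∈ closedBall z₀ (r + k * M), ‖iteratedFDeriv ℝ k f z‖ ≤ C),
    ∀ z ∈ closedBall z₀ r, ‖(Pd g)^[k] f z‖ ≤ (Fintype.card ι * M) ^ k * C := by
  induction k with
  | zero =>
    intro F _ _ g M hg f z₀ r C hf hC z hz
    have := hC z (by simpa using hz)
    simpa using this
  | succ k ih =>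
    intro F _ _ g M hg f z₀ r C hf hC z hz
    rw [Function.iterate_succ_apply']
    unfold Pd
    refine (norm_sum_le _ _).trans ?_
    have hrad : ∀ M' : ℝ, M' = M → r + M + k * M' = r + (k + 1 : ℕ) * M := fun M' h => by
      rw [h]; push_cast; ring
    have key : ∀ i, ‖(Pd g)^[k] f z - (Pd g)^[k] f (z + g i)‖ ≤
        (Fintype.card ι * M) ^ k * C * M := by
      intro i
      have hM0 : 0 ≤ M := (norm_nonneg _).trans (hg i)
      have h1 : ∀ w ∈ closedBall z₀ (r + M),
          HasFDerivAt ((Pd g)^[k] f) ((Pd g)^[k] (fderiv ℝ f) w) w := by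
        refine Pd_hasFDerivAt hg k fun w hw => ?_
        rw [hrad M rfl] at hw
        have h2 : DifferentiableAt ℝ f w := (hf w hw).differentiableAt (by
          exact_mod_cast Nat.succ_ne_zero k)
        exact h2.hasFDerivAt
      have h2 : ∀ w ∈ closedBall z₀ (r + M), ‖(Pd g)^[k] (fderiv ℝ f) w‖ ≤
          (Fintype.card ι * M) ^ k * C := by
        refine ih (F := E →L[ℝ] F) hg ?_ ?_
        · intro w hw
          rw [hrad M rfl] at hw
          exact (hf w hw).fderiv_right (by norm_cast)
        · intro w hw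
          rw [hrad M rfl] at hw
          rw [norm_iteratedFDeriv_fderiv]
          exact hC w hw
      have hz1 : z ∈ closedBall z₀ (r + M) := closedBall_subset_closedBall (by linarith) hz
      have hz2 : z + g i ∈ closedBall z₀ (r + M) := by
        rw [mem_closedBall, dist_eq_norm] at hz ⊢
        calc ‖z + g i - z₀‖ = ‖(z - z₀) + g i‖ := by congr 1; abel
          _ ≤ ‖z - z₀‖ + ‖g i‖ := norm_add_le _ _
          _ ≤ r + M := add_le_add hz (hg i)
      have h3 := (convex_closedBall z₀ (r + M)).norm_image_sub_le_of_norm_hasFDerivWithin_le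
        (fun w hw => (h1 w hw).hasFDerivWithinAt) h2 hz2 hz1
      have h4 : ‖z - (z + g i)‖ ≤ M := by
        rw [sub_add_cancel_left, norm_neg]
        exact hg i
      have h5 : 0 ≤ (Fintype.card ι * M) ^ k * C := (norm_nonneg _).trans (h2 z hz1)
      exact h3.trans (mul_le_mul_of_nonneg_left h4 h5)
    calc ∑ i, ‖(Pd g)^[k] f z - (Pd g)^[k] f (z + g i)‖
        ≤ ∑ _i : ι, (Fintype.card ι * M) ^ k * C * M := Finset.sum_le_sum fun i _ => key i
      _ = (Fintype.card ι * M) ^ (k + 1) * C := by
          rw [Finset.sum_const, Finset.card_univ, nsmul_eq_mul, pow_succ]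
          ring

end Smooth

end Pool.Agent.Work.MP_2b9663_nt.He
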