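import Pool.Agent.Work.MP_2b9663_nt.He.Cont
import Pool.Agent.Work.MP_2b9663_nt.Ch.EulerLog

set_option autoImplicit false

/-!
The Euler product of the `L`-series of Hecke characters.
-/

namespace Pool.Agent.Work.MP_2b9663_nt.He

open NumberField NumberField.mixedEmbedding Ideal Filter Topology IsDedekindDomain
open scoped nonZeroDivisors

variable {K : Type} [Field K] [NumberField K]

section General

variable {h : Ideal (𝓞 K) → ℂ}

open scoped Classical in
/-- the sum over the ideals which are not divisible by the primes in `S` -/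
noncomputable def LS (h : Ideal (𝓞 K) → ℂ) (S : Finset (HeightOneSpectrum (𝓞 K))) : ℂ :=
  ∑' I : Ideal (𝓞 K), if ∀ v ∈ S, ¬ v.asIdeal ∣ I then h I else 0

lemma LS_summable (hs : Summable fun I => ‖h I‖) (p : Ideal (𝓞 K) → Prop) [DecidablePred p] :
    Summable fun I => if p I then h I else 0 := by
  refine Summable.of_norm_bounded hs fun I => ?_
  split_ifs
  · exact le_rfl
  · rw [norm_zero]
    exact norm_nonneg _

lemma LS_insert (hs : Summable fun I => ‖h I‖) (hmul : ∀ I J, h (I * J) = h I * h J)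
    {S : Finset (HeightOneSpectrum (𝓞 K))} {v : HeightOneSpectrum (𝓞 K)} (hv : v ∉ S) :
    open scoped Classical in LS h (insert v S) = (1 - h v.asIdeal) * LS h S := by
  classical
  have h1 : h v.asIdeal * LS h S = ∑' J : Ideal (𝓞 K),
      if v.asIdeal ∣ J ∧ ∀ u ∈ S, ¬ u.asIdeal ∣ J then h J else 0 := by
    have hinj : Function.Injective fun I : Ideal (𝓞 K) => v.asIdeal * I := fun I I' hI =>
      mul_left_cancel₀ v.ne_bot hI
    rw [← hinj.tsum_eq (f := fun J : Ideal (𝓞 K) =>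
      if v.asIdeal ∣ J ∧ ∀ u ∈ S, ¬ u.asIdeal ∣ J then h J else 0)]
    · rw [LS, ← tsum_mul_left]
      refine tsum_congr fun I => ?_
      have h2 : (v.asIdeal ∣ v.asIdeal * I ∧ ∀ u ∈ S, ¬ u.asIdeal ∣ v.asIdeal * I) ↔
          ∀ u ∈ S, ¬ u.asIdeal ∣ I := by
        constructor
        · rintro ⟨-, h3⟩ u hu hdvd
          exact h3 u hu (dvd_mul_of_dvd_right hdvd _)
        · intro h3
          refine ⟨dvd_mul_right _ _, fun u hu hdvd => ?_⟩
          rcases u.prime.dvd_or_dvd hdvd with h4 | h4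
          · have h5 : v.asIdeal ≤ u.asIdeal := Ideal.dvd_iff_le.1 h4
            have h6 := (v.isMaximal).eq_of_le u.isMaximal.ne_top h5
            exact hv ((HeightOneSpectrum.ext h6) ▸ hu)
          · exact h3 u hu h4
      simp only [h2, hmul]
      split_ifs
      · rfl
      · rw [mul_zero]
    · intro J hJ
      have h3 : v.asIdeal ∣ J := by
        by_contra hc
        apply hJ
        simp only [hc, false_and, if_false]
      obtain ⟨I, rfl⟩ := h3
      exact ⟨I, rfl⟩
  rw [sub_mul, one_mul, h1, LS, LS, ← Summable.tsum_sub (LS_summable hs _) (LS_summable hs _)]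
  refine tsum_congr fun J => ?_
  by_cases h2 : v.asIdeal ∣ J
  · by_cases h3 : ∀ u ∈ S, ¬ u.asIdeal ∣ J
    · rw [if_neg, if_pos h3, if_pos ⟨h2, h3⟩, sub_self]
      intro h4
      exact h4 v (Finset.mem_insert_self v S) h2
    · rw [if_neg, if_neg h3, if_neg (fun h4 => h3 h4.2), sub_zero]
      intro h4
      exact h4 v (Finset.mem_insert_self v S) h2
  · have h3 : (∀ u ∈ insert v S, ¬ u.asIdeal ∣ J) ↔ ∀ u ∈ S, ¬ u.asIdeal ∣ J := by
      rw [Finset.forall_mem_insert]
      exact ⟨fun h4 => h4.2, fun h4 => ⟨h2, h4⟩⟩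
    simp only [h3, h2, false_and, if_false, sub_zero]

lemma LS_eq (hs : Summable fun I => ‖h I‖) (hmul : ∀ I J, h (I * J) = h I * h J)
    (S : Finset (HeightOneSpectrum (𝓞 K))) :
    LS h S = (∏ v ∈ S, (1 - h v.asIdeal)) * ∑' I, h I := by
  classical
  induction S using Finset.induction_on with
  | empty => simp [LS]
  | insert v S hv ih =>
    rw [LS_insert hs hmul hv, ih, Finset.prod_insert hv, mul_assoc]

lemma LS_tendsto (hs : Summable fun I => ‖h I‖) (hbot : h ⊥ = 0) (htop : h ⊤ = 1) :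
    Tendsto (LS h) atTop (𝓝 1) := by
  classical
  have h1 : ∑' I : Ideal (𝓞 K), (if I = ⊤ then h I else 0) = 1 := by
    rw [tsum_eq_single ⊤ (fun I hI => if_neg hI), if_pos rfl, htop]
  rw [← h1]
  unfold LS
  refine tendsto_tsum_of_dominated_convergence hs (fun I => ?_) (Eventually.of_forall fun S I => ?_)
  · by_cases hI : I = ⊤
    · subst hI
      refine Tendsto.congr (f₁ := fun _ => h ⊤) (fun S => ?_) (by simp)
      rw [if_pos]
      intro v _ hdvd
      exact v.isPrime.ne_top (top_le_iff.1 (Ideal.dvd_iff_le.1 hdvd))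
    · rw [if_neg hI]
      by_cases hb : I = ⊥
      · subst hb
        simp [hbot]
      · obtain ⟨P, hP, hIP⟩ := Ideal.exists_le_maximal I hI
        have hPb : P ≠ ⊥ := fun h0 => hb (le_bot_iff.1 (h0 ▸ hIP))
        let v : HeightOneSpectrum (𝓞 K) := ⟨P, hP.isPrime, hPb⟩
        refine tendsto_const_nhds.congr' ?_
        filter_upwards [eventually_ge_atTop {v}] with S hS
        rw [if_neg]
        intro h2
        exact h2 v (hS (Finset.mem_singleton_self v)) (Ideal.dvd_iff_le.2 hIP)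
  · split_ifs
    · exact le_rfl
    · rw [norm_zero]
      exact norm_nonneg _

lemma primes_summable (hs : Summable fun I => ‖h I‖) :
    Summable fun v : HeightOneSpectrum (𝓞 K) => ‖h v.asIdeal‖ :=
  hs.comp_injective (i := fun v : HeightOneSpectrum (𝓞 K) => v.asIdeal)
    fun _ _ h => HeightOneSpectrum.ext h

lemma log_summable (hs : Summable fun I => ‖h I‖) :
    Summable fun v : HeightOneSpectrum (𝓞 K) => Complex.log (1 - h v.asIdeal) := by
  have h1 : Summable fun v : HeightOneSpectrum (𝓞 K) => -h v.asIdeal :=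
    (primes_summable hs).of_norm.neg
  have h2 := Complex.summable_log_one_add_of_summable h1
  simpa only [← sub_eq_add_neg] using h2

/-- **The Euler product.** -/
theorem euler (hs : Summable fun I => ‖h I‖) (hmul : ∀ I J, h (I * J) = h I * h J)
    (hbot : h ⊥ = 0) (htop : h ⊤ = 1) (hhalf : ∀ v : HeightOneSpectrum (𝓞 K), ‖h v.asIdeal‖ ≤ 1 / 2) :
    ∑' I, h I =
      Complex.exp (-∑' v : HeightOneSpectrum (𝓞 K), Complex.log (1 - h v.asIdeal)) := by
  have hne : ∀ v : HeightOneSpectrum (𝓞 K), 1 - h v.asIdeal ≠ 0 := by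
    intro v h0
    have h1 : h v.asIdeal = 1 := by linear_combination -h0
    have h2 := hhalf v
    rw [h1, norm_one] at h2
    norm_num at h2
  have h1 : Tendsto (fun S : Finset (HeightOneSpectrum (𝓞 K)) =>
      ∏ v ∈ S, (1 - h v.asIdeal)) atTop
      (𝓝 (Complex.exp (∑' v : HeightOneSpectrum (𝓞 K), Complex.log (1 - h v.asIdeal)))) := by
    have h2 := (Complex.continuous_exp.tendsto _).comp (log_summable hs).hasSum
    refine h2.congr fun S => ?_
    rw [Function.comp_apply, Complex.exp_sum]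
    exact Finset.prod_congr rfl fun v _ => Complex.exp_log (hne v)
  have h2 := (h1.mul_const (∑' I, h I)).congr fun S => (LS_eq hs hmul S).symm
  have h3 := tendsto_nhds_unique h2 (LS_tendsto hs hbot htop)
  rw [Complex.exp_neg]
  exact eq_inv_of_mul_eq_one_right h3

end General

variable (ψ : HeckeChar K)

/-- the norm of a prime -/
noncomputable def qn (v : HeightOneSpectrum (𝓞 K)) : ℝ := (absNorm v.asIdeal : ℝ)

lemma two_le_qn (v : HeightOneSpectrum (𝓞 K)) : 2 ≤ qn v := by
  unfold qn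
  have h1 : absNorm v.asIdeal ≠ 0 := by
    rw [Ne, Ideal.absNorm_eq_zero_iff]
    exact v.ne_bot
  have h2 : absNorm v.asIdeal ≠ 1 := by
    rw [Ne, Ideal.absNorm_eq_one_iff]
    exact v.isPrime.ne_top
  have : 2 ≤ absNorm v.asIdeal := by omega
  exact_mod_cast this

lemma qn_pos (v : HeightOneSpectrum (𝓞 K)) : 0 < qn v := by
  linarith [two_le_qn v]

lemma qn_summable {σ : ℝ} (hσ : 1 < σ) :
    Summable fun v : HeightOneSpectrum (𝓞 K) => qn v ^ (-σ) :=
  (rpow_absNorm_summable K hσ).comp_injective (i := fun v : HeightOneSpectrum (𝓞 K) => v.asIdeal)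
    fun _ _ h => HeightOneSpectrum.ext h

/-- the sum over the primes -/
noncomputable def TP (s : ℂ) : ℂ := ∑' v : HeightOneSpectrum (𝓞 K), hP ψ s v.asIdeal

lemma norm_hP_prime {s : ℂ} (hs : 0 < s.re) (v : HeightOneSpectrum (𝓞 K)) :
    ‖hP ψ s v.asIdeal‖ ≤ qn v ^ (-s.re) := norm_hP_le ψ hs.ne' _

lemma hP_half {s : ℂ} (hs : 1 < s.re) (v : HeightOneSpectrum (𝓞 K)) :
    ‖hP ψ s v.asIdeal‖ ≤ 1 / 2 := by
  refine (norm_hP_prime ψ (by linarith) v).trans ?_
  have h1 : qn v ^ (-s.re) ≤ qn v ^ (-1 : ℝ) :=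
    Real.rpow_le_rpow_of_exponent_le (by linarith [two_le_qn v]) (by linarith)
  refine h1.trans ?_
  rw [Real.rpow_neg_one, one_div]
  exact inv_anti₀ two_pos (two_le_qn v)

/-- the constant -/
noncomputable def PK (K : Type) [Field K] [NumberField K] : ℝ :=
  ∑' v : HeightOneSpectrum (𝓞 K), qn v ^ (-2 : ℝ)

/-- the logarithm of the `L`-series -/
noncomputable def lL (s : ℂ) : ℂ :=
  -∑' v : HeightOneSpectrum (𝓞 K), Complex.log (1 - hP ψ s v.asIdeal)

theorem LH_eq_exp {s : ℂ} (hs : 1 < s.re) : LH ψ s = Complex.exp (lL ψ s) :=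
  euler (hP_summable ψ hs) (hP_mul ψ s) (hP_bot ψ (by rintro rfl; simp at hs; linarith))
    (hP_top ψ s) (hP_half ψ hs)

lemma LH_ne_zero {s : ℂ} (hs : 1 < s.re) : LH ψ s ≠ 0 := by
  rw [LH_eq_exp ψ hs]
  exact Complex.exp_ne_zero _

theorem lL_sub {s : ℂ} (hs : 1 < s.re) : ‖lL ψ s - TP ψ s‖ ≤ PK K := by
  have hsum := hP_summable ψ hs
  have h1 : lL ψ s - TP ψ s = ∑' v : HeightOneSpectrum (𝓞 K),
      -(Complex.log (1 - hP ψ s v.asIdeal) + hP ψ s v.asIdeal) := by
    rw [lL, TP, tsum_neg, (log_summable hsum).tsum_add (primes_summable hsum).of_norm]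
    ring
  rw [h1, PK]
  have h2 : Summable fun v : HeightOneSpectrum (𝓞 K) => qn v ^ (-2 : ℝ) :=
    qn_summable one_lt_two
  refine tsum_of_norm_bounded h2.hasSum fun v => ?_
  rw [norm_neg]
  have h3 := EL.norm_log_sub (z := -hP ψ s v.asIdeal) (by rw [norm_neg]; exact hP_half ψ hs v)
  rw [← sub_eq_add_neg, sub_neg_eq_add, norm_neg] at h3
  refine h3.trans ?_
  have h4 : ‖hP ψ s v.asIdeal‖ ≤ qn v ^ (-1 : ℝ) :=
    (norm_hP_prime ψ (by linarith) v).trans
      (Real.rpow_le_rpow_of_exponent_le (by linarith [two_le_qn v]) (by linarith))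
  calc ‖hP ψ s v.asIdeal‖ ^ 2 ≤ (qn v ^ (-1 : ℝ)) ^ 2 := pow_le_pow_left₀ (norm_nonneg _) h4 2
    _ = qn v ^ (-2 : ℝ) := by
        rw [← Real.rpow_natCast, ← Real.rpow_mul (qn_pos v).le]
        norm_num

theorem log_norm_LH {s : ℂ} (hs : 1 < s.re) :
    |Real.log ‖LH ψ s‖ - (TP ψ s).re| ≤ PK K := by
  rw [LH_eq_exp ψ hs, Complex.norm_exp, Real.log_exp, ← Complex.sub_re]
  exact (Complex.abs_re_le_norm _).trans (lL_sub ψ hs)

end Pool.Agent.Work.MP_2b9663_nt.He
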