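import Pool.Agent.Work.MP_2b9663_nt.He.OrderK

set_option autoImplicit false

/-!
Bessel's inequality for families of twists by Hecke characters.
-/

namespace Pool.Agent.Work.MP_2b9663_nt.He

open NumberField Ideal Filter Topology IsDedekindDomain

section One

variable {K : Type} [Field K] [NumberField K] {S : Finset (HeightOneSpectrum (𝓞 K))}
  {t : HeightOneSpectrum (𝓞 K) → ℕ → ℂ} {i : ℕ}

lemma weil_twist {w : ℕ} {d : ℝ} (hd : 0 ≤ d) (h : WeilK S t i d) (ψ : Fin w → HeckeChar K) :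
    WeilK S (twistK t ψ) i (d * w) := by
  intro v hv k hk
  unfold twistK
  rw [norm_mul]
  have h1 : ‖∑ r, (ψ r).toFun v.asIdeal ^ k‖ ≤ w := by
    refine (norm_sum_le _ _).trans ?_
    have h2 : ∀ r ∈ Finset.univ, ‖(ψ r).toFun v.asIdeal ^ k‖ ≤ 1 := by
      intro r _
      rw [norm_pow]
      exact pow_le_one₀ (norm_nonneg _) ((ψ r).norm_le_one v.ne_bot)
    refine (Finset.sum_le_sum h2).trans ?_
    simp
  have h2 := h v hv k hk
  calc ‖t v k‖ * ‖∑ r, (ψ r).toFun v.asIdeal ^ k‖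
      ≤ (d * Real.sqrt ((absNorm v.asIdeal : ℝ) ^ k) ^ i) * w :=
        mul_le_mul h2 h1 (norm_nonneg _) ((norm_nonneg _).trans h2)
    _ = _ := by ring

lemma nk_twist {w : ℕ} (ψ : Fin w → HeckeChar K) (v : HeightOneSpectrum (𝓞 K)) :
    nk S (twistK t ψ) i v = nk S t i v * ∑ r, ψ r v.asIdeal := by
  unfold nk twistK
  split_ifs
  · rw [zero_mul]
  · simp only [pow_one]
    rw [mul_div_right_comm]

/-- a finite combination of Hecke characters -/
noncomputable def WW {ρ : Type} (P : Finset ρ) (y : ρ → ℝ) (ψ : ρ → HeckeChar K)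
    (v : HeightOneSpectrum (𝓞 K)) : ℂ := ∑ r ∈ P, (y r : ℂ) * ψ r v.asIdeal

lemma norm_WW_le {ρ : Type} (P : Finset ρ) (y : ρ → ℝ) (ψ : ρ → HeckeChar K)
    (v : HeightOneSpectrum (𝓞 K)) : ‖WW P y ψ v‖ ≤ ∑ r ∈ P, |y r| := by
  unfold WW
  refine (norm_sum_le _ _).trans (Finset.sum_le_sum fun r _ => ?_)
  rw [norm_mul, Complex.norm_real, Real.norm_eq_abs]
  exact mul_le_of_le_one_right (abs_nonneg _) ((ψ r).norm_le_one v.ne_bot)

lemma WW_sq_BK {ρ : Type} (P : Finset ρ) (y : ρ → ℝ) (ψ : ρ → HeckeChar K) :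
    BK fun v => ‖WW P y ψ v‖ ^ 2 := by
  refine ⟨(∑ r ∈ P, |y r|) ^ 2, fun v => ?_⟩
  rw [abs_of_nonneg (by positivity)]
  exact pow_le_pow_left₀ (norm_nonneg _) (norm_WW_le P y ψ v) 2

lemma WW_sq {ρ : Type} (P : Finset ρ) (y : ρ → ℝ) (ψ : ρ → HeckeChar K)
    (v : HeightOneSpectrum (𝓞 K)) :
    ‖WW P y ψ v‖ ^ 2 = ∑ r ∈ P, ∑ r' ∈ P, (y r * y r') * rc (ψ r) (ψ r') v := by
  have h1 : ((‖WW P y ψ v‖ ^ 2 : ℝ) : ℂ) = WW P y ψ v * (starRingEnd ℂ) (WW P y ψ v) := by
    rw [Complex.mul_conj, Complex.normSq_eq_norm_sq]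
  have h2 : ‖WW P y ψ v‖ ^ 2 = (WW P y ψ v * (starRingEnd ℂ) (WW P y ψ v)).re := by
    rw [← h1, Complex.ofReal_re]
  rw [h2]
  unfold WW
  rw [map_sum, Finset.sum_mul_sum, Complex.re_sum]
  refine Finset.sum_congr rfl fun r _ => ?_
  rw [Complex.re_sum]
  refine Finset.sum_congr rfl fun r' _ => ?_
  rw [map_mul, Complex.conj_ofReal]
  have h3 : (y r : ℂ) * ψ r v.asIdeal * ((y r' : ℂ) * (starRingEnd ℂ) (ψ r' v.asIdeal)) =
      ((y r * y r' : ℝ) : ℂ) * (ψ r v.asIdeal * (starRingEnd ℂ) (ψ r' v.asIdeal)) := by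
    push_cast
    ring
  rw [h3, Complex.re_ofReal_mul]
  rfl

/-- **Parseval.** -/
theorem WW_mean {ρ : Type} (P : Finset ρ) (y : ρ → ℝ) (ψ : ρ → HeckeChar K)
    (h : ∀ r ∈ P, ∀ r' ∈ P, r ≠ r' → (ψ r).Differ (ψ r')) :
    Tendsto (MR fun v => ‖WW P y ψ v‖ ^ 2) (𝓝[>] 0) (𝓝 (∑ r ∈ P, y r ^ 2)) := by
  classical
  have h1 : Tendsto (fun ε => ∑ r ∈ P, ∑ r' ∈ P, (y r * y r') * MR (rc (ψ r) (ψ r')) ε) (𝓝[>] 0)
      (𝓝 (∑ r ∈ P, ∑ r' ∈ P, (y r * y r') * (if r = r' then 1 else 0))) := by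
    refine tendsto_finsetSum _ fun r hr => tendsto_finsetSum _ fun r' hr' => ?_
    refine Tendsto.const_mul _ ?_
    by_cases hrr : r = r'
    · subst hrr
      rw [if_pos rfl]
      exact orth_self _
    · rw [if_neg hrr]
      exact orth_differ _ _ (h r hr r' hr' hrr)
  have h2 : ∑ r ∈ P, ∑ r' ∈ P, (y r * y r') * (if r = r' then 1 else 0) = ∑ r ∈ P, y r ^ 2 := by
    refine Finset.sum_congr rfl fun r hr => ?_
    simp only [mul_ite, mul_one, mul_zero]
    rw [Finset.sum_ite_eq, if_pos hr, sq]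
  rw [h2] at h1
  refine h1.congr' ?_
  filter_upwards [eventually_unit] with ε hε
  have h3 : (fun v => ‖WW P y ψ v‖ ^ 2) = fun v => ∑ r ∈ P, ∑ r' ∈ P,
      (y r * y r') * rc (ψ r) (ψ r') v := funext fun v => WW_sq P y ψ v
  rw [h3, MR_sum P (fun r _ => BK.sum P fun r' _ => (rc_BK _ _).const_mul _) hε.1]
  refine Finset.sum_congr rfl fun r _ => ?_
  rw [MR_sum P (fun r' _ => (rc_BK _ _).const_mul _) hε.1]
  exact Finset.sum_congr rfl fun r' _ => (MR_const_mul _ _ _).symm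

/-- upper bounds for the second moment of the traces -/
lemma second_moment {d δ : ℝ} (hd : 0 ≤ d) (h : WeilK S t i d) (hδ : SecondMoment S t i d δ) :
    ∃ g : ℝ → ℝ, (∀ᶠ ε : ℝ in 𝓝[>] 0, MR (fun v => ‖nk S t i v‖ ^ 2) ε ≤ g ε) ∧
      Tendsto g (𝓝[>] 0) (𝓝 δ) := by
  have hBK : BK fun v => ‖nk S t i v‖ ^ 2 := ⟨d ^ 2, fun v => by
    rw [abs_of_nonneg (by positivity)]
    exact pow_le_pow_left₀ (norm_nonneg _) (nk_norm_le hd h v) 2⟩
  rcases hδ with rfl | ⟨E, M, hE, hm, hord, rfl⟩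
  · refine ⟨fun ε => d ^ 2 * MR (fun _ : HeightOneSpectrum (𝓞 K) => (1 : ℝ)) ε, ?_, ?_⟩
    · filter_upwards [eventually_unit] with ε hε
      rw [← MR_const_mul]
      refine MR_mono hBK (BK.one.const_mul _) (fun v => ?_) hε.1 hε.2
      rw [mul_one]
      exact pow_le_pow_left₀ (norm_nonneg _) (nk_norm_le hd h v) 2
    · have := (MR_one (K := K)).const_mul (d ^ 2)
      rwa [mul_one] at this
  · refine ⟨MR (fun v => ‖nk S t i v‖ ^ 2), Eventually.of_forall fun _ => le_rfl, ?_⟩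
    have hW : WeilK S (fun v k => ((‖t v k‖ ^ 2 : ℝ) : ℂ)) (2 * i) (d ^ 2) := by
      intro v hv k hk
      rw [Complex.norm_real, Real.norm_of_nonneg (by positivity)]
      have h1 := pow_le_pow_left₀ (norm_nonneg _) (h v hv k hk) 2
      refine h1.trans (le_of_eq ?_)
      ring
    obtain ⟨C, hC⟩ := log_euler (sq_nonneg d) hW hE
    obtain ⟨n, hn, C', hC'⟩ := log_mero hm (hC.mono fun ε h => h.1)
    have hnM : n = -M := by
      rw [hord] at hn
      exact_mod_cast hn.symm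
    have hnk : ∀ v, (nk S (fun v k => ((‖t v k‖ ^ 2 : ℝ) : ℂ)) (2 * i) v).re =
        ‖nk S t i v‖ ^ 2 := by
      intro v
      unfold nk
      split_ifs
      · simp
      · rw [← Complex.ofReal_div, Complex.ofReal_re, norm_div, Complex.norm_real,
          Real.norm_of_nonneg (pow_nonneg (Real.sqrt_nonneg _) _), div_pow]
        congr 1
        ring
    refine tendsto_of_log (C := C + C') ?_
    filter_upwards [hC, hC'] with ε h1 h2
    have h3 : (fun v => (nk S (fun v k => ((‖t v k‖ ^ 2 : ℝ) : ℂ)) (2 * i) v).re) =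
        fun v => ‖nk S t i v‖ ^ 2 := funext hnk
    rw [h3] at h1
    rw [hnM] at h2
    push_cast at h2
    have h4 := abs_le.1 h1.2
    have h5 := abs_le.1 h2
    rw [abs_le]
    constructor <;> linarith [h4.1, h4.2, h5.1, h5.2]

/-- **The bound for one component.** -/
theorem component_bound {ρ : Type} {d δ : ℝ} (hd : 0 ≤ d) (h : WeilK S t i d)
    (hδ : SecondMoment S t i d δ) (P : Finset ρ) (y : ρ → ℝ) (ψ : ρ → HeckeChar K)
    (hdist : δ ≠ 0 → ∀ r ∈ P, ∀ r' ∈ P, r ≠ r' → (ψ r).Differ (ψ r')) {η : ℝ} (hη : 0 < η) :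
    ∀ᶠ ε : ℝ in 𝓝[>] 0, MR (fun v => (nk S t i v * WW P y ψ v).re) ε ≤
      Real.sqrt (δ * ∑ r ∈ P, y r ^ 2) + η := by
  obtain ⟨g, hg, hgδ⟩ := second_moment hd h hδ
  set ν : ℝ := ∑ r ∈ P, y r ^ 2 with hν
  have hν0 : 0 ≤ ν := Finset.sum_nonneg fun r _ => sq_nonneg _
  have hBKa : BK fun v => ‖nk S t i v‖ ^ 2 := ⟨d ^ 2, fun v => by
    rw [abs_of_nonneg (by positivity)]
    exact pow_le_pow_left₀ (norm_nonneg _) (nk_norm_le hd h v) 2⟩
  have hBKW := WW_sq_BK P y ψ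
  set B : ℝ := ∑ r ∈ P, |y r| with hB
  have hBKp : BK fun v => (nk S t i v * WW P y ψ v).re := ⟨d * B, fun v => by
    refine (Complex.abs_re_le_norm _).trans ?_
    rw [norm_mul]
    exact mul_le_mul (nk_norm_le hd h v) (norm_WW_le P y ψ v) (norm_nonneg _) hd⟩
  -- the pointwise inequality
  have key : ∀ lam : ℝ, 0 < lam → ∀ᶠ ε : ℝ in 𝓝[>] 0,
      MR (fun v => (nk S t i v * WW P y ψ v).re) ε ≤
        lam / 2 * g ε + 1 / (2 * lam) * MR (fun v => ‖WW P y ψ v‖ ^ 2) ε := by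
    intro lam hlam
    filter_upwards [hg, eventually_unit] with ε h1 hε
    have h2 : MR (fun v => (nk S t i v * WW P y ψ v).re) ε ≤
        MR (fun v => lam / 2 * ‖nk S t i v‖ ^ 2 + 1 / (2 * lam) * ‖WW P y ψ v‖ ^ 2) ε := by
      refine MR_mono hBKp ((hBKa.const_mul _).add (hBKW.const_mul _)) (fun v => ?_) hε.1 hε.2
      refine (Complex.re_le_norm _).trans ?_
      rw [norm_mul]
      set a := ‖nk S t i v‖
      set b := ‖WW P y ψ v‖
      have h3 : lam / 2 * a ^ 2 + 1 / (2 * lam) * b ^ 2 - a * b =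
          (lam * a - b) ^ 2 / (2 * lam) := by
        field_simp
        ring
      have h4 : 0 ≤ (lam * a - b) ^ 2 / (2 * lam) := by positivity
      linarith
    rw [MR_add (hBKa.const_mul _) (hBKW.const_mul _) hε.1, MR_const_mul, MR_const_mul] at h2
    have h5 := mul_le_mul_of_nonneg_left h1 (by positivity : 0 ≤ lam / 2)
    linarith
  by_cases hδ0 : δ = 0
  · -- no condition on the characters
    rw [hδ0, zero_mul, Real.sqrt_zero, zero_add]
    set lam : ℝ := (B ^ 2 * 2 + 1) / η with hlam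
    have hlam0 : 0 < lam := by positivity
    have h1 : Tendsto (fun ε => lam / 2 * g ε + 1 / (2 * lam) * (B ^ 2 *
        MR (fun _ : HeightOneSpectrum (𝓞 K) => (1 : ℝ)) ε)) (𝓝[>] 0)
        (𝓝 (lam / 2 * δ + 1 / (2 * lam) * (B ^ 2 * 1))) :=
      (hgδ.const_mul _).add ((MR_one.const_mul _).const_mul _)
    have h2 : lam / 2 * δ + 1 / (2 * lam) * (B ^ 2 * 1) < η := by
      rw [hδ0, mul_zero, zero_add, mul_one, div_mul_eq_mul_div, one_mul, div_lt_iff₀ (by positivity),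
        hlam]
      have h3 : η * (2 * ((B ^ 2 * 2 + 1) / η)) = 2 * (B ^ 2 * 2 + 1) := by
        field_simp
      rw [h3]
      nlinarith [sq_nonneg B]
    filter_upwards [key lam hlam0, h1.eventually (gt_mem_nhds h2), eventually_unit] with ε h3 h4 hε
    have h5 : MR (fun v => ‖WW P y ψ v‖ ^ 2) ε ≤
        B ^ 2 * MR (fun _ : HeightOneSpectrum (𝓞 K) => (1 : ℝ)) ε := by
      rw [← MR_const_mul]
      refine MR_mono hBKW (BK.one.const_mul _) (fun v => ?_) hε.1 hε.2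
      rw [mul_one]
      exact pow_le_pow_left₀ (norm_nonneg _) (norm_WW_le P y ψ v) 2
    have h6 := mul_le_mul_of_nonneg_left h5 (by positivity : 0 ≤ 1 / (2 * lam))
    linarith
  · have hW := WW_mean P y ψ (hdist hδ0)
    have hδ1 : 0 ≤ δ := by
      refine ge_of_tendsto hgδ ?_
      filter_upwards [hg, eventually_unit] with ε h1 hε
      refine le_trans ?_ h1
      have h2 : MR (fun _ : HeightOneSpectrum (𝓞 K) => (0 : ℝ)) ε ≤
          MR (fun v => ‖nk S t i v‖ ^ 2) ε :=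
        MR_mono ⟨0, fun _ => by simp⟩ hBKa (fun v => by positivity) hε.1 hε.2
      have h3 : MR (fun _ : HeightOneSpectrum (𝓞 K) => (0 : ℝ)) ε = 0 := by
        unfold MR SR
        simp
      linarith
    have hδ2 : 0 < δ := lt_of_le_of_ne hδ1 (Ne.symm hδ0)
    obtain ⟨lam, hlam0, hlam⟩ : ∃ lam : ℝ, 0 < lam ∧
        lam / 2 * δ + 1 / (2 * lam) * ν < Real.sqrt (δ * ν) + η := by
      rcases eq_or_lt_of_le hν0 with h1 | h1
      · refine ⟨η / δ, by positivity, ?_⟩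
        rw [← h1, mul_zero, mul_zero, Real.sqrt_zero, add_zero, zero_add]
        have : η / δ / 2 * δ = η / 2 := by field_simp
        rw [this]
        linarith
      · refine ⟨Real.sqrt (δ * ν) / δ, by positivity, ?_⟩
        have hs : 0 < Real.sqrt (δ * ν) := Real.sqrt_pos.2 (by positivity)
        have h2 : Real.sqrt (δ * ν) * Real.sqrt (δ * ν) = δ * ν :=
          Real.mul_self_sqrt (by positivity)
        have h3 : Real.sqrt (δ * ν) / δ / 2 * δ = Real.sqrt (δ * ν) / 2 := by field_simp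
        have h4 : 1 / (2 * (Real.sqrt (δ * ν) / δ)) * ν = Real.sqrt (δ * ν) / 2 := by
          rw [div_mul_eq_mul_div, one_mul, div_eq_div_iff (by positivity) (by norm_num)]
          have : Real.sqrt (δ * ν) * (2 * (Real.sqrt (δ * ν) / δ)) =
              2 * (Real.sqrt (δ * ν) * Real.sqrt (δ * ν)) / δ := by ring
          rw [this, h2]
          field_simp
        rw [h3, h4]
        linarith
    have h1 := (hgδ.const_mul (lam / 2)).add (hW.const_mul (1 / (2 * lam)))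
    filter_upwards [key lam hlam0, h1.eventually (gt_mem_nhds hlam)] with ε h3 h4
    linarith

end One

end Pool.Agent.Work.MP_2b9663_nt.He
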