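import Pool.Agent.Work.MP_2b9663_nt.He.Family

set_option autoImplicit false

/-!
The theorem on families of twists by Hecke characters.
-/

namespace Pool.Agent.Work.MP_2b9663_nt

open NumberField Ideal Filter Topology IsDedekindDomain He

section

variable {κ : Type} [Fintype κ] {K₀ : Type} [Field K₀] [NumberField K₀] {K : κ → Type}
  [∀ j, Field (K j)] [∀ j, NumberField (K j)] {S₀ : Finset (HeightOneSpectrum (𝓞 K₀))}
  {t₀ : HeightOneSpectrum (𝓞 K₀) → ℕ → ℂ} {S : ∀ j, Finset (HeightOneSpectrum (𝓞 (K j)))}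
  {t : ∀ j, HeightOneSpectrum (𝓞 (K j)) → ℕ → ℂ} {i : ℕ} {w : κ → ℕ} {b₀ : ℝ} {d δ : κ → ℝ}

namespace He

/-- the mean values of the components -/
noncomputable def cm (S : ∀ j, Finset (HeightOneSpectrum (𝓞 (K j))))
    (t : ∀ j, HeightOneSpectrum (𝓞 (K j)) → ℕ → ℂ) (i : ℕ) (ψ : ∀ j, Fin (w j) → HeckeChar (K j))
    (j : κ) (ε : ℝ) : ℝ :=
  MR (fun v => (nk (S j) (t j) i v * ∑ r, ψ j r v.asIdeal).re) ε

lemma member (hb₀ : 0 ≤ b₀) (h₀ : WeilK S₀ t₀ i b₀) (hd : ∀ j, 0 ≤ d j)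
    (h : ∀ j, WeilK (S j) (t j) i (d j)) {ψ : ∀ j, Fin (w j) → HeckeChar (K j)} {F : ℂ → ℂ}
    (hF : IsHeckeContinuation S₀ t₀ S t i ψ F) :
    ∃ m : ℤ, meromorphicOrderAt F ((i : ℂ) / 2 + 1) = m ∧
      Tendsto (fun ε => MR (fun v => (nk S₀ t₀ i v).re) ε + ∑ j, cm S t i ψ j ε) (𝓝[>] 0)
        (𝓝 (-(m : ℝ))) := by
  obtain ⟨hm, E₀, E, hE₀, hE, hprod⟩ := hF
  obtain ⟨C₀, hC₀⟩ := log_euler hb₀ h₀ hE₀
  have hE' : ∀ j, ∃ C : ℝ, ∀ᶠ ε : ℝ in 𝓝[>] 0, E j (spt i ε) ≠ 0 ∧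
      |Real.log ‖E j (spt i ε)‖ -
        SR (fun v => (nk (S j) (twistK (t j) (ψ j)) i v).re) ε| ≤ C := fun j =>
    log_euler (mul_nonneg (hd j) (Nat.cast_nonneg (w j))) (weil_twist (hd j) (h j) (ψ j)) (hE j)
  choose C hC using hE'
  have hall : ∀ᶠ ε : ℝ in 𝓝[>] 0, ∀ j, E j (spt i ε) ≠ 0 ∧
      |Real.log ‖E j (spt i ε)‖ -
        SR (fun v => (nk (S j) (twistK (t j) (ψ j)) i v).re) ε| ≤ C j :=
    eventually_all.2 hC
  have hval : ∀ᶠ ε : ℝ in 𝓝[>] 0, F (spt i ε) = E₀ (spt i ε) * ∏ j, E j (spt i ε) := by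
    filter_upwards [eventually_unit] with ε hε
    exact hprod _ (by rw [spt_re]; linarith [hε.1])
  have hne : ∀ᶠ ε : ℝ in 𝓝[>] 0, F (spt i ε) ≠ 0 := by
    filter_upwards [hC₀, hall, hval] with ε h1 h2 h3
    rw [h3]
    exact mul_ne_zero h1.1 (Finset.prod_ne_zero_iff.2 fun j _ => (h2 j).1)
  obtain ⟨m, hmo, C', hC'⟩ := log_mero hm hne
  refine ⟨m, hmo, ?_⟩
  have key : Tendsto (fun ε => (SR (fun v => (nk S₀ t₀ i v).re) ε +
      ∑ j, SR (fun v => (nk (S j) (t j) i v * ∑ r, ψ j r v.asIdeal).re) ε) / (-Real.log ε))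
      (𝓝[>] 0) (𝓝 (-(m : ℝ))) := by
    refine tendsto_of_log (C := C₀ + ∑ j, C j + C') ?_
    filter_upwards [hC₀, hall, hval, hC'] with ε h1 h2 h3 h4
    have h5 : Real.log ‖F (spt i ε)‖ = Real.log ‖E₀ (spt i ε)‖ +
        ∑ j, Real.log ‖E j (spt i ε)‖ := by
      rw [h3, norm_mul, norm_prod, Real.log_mul (norm_ne_zero_iff.2 h1.1)
        (Finset.prod_ne_zero_iff.2 fun j _ => norm_ne_zero_iff.2 (h2 j).1),
        Real.log_prod fun j _ => norm_ne_zero_iff.2 (h2 j).1]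
    have h6 : |∑ j, (Real.log ‖E j (spt i ε)‖ -
        SR (fun v => (nk (S j) (twistK (t j) (ψ j)) i v).re) ε)| ≤ ∑ j, C j :=
      (Finset.abs_sum_le_sum_abs _ _).trans (Finset.sum_le_sum fun j _ => (h2 j).2)
    rw [Finset.sum_sub_distrib] at h6
    have h7 : ∀ j, SR (fun v => (nk (S j) (twistK (t j) (ψ j)) i v).re) ε =
        SR (fun v => (nk (S j) (t j) i v * ∑ r, ψ j r v.asIdeal).re) ε := by
      intro j
      congr 1
      funext v
      rw [nk_twist]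
    simp only [h7] at h6
    rw [h5] at h4
    have a1 := abs_le.1 h1.2
    have a2 := abs_le.1 h6
    have a3 := abs_le.1 h4
    rw [abs_le]
    constructor <;> linarith [a1.1, a1.2, a2.1, a2.2, a3.1, a3.2]
  refine key.congr fun ε => ?_
  unfold cm MR
  rw [add_div, Finset.sum_div]

end He

namespace He

variable {ι : Type} {ψ : ι → ∀ j, Fin (w j) → HeckeChar (K j)}

lemma cm_sum (hd : ∀ j, 0 ≤ d j) (h : ∀ j, WeilK (S j) (t j) i (d j)) (s : Finset ι) (x : ι → ℝ)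
    (j : κ) {ε : ℝ} (hε : 0 < ε) :
    MR (fun v => (nk (S j) (t j) i v * WW (s ×ˢ (Finset.univ : Finset (Fin (w j))))
      (fun p => x p.1) (fun p => ψ p.1 j p.2) v).re) ε = ∑ a ∈ s, x a * cm S t i (ψ a) j ε := by
  have h1 : (fun v => (nk (S j) (t j) i v * WW (s ×ˢ (Finset.univ : Finset (Fin (w j))))
      (fun p => x p.1) (fun p => ψ p.1 j p.2) v).re) =
      fun v => ∑ a ∈ s, x a * (nk (S j) (t j) i v * ∑ r, ψ a j r v.asIdeal).re := by
    funext v
    unfold WW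
    rw [Finset.sum_product, Finset.mul_sum, Complex.re_sum]
    refine Finset.sum_congr rfl fun a _ => ?_
    dsimp only
    rw [← Finset.mul_sum, mul_left_comm, Complex.re_ofReal_mul]
  rw [h1, MR_sum s (fun a _ => BK.const_mul _ ?_) hε]
  · exact Finset.sum_congr rfl fun a _ => MR_const_mul _ _ _
  · refine ⟨d j * w j, fun v => ?_⟩
    refine (Complex.abs_re_le_norm _).trans ?_
    rw [norm_mul]
    refine mul_le_mul (nk_norm_le (hd j) (h j) v) ?_ (norm_nonneg _) (hd j)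
    refine (norm_sum_le _ _).trans ?_
    refine (Finset.sum_le_sum fun r _ => (ψ a j r).norm_le_one v.ne_bot).trans ?_
    simp

/-- **The mean inequality.** -/
theorem core (hd : ∀ j, 0 ≤ d j) (h : ∀ j, WeilK (S j) (t j) i (d j))
    (hδ : ∀ j, SecondMoment (S j) (t j) i (d j) (δ j)) (hdist : Distinct δ ψ) {m : ι → ℤ}
    (hm : ∀ a, Tendsto (fun ε => MR (fun v => (nk S₀ t₀ i v).re) ε + ∑ j, cm S t i (ψ a) j ε)
      (𝓝[>] 0) (𝓝 (-(m a : ℝ)))) (s : Finset ι) (x : ι → ℝ) (n : ℝ)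
    (hn : ∑ a ∈ s, x a = 0 ∨
      Tendsto (MR fun v => (nk S₀ t₀ i v).re) (𝓝[>] 0) (𝓝 (-n))) :
    ∑ a ∈ s, x a * (n - m a) ≤ (∑ j, Real.sqrt (w j * δ j)) * Real.sqrt (∑ a ∈ s, x a ^ 2) := by
  set N : ℝ := ∑ a ∈ s, x a ^ 2 with hN
  -- the limit
  have hlim : Tendsto (fun ε => ∑ j, ∑ a ∈ s, x a * cm S t i (ψ a) j ε) (𝓝[>] 0)
      (𝓝 (∑ a ∈ s, x a * (n - m a))) := by
    have h1 : ∀ ε, ∑ j, ∑ a ∈ s, x a * cm S t i (ψ a) j ε =
        ∑ a ∈ s, x a * (MR (fun v => (nk S₀ t₀ i v).re) ε + ∑ j, cm S t i (ψ a) j ε) -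
        (∑ a ∈ s, x a) * MR (fun v => (nk S₀ t₀ i v).re) ε := by
      intro ε
      rw [Finset.sum_comm, Finset.sum_mul, ← Finset.sum_sub_distrib]
      refine Finset.sum_congr rfl fun a _ => ?_
      rw [← Finset.mul_sum]
      ring
    have h2 : Tendsto (fun ε => ∑ a ∈ s, x a * (MR (fun v => (nk S₀ t₀ i v).re) ε +
        ∑ j, cm S t i (ψ a) j ε)) (𝓝[>] 0) (𝓝 (∑ a ∈ s, x a * (-(m a : ℝ)))) :=
      tendsto_finsetSum _ fun a _ => (hm a).const_mul _
    simp only [h1]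
    rcases hn with hn | hn
    · simp only [hn, zero_mul, sub_zero]
      have h3 : ∑ a ∈ s, x a * (n - m a) = ∑ a ∈ s, x a * (-(m a : ℝ)) := by
        have h4 : ∑ a ∈ s, x a * (n - m a) = (∑ a ∈ s, x a) * n + ∑ a ∈ s, x a * (-(m a : ℝ)) := by
          rw [Finset.sum_mul, ← Finset.sum_add_distrib]
          exact Finset.sum_congr rfl fun a _ => by ring
        rw [h4, hn, zero_mul, zero_add]
      rw [h3]
      exact h2
    · have h3 := h2.sub (hn.const_mul (∑ a ∈ s, x a))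
      have h4 : ∑ a ∈ s, x a * (n - m a) =
          ∑ a ∈ s, x a * (-(m a : ℝ)) - (∑ a ∈ s, x a) * -n := by
        rw [Finset.sum_mul, ← Finset.sum_sub_distrib]
        exact Finset.sum_congr rfl fun a _ => by ring
      rw [h4]
      exact h3
  -- the bound
  refine le_of_forall_pos_le_add fun e he => ?_
  set η : ℝ := e / (Fintype.card κ + 1) with hη
  have hη0 : 0 < η := by positivity
  have hcomp : ∀ j, ∀ᶠ ε : ℝ in 𝓝[>] 0, ∑ a ∈ s, x a * cm S t i (ψ a) j ε ≤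
      Real.sqrt (w j * δ j) * Real.sqrt N + η := by
    intro j
    have h1 := component_bound (hd j) (h j) (hδ j) (s ×ˢ (Finset.univ : Finset (Fin (w j))))
      (fun p => x p.1) (fun p => ψ p.1 j p.2) (fun h0 p _ p' _ hpp => hdist j h0 _ _ _ _ hpp) hη0
    filter_upwards [h1, eventually_unit] with ε h2 hε
    rw [cm_sum hd h s x j hε.1] at h2
    refine h2.trans (le_of_eq ?_)
    have h3 : ∑ p ∈ s ×ˢ (Finset.univ : Finset (Fin (w j))), x p.1 ^ 2 = w j * N := by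
      rw [Finset.sum_product]
      simp only [Finset.sum_const, Finset.card_univ, Fintype.card_fin, nsmul_eq_mul]
      rw [← Finset.mul_sum]
    rw [h3, ← Real.sqrt_mul' _ (Finset.sum_nonneg fun a _ => sq_nonneg (x a))]
    congr 2
    ring
  have hle : ∑ a ∈ s, x a * (n - m a) ≤
      ∑ j, (Real.sqrt (w j * δ j) * Real.sqrt N + η) := by
    refine le_of_tendsto hlim ?_
    filter_upwards [eventually_all.2 hcomp] with ε h1
    exact Finset.sum_le_sum fun j _ => h1 j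
  refine hle.trans ?_
  rw [Finset.sum_add_distrib, ← Finset.sum_mul, Finset.sum_const, Finset.card_univ, nsmul_eq_mul]
  have h1 : (Fintype.card κ : ℝ) * η ≤ e := by
    rw [hη, mul_div_assoc', div_le_iff₀ (by positivity)]
    nlinarith [Nat.cast_nonneg (α := ℝ) (Fintype.card κ)]
  linarith

/-- from the bound for the sums of squares to the number of exceptions -/
lemma encard_le {m : ι → ℤ} {n : ℤ} {D : ℝ}
    (H : ∀ s : Finset ι, ∑ a ∈ s, ((m a : ℝ) - n) ^ 2 ≤ D ^ 2) : NearlyEqual m n D := by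
  classical
  refine ⟨H, ?_⟩
  have hcard : ∀ s : Finset ι, (∀ a ∈ s, m a ≠ n) → s.card ≤ ⌊D ^ 2⌋₊ := by
    intro s hs
    rw [Nat.le_floor_iff (sq_nonneg D)]
    refine le_trans ?_ (H s)
    have h1 : ∀ a ∈ s, (1 : ℝ) ≤ ((m a : ℝ) - n) ^ 2 := by
      intro a ha
      have h2 : (1 : ℤ) ≤ (m a - n) ^ 2 := by
        have := sq_pos_of_ne_zero (sub_ne_zero.2 (hs a ha))
        linarith
      exact_mod_cast h2
    calc (s.card : ℝ) = ∑ a ∈ s, (1 : ℝ) := by simp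
      _ ≤ _ := Finset.sum_le_sum h1
  have hfin : {a | m a ≠ n}.Finite := by
    by_contra hinf
    obtain ⟨s, hs, hc⟩ := Set.Infinite.exists_subset_card_eq hinf (⌊D ^ 2⌋₊ + 1)
    have := hcard s fun a ha => hs ha
    omega
  rw [hfin.encard_eq_coe_toFinset_card]
  exact_mod_cast hcard _ fun a ha => by simpa using ha

lemma sq_le_of_core {N D : ℝ} (hN : 0 ≤ N) (hD : 0 ≤ D) (h : N ≤ D * Real.sqrt N) : N ≤ D ^ 2 := by
  have h1 : Real.sqrt N * Real.sqrt N = N := Real.mul_self_sqrt hN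
  have h2 : 0 ≤ Real.sqrt N := Real.sqrt_nonneg N
  rcases eq_or_lt_of_le h2 with h3 | h3
  · rw [← h3, mul_zero] at h1
    rw [← h1]
    positivity
  · have h4 : Real.sqrt N ≤ D := le_of_mul_le_mul_right (h1.le.trans h) h3
    calc N = Real.sqrt N * Real.sqrt N := h1.symm
      _ ≤ D * D := mul_le_mul h4 h4 h2 hD
      _ = D ^ 2 := by ring

lemma D_nonneg : 0 ≤ ∑ j, Real.sqrt ((w j : ℝ) * δ j) :=
  Finset.sum_nonneg fun _ _ => Real.sqrt_nonneg _

/-- the case of a known fixed part -/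
theorem bessel_known (hd : ∀ j, 0 ≤ d j) (h : ∀ j, WeilK (S j) (t j) i (d j))
    (hδ : ∀ j, SecondMoment (S j) (t j) i (d j) (δ j)) (hdist : Distinct δ ψ) {m : ι → ℤ}
    (hm : ∀ a, Tendsto (fun ε => MR (fun v => (nk S₀ t₀ i v).re) ε + ∑ j, cm S t i (ψ a) j ε)
      (𝓝[>] 0) (𝓝 (-(m a : ℝ)))) (n : ℤ)
    (hn : Tendsto (MR fun v => (nk S₀ t₀ i v).re) (𝓝[>] 0) (𝓝 (-(n : ℝ)))) :
    NearlyEqual m n (∑ j, Real.sqrt (w j * δ j)) := by
  refine encard_le fun s => ?_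
  have h1 := core hd h hδ hdist hm s (fun a => (n : ℝ) - m a) n (Or.inr hn)
  have h2 : ∀ a, ((n : ℝ) - m a) * (n - m a) = ((m a : ℝ) - n) ^ 2 := fun a => by ring
  have h3 : ∀ a, ((n : ℝ) - m a) ^ 2 = ((m a : ℝ) - n) ^ 2 := fun a => by ring
  simp only [h2, h3] at h1
  exact sq_le_of_core (Finset.sum_nonneg fun a _ => sq_nonneg _) D_nonneg h1

/-- the case of an infinite family -/
theorem bessel_infinite [Infinite ι] (hd : ∀ j, 0 ≤ d j) (h : ∀ j, WeilK (S j) (t j) i (d j))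
    (hδ : ∀ j, SecondMoment (S j) (t j) i (d j) (δ j)) (hdist : Distinct δ ψ) {m : ι → ℤ}
    (hm : ∀ a, Tendsto (fun ε => MR (fun v => (nk S₀ t₀ i v).re) ε + ∑ j, cm S t i (ψ a) j ε)
      (𝓝[>] 0) (𝓝 (-(m a : ℝ)))) :
    ∃ n : ℤ, NearlyEqual m n (∑ j, Real.sqrt (w j * δ j)) := by
  classical
  set D : ℝ := ∑ j, Real.sqrt (w j * δ j) with hD
  have hD0 : 0 ≤ D := D_nonneg
  -- the variance inequality
  have hvar : ∀ (s : Finset ι) (c : ℝ), s.card * c = ∑ a ∈ s, (m a : ℝ) →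
      ∑ a ∈ s, ((m a : ℝ) - c) ^ 2 ≤ D ^ 2 := by
    intro s c hc
    have h1 := core hd h hδ hdist hm s (fun a => c - m a) c (Or.inl (by
      rw [Finset.sum_sub_distrib, Finset.sum_const, nsmul_eq_mul, hc, sub_self]))
    have h2 : ∀ a, (c - m a) * (c - m a) = ((m a : ℝ) - c) ^ 2 := fun a => by ring
    have h3 : ∀ a, (c - m a) ^ 2 = ((m a : ℝ) - c) ^ 2 := fun a => by ring
    simp only [h2, h3] at h1
    exact sq_le_of_core (Finset.sum_nonneg fun a _ => sq_nonneg _) hD0 h1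
  -- the orders are bounded
  have hbdd : ∀ a b : ι, ((m a : ℝ) - m b) ^ 2 ≤ 2 * D ^ 2 := by
    intro a b
    by_cases hab : a = b
    · subst hab
      rw [sub_self]
      nlinarith [sq_nonneg D]
    · have h1 := hvar {a, b} (((m a : ℝ) + m b) / 2) (by
        rw [Finset.card_pair hab, Finset.sum_pair hab]
        push_cast
        ring)
      rw [Finset.sum_pair hab] at h1
      nlinarith
  obtain ⟨a₀⟩ := (inferInstance : Nonempty ι)
  have hrange : (Set.range m).Finite := by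
    obtain ⟨B, hB⟩ := exists_nat_gt (2 * D ^ 2 + 1)
    refine (Set.finite_Icc (m a₀ - B) (m a₀ + B)).subset ?_
    rintro _ ⟨a, rfl⟩
    have h1 := hbdd a a₀
    have h2 : |((m a : ℝ) - m a₀)| ≤ B := by
      by_contra hc
      push Not at hc
      have h3 : (B : ℝ) ^ 2 < |((m a : ℝ) - m a₀)| ^ 2 :=
        pow_lt_pow_left₀ hc (Nat.cast_nonneg _) two_ne_zero
      rw [sq_abs] at h3
      have h4 : (1 : ℝ) ≤ B := by nlinarith [sq_nonneg D]
      nlinarith
    have h3 := abs_le.1 h2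
    constructor
    · have : ((m a₀ - B : ℤ) : ℝ) ≤ m a := by push_cast; linarith [h3.1]
      exact_mod_cast this
    · have : (m a : ℝ) ≤ ((m a₀ + B : ℤ) : ℝ) := by push_cast; linarith [h3.2]
      exact_mod_cast this
  obtain ⟨n, -, hn⟩ : ∃ n ∈ Set.range m, (m ⁻¹' {n}).Infinite := by
    by_contra hcon
    push Not at hcon
    have h1 : (⋃ n ∈ Set.range m, m ⁻¹' {n}).Finite :=
      Set.Finite.biUnion hrange fun n hn => hcon n hn
    have h2 : (⋃ n ∈ Set.range m, m ⁻¹' {n}) = Set.univ := by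
      ext a
      simp
    rw [h2] at h1
    exact Set.infinite_univ h1
  refine ⟨n, encard_le fun s => ?_⟩
  set Y : ℝ := ∑ a ∈ s, ((m a : ℝ) - n) ^ 2 with hY
  set T : ℝ := ∑ a ∈ s, ((m a : ℝ) - n) with hT
  have key : ∀ M : ℕ, 0 < M → Y ≤ D ^ 2 + T ^ 2 / M := by
    intro M hM
    obtain ⟨s', hs', hcard⟩ := Set.Infinite.exists_subset_card_eq
      (hn.diff s.finite_toSet) M
    have hdisj : Disjoint s s' := by
      rw [Finset.disjoint_left]
      intro a ha ha'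
      exact (hs' ha').2 ha
    have hval : ∀ a ∈ s', m a = n := fun a ha => (hs' ha).1
    set u := s ∪ s' with hu
    have hucard : (u.card : ℝ) = s.card + M := by
      rw [hu, Finset.card_union_of_disjoint hdisj, hcard]
      push_cast
      rfl
    have hu0 : (0 : ℝ) < u.card := by
      rw [hucard]
      have : (0 : ℝ) < M := by exact_mod_cast hM
      positivity
    have hsum : ∑ a ∈ u, ((m a : ℝ) - n) = T := by
      rw [hu, Finset.sum_union hdisj, hT]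
      have : ∑ a ∈ s', ((m a : ℝ) - n) = 0 :=
        Finset.sum_eq_zero fun a ha => by rw [hval a ha, sub_self]
      rw [this, add_zero]
    have hsum2 : ∑ a ∈ u, ((m a : ℝ) - n) ^ 2 = Y := by
      rw [hu, Finset.sum_union hdisj, hY]
      have : ∑ a ∈ s', ((m a : ℝ) - n) ^ 2 = 0 :=
        Finset.sum_eq_zero fun a ha => by rw [hval a ha, sub_self]; ring
      rw [this, add_zero]
    have h1 := hvar u (n + T / u.card) (by
      have h2 : ∑ a ∈ u, (m a : ℝ) = T + u.card * n := by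
        rw [← hsum, Finset.sum_sub_distrib, Finset.sum_const, nsmul_eq_mul]
        ring
      rw [h2]
      field_simp
      ring)
    have h2 : ∑ a ∈ u, ((m a : ℝ) - (n + T / u.card)) ^ 2 = Y - T ^ 2 / u.card := by
      have h3 : ∀ a, ((m a : ℝ) - (n + T / u.card)) ^ 2 =
          ((m a : ℝ) - n) ^ 2 - 2 * (T / u.card) * ((m a : ℝ) - n) + (T / u.card) ^ 2 := fun a => by
        ring
      simp only [h3]
      rw [Finset.sum_add_distrib, Finset.sum_sub_distrib, ← Finset.mul_sum, hsum, hsum2,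
        Finset.sum_const, nsmul_eq_mul]
      field_simp
      ring
    rw [h2] at h1
    have h3 : T ^ 2 / u.card ≤ T ^ 2 / M := by
      refine div_le_div_of_nonneg_left (sq_nonneg T) (by exact_mod_cast hM) ?_
      rw [hucard]
      linarith [Nat.cast_nonneg (α := ℝ) s.card]
    linarith
  refine le_of_forall_pos_le_add fun e he => ?_
  obtain ⟨M, hM⟩ := exists_nat_gt (T ^ 2 / e)
  have hM0 : (0 : ℝ) < M := lt_of_le_of_lt (by positivity) hM
  have h1 := key M (by exact_mod_cast hM0)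
  have h2 : T ^ 2 / M ≤ e := by
    rw [div_le_iff₀ hM0]
    rw [div_lt_iff₀ he] at hM
    linarith
  linarith

/-- the mean value of the fixed part -/
lemma fixed_mean (hb₀ : 0 ≤ b₀) (h₀ : WeilK S₀ t₀ i b₀) {n : ℤ} (hn : OrdK S₀ t₀ i n) :
    Tendsto (MR fun v => (nk S₀ t₀ i v).re) (𝓝[>] 0) (𝓝 (-(n : ℝ))) := by
  classical
  rcases hn with ⟨E, hE, hmer, hord⟩ | ⟨b, hb, rfl⟩
  · obtain ⟨C, hC⟩ := log_euler hb₀ h₀ hE
    obtain ⟨n', hn', C', hC'⟩ := log_mero hmer (hC.mono fun ε h => h.1)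
    have hnn : n' = n := by
      rw [hord] at hn'
      exact_mod_cast hn'.symm
    subst hnn
    refine tendsto_of_log (C := C + C') ?_
    filter_upwards [hC, hC'] with ε h1 h2
    have h4 := abs_le.1 h1.2
    have h5 := abs_le.1 h2
    rw [abs_le]
    constructor <;> linarith [h4.1, h4.2, h5.1, h5.2]
  · have h1 := (MR_one (K := K₀)).const_mul (b : ℝ)
    rw [mul_one] at h1
    have h2 : Tendsto (MR fun _ : HeightOneSpectrum (𝓞 K₀) => (b : ℝ) * 1) (𝓝[>] 0)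
        (𝓝 (b : ℝ)) := by
      refine h1.congr fun ε => ?_
      rw [MR_const_mul]
    have h3 := MR_congr (BK.one.const_mul (b : ℝ)) (nk_BK hb₀ h₀) S₀ (fun v hv => by
      have h4 := hb v hv 1 one_ne_zero
      rw [pow_one] at h4
      unfold nk
      rw [if_neg hv, h4]
      have h5 : ((Real.sqrt (qn v) ^ i : ℝ) : ℂ) ≠ 0 := by
        exact_mod_cast (pow_pos (Real.sqrt_pos.mpr (qn_pos v)) i).ne'
      change (b : ℝ) * 1 = ((b : ℂ) * ((Real.sqrt (qn v) : ℝ) : ℂ) ^ i /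
        ((Real.sqrt (qn v) ^ i : ℝ) : ℂ)).re
      rw [← Complex.ofReal_pow, mul_div_cancel_right₀ _ h5]
      simp) h2
    push_cast
    rw [neg_neg]
    exact h3

end He

/-- **Families of twists by Hecke characters.** -/
theorem hecke_families {ι : Type} (hb₀ : 0 ≤ b₀) (h₀ : WeilK S₀ t₀ i b₀) (hd : ∀ j, 0 ≤ d j)
    (h : ∀ j, WeilK (S j) (t j) i (d j)) (hδ : ∀ j, SecondMoment (S j) (t j) i (d j) (δ j))
    (ψ : ι → ∀ j, Fin (w j) → HeckeChar (K j)) (hdist : Distinct δ ψ) (F : ι → ℂ → ℂ)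
    (hF : ∀ a, IsHeckeContinuation S₀ t₀ S t i (ψ a) (F a)) :
    ∃ m : ι → ℤ, (∀ a, meromorphicOrderAt (F a) ((i : ℂ) / 2 + 1) = m a) ∧
      (∀ n, OrdK S₀ t₀ i n → NearlyEqual m n (∑ j, Real.sqrt (w j * δ j))) ∧
      (Infinite ι → ∃ n, NearlyEqual m n (∑ j, Real.sqrt (w j * δ j))) := by
  choose m hm hmean using fun a => member hb₀ h₀ hd h (hF a)
  exact ⟨m, hm, fun n hn => bessel_known hd h hδ hdist hmean n (fixed_mean hb₀ h₀ hn),
    fun _ => bessel_infinite hd h hδ hdist hmean⟩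

end

end Pool.Agent.Work.MP_2b9663_nt
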