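import Pool.Agent.Work.MP_2b9663_nt.He.Pole

set_option autoImplicit false

/-!
Landau's argument for exponentials of Dirichlet series with nonnegative coefficients.
-/

namespace Pool.Agent.Work.MP_2b9663_nt.He

open Filter Topology
open scoped ComplexOrder

lemma exp_deriv_nonneg {G : ℂ → ℂ} {c : ℂ} (hG : AnalyticAt ℂ G c) (h0 : 0 ≤ Complex.exp (G c))
    (h : ∀ n, 0 ≤ iteratedDeriv (n + 1) G c) :
    ∀ n, 0 ≤ iteratedDeriv n (fun w => Complex.exp (G w)) c := by
  intro n
  induction n using Nat.strong_induction_on with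
  | _ n ih =>
    cases n with
    | zero => simpa using h0
    | succ n =>
      rw [iteratedDeriv_succ']
      have h1 : deriv (fun w => Complex.exp (G w)) =ᶠ[𝓝 c]
          (deriv G * fun w => Complex.exp (G w)) := by
        filter_upwards [hG.eventually_analyticAt] with w hw
        have := (hw.differentiableAt.hasDerivAt).cexp
        rw [this.deriv, Pi.mul_apply, mul_comm]
      have h3 : ContDiffAt ℂ n (fun w => Complex.exp (G w)) c := hG.cexp.contDiffAt
      rw [h1.iteratedDeriv_eq n, iteratedDeriv_mul hG.deriv.contDiffAt h3]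
      refine Finset.sum_nonneg fun i hi => ?_
      have h2 : i ≤ n := Nat.lt_succ_iff.1 (Finset.mem_range.1 hi)
      rw [← iteratedDeriv_succ']
      refine mul_nonneg (mul_nonneg (Nat.cast_nonneg _) (h i)) (ih (n - i) (by omega))

section LS

variable {J : Type} (N : J → ℕ) (c : J → ℝ)

/-- the coefficients of the Dirichlet series -/
noncomputable def cof (n : ℕ) : ℂ := ∑' j : {j // N j = n}, ((c j : ℝ) : ℂ)

lemma cof_nonneg (hc : ∀ j, 0 ≤ c j) : 0 ≤ cof N c := by
  intro n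
  unfold cof
  refine tsum_nonneg fun j => ?_
  exact Complex.zero_le_real.2 (hc j)

lemma hasSum_LSeries (hN : ∀ j, N j ≠ 0) {s : ℂ}
    (hs : Summable fun j => ‖((c j : ℝ) : ℂ) * (N j : ℂ) ^ (-s)‖) :
    LSeriesSummable (cof N c) s ∧ LSeries (cof N c) s = ∑' j, ((c j : ℝ) : ℂ) * (N j : ℂ) ^ (-s) := by
  have h0 : Summable fun x : (Σ n : ℕ, {j // N j = n}) =>
      ((c x.2 : ℝ) : ℂ) * (N x.2 : ℂ) ^ (-s) :=
    (Equiv.sigmaFiberEquiv N).summable_iff.mpr hs.of_norm
  have h0n : Summable fun x : (Σ n : ℕ, {j // N j = n}) =>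
      ‖((c x.2 : ℝ) : ℂ) * (N x.2 : ℂ) ^ (-s)‖ :=
    (Equiv.sigmaFiberEquiv N).summable_iff.mpr hs
  have h1 : ∀ n : ℕ, ∑' j : {j // N j = n}, ((c j : ℝ) : ℂ) * (N j : ℂ) ^ (-s) =
      LSeries.term (cof N c) s n := by
    intro n
    rcases eq_or_ne n 0 with rfl | hn
    · rw [LSeries.term_zero]
      have : IsEmpty {j // N j = 0} := ⟨fun j => hN j j.2⟩
      exact tsum_empty
    · rw [LSeries.term_of_ne_zero hn, cof, div_eq_mul_inv, ← Complex.cpow_neg, ← tsum_mul_right]
      refine tsum_congr fun j => ?_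
      rw [j.2]
  have h2 : Summable fun n : ℕ => ∑' j : {j // N j = n}, ((c j : ℝ) : ℂ) * (N j : ℂ) ^ (-s) :=
    h0.sigma
  have h3 : Summable (LSeries.term (cof N c) s) := h2.congr h1
  refine ⟨h3, ?_⟩
  rw [LSeries, ← tsum_congr h1, ← (Equiv.sigmaFiberEquiv N).tsum_eq
    fun j => ((c j : ℝ) : ℂ) * (N j : ℂ) ^ (-s)]
  exact (h0.tsum_sigma).symm

end LS

lemma norm_term {J : Type} {N : J → ℕ} {c : J → ℝ} (hN : ∀ j, N j ≠ 0) (hc : ∀ j, 0 ≤ c j)
    (s : ℂ) (j : J) : ‖((c j : ℝ) : ℂ) * (N j : ℂ) ^ (-s)‖ = c j * (N j : ℝ) ^ (-s.re) := by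
  rw [norm_mul, Complex.norm_real, Real.norm_of_nonneg (hc j),
    Complex.norm_natCast_cpow_of_pos (Nat.pos_of_ne_zero (hN j)), Complex.neg_re]

/-- **Landau's argument.** -/
theorem landau {J : Type} {N : J → ℕ} {c : J → ℝ} (hN : ∀ j, N j ≠ 0) (hc : ∀ j, 0 ≤ c j)
    (hs : ∀ σ : ℝ, 1 < σ → Summable fun j => c j * (N j : ℝ) ^ (-σ)) {f : ℂ → ℂ}
    (hf : DifferentiableOn ℂ f UU)
    (hfe : ∀ s : ℂ, 1 < s.re → f s = Complex.exp (∑' j, ((c j : ℝ) : ℂ) * (N j : ℂ) ^ (-s)))
    (T : Finset J) : Real.exp (∑ j ∈ T, c j * (N j : ℝ) ^ (-(1 / 2) : ℝ)) ≤ ‖f (1 / 2)‖ := by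
  classical
  set c' : J → ℝ := fun j => if j ∈ T then 0 else c j with hc'
  have hc'0 : ∀ j, 0 ≤ c' j := fun j => by
    simp only [hc']
    split_ifs
    · exact le_rfl
    · exact hc j
  have hc'le : ∀ j, c' j ≤ c j := fun j => by
    simp only [hc']
    split_ifs
    · exact hc j
    · exact le_rfl
  have hs1 : ∀ s : ℂ, 1 < s.re → Summable fun j => ‖((c j : ℝ) : ℂ) * (N j : ℂ) ^ (-s)‖ := by
    intro s h
    simp only [norm_term hN hc]
    exact hs s.re h
  have hs2 : ∀ s : ℂ, 1 < s.re → Summable fun j => ‖((c' j : ℝ) : ℂ) * (N j : ℂ) ^ (-s)‖ := by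
    intro s h
    refine Summable.of_nonneg_of_le (fun _ => norm_nonneg _) (fun j => ?_) (hs1 s h)
    rw [norm_term hN hc'0, norm_term hN hc]
    exact mul_le_mul_of_nonneg_right (hc'le j) (Real.rpow_nonneg (Nat.cast_nonneg _) _)
  set a : ℕ → ℂ := cof N c' with ha
  have ha0 : 0 ≤ a := cof_nonneg N c' hc'0
  set FT : ℂ → ℂ := fun s => ∑ j ∈ T, ((c j : ℝ) : ℂ) * (N j : ℂ) ^ (-s) with hFT
  have hFTd : Differentiable ℂ FT := by
    refine Differentiable.fun_sum fun j _ => Differentiable.const_mul ?_ _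
    intro s
    exact differentiableAt_id.neg.const_cpow (Or.inl (by exact_mod_cast hN j))
  have habs : LSeries.abscissaOfAbsConv a < ((2 : ℝ) : EReal) := by
    have h1 := (hasSum_LSeries N c' hN (s := ((3 / 2 : ℝ) : ℂ)) (hs2 _ (by
      rw [Complex.ofReal_re]; norm_num))).1
    refine lt_of_le_of_lt h1.abscissaOfAbsConv_le ?_
    rw [Complex.ofReal_re]
    exact_mod_cast (by norm_num : (3 / 2 : ℝ) < 2)
  have hsplit : ∀ s : ℂ, 1 < s.re → ∑' j, ((c j : ℝ) : ℂ) * (N j : ℂ) ^ (-s) =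
      FT s + LSeries a s := by
    intro s h
    rw [(hasSum_LSeries N c' hN (hs2 s h)).2]
    have h1 : ∀ j, ((c j : ℝ) : ℂ) * (N j : ℂ) ^ (-s) =
        (if j ∈ T then ((c j : ℝ) : ℂ) * (N j : ℂ) ^ (-s) else 0) +
        ((c' j : ℝ) : ℂ) * (N j : ℂ) ^ (-s) := by
      intro j
      simp only [hc']
      split_ifs
      · simp
      · simp
    have h2 : Summable fun j => if j ∈ T then ((c j : ℝ) : ℂ) * (N j : ℂ) ^ (-s) else 0 :=
      summable_of_ne_finset_zero (s := T) fun j hj => if_neg hj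
    rw [tsum_congr h1, h2.tsum_add (hs2 s h).of_norm]
    congr 1
    rw [tsum_eq_sum (s := T) fun j hj => if_neg hj]
    exact Finset.sum_congr rfl fun j hj => if_pos hj
  -- the function to be expanded
  set G : ℂ → ℂ := fun s => f s * Complex.exp (-FT s) with hG
  have hGe : ∀ s : ℂ, 1 < s.re → G s = Complex.exp (LSeries a s) := by
    intro s h
    simp only [hG]
    rw [hfe s h, hsplit s h, ← Complex.exp_add]
    congr 1
    ring
  have hGd : DifferentiableOn ℂ (fun w => G (-w) - 1) (Metric.ball (-2) 2) := by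
    have h1 : DifferentiableOn ℂ G UU := hf.mul (hFTd.neg.cexp).differentiableOn
    refine (h1.comp differentiable_neg.differentiableOn ?_).sub_const 1
    intro w hw
    rw [Metric.mem_ball, dist_eq_norm] at hw
    have h2 := (Complex.abs_re_le_norm (w - -2)).trans_lt hw
    rw [abs_lt] at h2
    change 0 < (-w).re
    have h3 : (w - -2).re = w.re + 2 := by simp
    rw [h3] at h2
    rw [Complex.neg_re]
    linarith [h2.2]
  have hanal : AnalyticAt ℂ (fun w => LSeries a (-w)) (-2) := by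
    have h1 : AnalyticAt ℂ (LSeries a) (2 : ℂ) := by
      refine LSeries_analyticOnNhd a 2 ?_
      change LSeries.abscissaOfAbsConv a < ((2 : ℂ).re : EReal)
      exact_mod_cast habs
    have h2 : AnalyticAt ℂ (fun w : ℂ => -w) (-2) := analyticAt_id.neg
    exact AnalyticAt.comp' (g := LSeries a) (f := fun w : ℂ => -w) (by rw [neg_neg]; exact h1) h2
  have halt : ∀ n, 0 ≤ iteratedDeriv n (fun w => LSeries a (-w)) (-2) := by
    intro n
    rw [iteratedDeriv_comp_neg, neg_neg, smul_eq_mul]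
    have := LSeries.iteratedDeriv_alternating ha0 (x := 2) habs n
    exact_mod_cast this
  have hreal : ∀ z : ℂ, 0 ≤ z → 1 ≤ Complex.exp z := by
    intro z hz
    have h1 : z = ((z.re : ℝ) : ℂ) := by
      obtain ⟨_, h2⟩ := Complex.nonneg_iff.1 hz
      exact Complex.ext (by simp) (by simp [← h2])
    rw [h1, ← Complex.ofReal_exp]
    have h2 : (1 : ℝ) ≤ Real.exp z.re := Real.one_le_exp (Complex.nonneg_iff.1 hz).1
    exact_mod_cast h2
  have h0 : 0 ≤ LSeries a (- -2) := by simpa using halt 0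
  have hexp : ∀ n, 0 ≤ iteratedDeriv n (fun w => Complex.exp (LSeries a (-w))) (-2) :=
    exp_deriv_nonneg hanal (zero_le_one.trans (hreal _ h0)) fun n => halt (n + 1)
  have hev : (fun w => G (-w) - 1) =ᶠ[𝓝 (-2)] fun w => Complex.exp (LSeries a (-w)) - 1 := by
    have h1 : {w : ℂ | 1 < (-w).re} ∈ 𝓝 (-2 : ℂ) := by
      refine (isOpen_lt continuous_const (Complex.continuous_re.comp continuous_neg)).mem_nhds ?_
      change (1 : ℝ) < (- -2 : ℂ).re
      norm_num
    filter_upwards [h1] with w hw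
    rw [hGe (-w) hw]
  have hall : ∀ n, 0 ≤ iteratedDeriv n (fun w => G (-w) - 1) (-2) := by
    intro n
    rw [hev.iteratedDeriv_eq n]
    cases n with
    | zero =>
      rw [iteratedDeriv_zero]
      exact sub_nonneg.2 (hreal _ h0)
    | succ n =>
      have h1 : deriv (fun w => Complex.exp (LSeries a (-w)) - 1) =
          deriv fun w => Complex.exp (LSeries a (-w)) := by
        funext w
        exact deriv_sub_const 1
      rw [iteratedDeriv_succ', h1, ← iteratedDeriv_succ']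
      exact hexp (n + 1)
  have hfinal := DifferentiableOn.nonneg_of_iteratedDeriv_nonneg hGd hall (z := -(1 / 2)) (by
    rw [Complex.le_def]
    constructor
    · norm_num
    · norm_num) (by
    rw [Metric.mem_ball, dist_eq_norm]
    have : (-(1 / 2) - -2 : ℂ) = ((3 / 2 : ℝ) : ℂ) := by push_cast; ring
    rw [this, Complex.norm_real]
    norm_num)
  simp only [neg_neg] at hfinal
  have h1 : 1 ≤ ‖G (1 / 2)‖ := by
    have h2 : 1 ≤ (G (1 / 2)).re := by
      have := (Complex.nonneg_iff.1 hfinal).1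
      rw [Complex.sub_re, Complex.one_re] at this
      linarith
    exact h2.trans (Complex.re_le_norm _)
  simp only [hG] at h1
  rw [norm_mul, Complex.norm_exp, Complex.neg_re, Real.exp_neg] at h1
  have h2 : (FT (1 / 2)).re = ∑ j ∈ T, c j * (N j : ℝ) ^ (-(1 / 2) : ℝ) := by
    simp only [hFT]
    rw [Complex.re_sum]
    refine Finset.sum_congr rfl fun j _ => ?_
    have h3 : (N j : ℂ) ^ (-(1 / 2) : ℂ) = (((N j : ℝ) ^ (-(1 / 2) : ℝ) : ℝ) : ℂ) := by
      rw [Complex.ofReal_cpow (Nat.cast_nonneg _)]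
      push_cast
      rfl
    rw [h3, ← Complex.ofReal_mul, Complex.ofReal_re]
  rw [h2] at h1
  have h3 : 0 < Real.exp (∑ j ∈ T, c j * (N j : ℝ) ^ (-(1 / 2) : ℝ)) := Real.exp_pos _
  rw [← div_eq_mul_inv, one_le_div h3] at h1
  exact h1

end Pool.Agent.Work.MP_2b9663_nt.He
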