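import Pool.Agent.Work.MP_2b9663_nt.He.Landau

set_option autoImplicit false

/-!
The nonvanishing of the `L`-series of Hecke characters at `1`.
-/

namespace Pool.Agent.Work.MP_2b9663_nt.He

open NumberField Ideal Filter Topology IsDedekindDomain

lemma natpow_cpow (a k : ℕ) (z : ℂ) : ((a ^ k : ℕ) : ℂ) ^ z = ((a : ℂ) ^ z) ^ k := by
  induction k with
  | zero => simp
  | succ k ih =>
    rw [pow_succ, pow_succ, Nat.cast_mul, Complex.natCast_mul_natCast_cpow, ih]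

variable {K : Type} [Field K] [NumberField K] (ψ : HeckeChar K)

/-- the summands of the logarithm -/
noncomputable def lt (s : ℂ) (j : HeightOneSpectrum (𝓞 K) × ℕ) : ℂ :=
  ψ j.1.asIdeal ^ (j.2 + 1) / (j.2 + 1) * ((absNorm j.1.asIdeal ^ (j.2 + 1) : ℕ) : ℂ) ^ (-s)

lemma lt_eq (s : ℂ) (j : HeightOneSpectrum (𝓞 K) × ℕ) :
    lt ψ s j = hP ψ s j.1.asIdeal ^ (j.2 + 1) / (j.2 + 1) := by
  unfold lt hP
  rw [mul_pow, natpow_cpow]
  ring

lemma lt_summable {s : ℂ} (hs : 1 < s.re) :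
    Summable fun j : HeightOneSpectrum (𝓞 K) × ℕ => ‖lt ψ s j‖ := by
  have h0 : ∀ v : HeightOneSpectrum (𝓞 K), ‖hP ψ s v.asIdeal‖ ≤ 1 / 2 := hP_half ψ hs
  have h1 : ∀ j : HeightOneSpectrum (𝓞 K) × ℕ, ‖lt ψ s j‖ ≤
      ‖hP ψ s j.1.asIdeal‖ * (1 / 2) ^ j.2 := by
    intro j
    rw [lt_eq, norm_div, norm_pow, pow_succ]
    have h2 : ‖((j.2 : ℂ) + 1)‖ = (j.2 : ℝ) + 1 := by
      have : ((j.2 : ℂ) + 1) = ((j.2 + 1 : ℕ) : ℂ) := by push_cast; rfl
      rw [this, Complex.norm_natCast]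
      push_cast
      rfl
    rw [h2]
    have h3 : ‖hP ψ s j.1.asIdeal‖ ^ j.2 ≤ (1 / 2) ^ j.2 :=
      pow_le_pow_left₀ (norm_nonneg _) (h0 j.1) _
    have h4 : (1 : ℝ) ≤ (j.2 : ℝ) + 1 := by
      have : (0 : ℝ) ≤ j.2 := Nat.cast_nonneg _
      linarith
    refine (div_le_self (by positivity) h4).trans ?_
    rw [mul_comm]
    exact mul_le_mul_of_nonneg_left h3 (norm_nonneg _)
  have h2 : Summable fun j : HeightOneSpectrum (𝓞 K) × ℕ =>
      ‖hP ψ s j.1.asIdeal‖ * (1 / 2 : ℝ) ^ j.2 :=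
    (primes_summable (hP_summable ψ hs)).mul_of_nonneg
      (summable_geometric_of_lt_one (by norm_num) (by norm_num)) (fun _ => norm_nonneg _)
      fun _ => by positivity
  exact Summable.of_nonneg_of_le (fun _ => norm_nonneg _) h1 h2

/-- the logarithm as a sum over the powers of the primes -/
lemma lL_eq_tsum {s : ℂ} (hs : 1 < s.re) : lL ψ s = ∑' j, lt ψ s j := by
  have h1 := (lt_summable ψ hs).of_norm
  rw [h1.tsum_prod, lL, ← tsum_neg]
  refine tsum_congr fun v => ?_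
  have h2 : ‖hP ψ s v.asIdeal‖ < 1 := (hP_half ψ hs v).trans_lt (by norm_num)
  have h3 := Complex.hasSum_taylorSeries_neg_log h2
  rw [← h3.tsum_eq, h3.summable.tsum_eq_zero_add]
  simp only [pow_zero, Nat.cast_zero, div_zero, zero_add]
  refine tsum_congr fun k => ?_
  rw [lt_eq]
  push_cast
  rfl

/-- the values of quadratic characters -/
lemma quad_val (hq : ψ.Quad) (v : HeightOneSpectrum (𝓞 K)) :
    (v.asIdeal ⊔ ψ.cond ≠ ⊤ ∧ ψ v.asIdeal = 0) ∨
      (v.asIdeal ⊔ ψ.cond = ⊤ ∧ (ψ v.asIdeal = 1 ∨ ψ v.asIdeal = -1)) := by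
  by_cases h : v.asIdeal ⊔ ψ.cond = ⊤
  · right
    exact ⟨h, mul_self_eq_one_iff.1 (hq _ v.ne_bot h)⟩
  · left
    exact ⟨h, ψ.eq_zero _ h⟩

lemma triv_quad {M : Ideal (𝓞 K)} (hM : M ≠ ⊥) : (HeckeChar.triv M hM).Quad := by
  classical
  intro a _ h
  change (if a ⊔ M = ⊤ then (1 : ℂ) else 0) * (if a ⊔ M = ⊤ then (1 : ℂ) else 0) = 1
  have h' : a ⊔ M = ⊤ := h
  rw [if_pos h', mul_one]

lemma triv_apply {M : Ideal (𝓞 K)} (hM : M ≠ ⊥) (I : Ideal (𝓞 K)) :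
    open scoped Classical in
    (HeckeChar.triv M hM) I = if I ⊔ M = ⊤ then 1 else 0 := rfl

open scoped Classical in
/-- the coefficients of the logarithm -/
noncomputable def qc (j : HeightOneSpectrum (𝓞 K) × ℕ) : ℝ :=
  if j.1.asIdeal ⊔ ψ.cond = ⊤ then (1 + (ψ j.1.asIdeal).re ^ (j.2 + 1)) / (j.2 + 1) else 0

lemma qc_eq (hq : ψ.Quad) (j : HeightOneSpectrum (𝓞 K) × ℕ) : ((qc ψ j : ℝ) : ℂ) =
    (HeckeChar.triv ψ.cond ψ.cond_ne) j.1.asIdeal ^ (j.2 + 1) / (j.2 + 1) +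
      ψ j.1.asIdeal ^ (j.2 + 1) / (j.2 + 1) := by
  rw [triv_apply]
  unfold qc
  rcases quad_val ψ hq j.1 with ⟨h1, h2⟩ | ⟨h1, h2⟩
  · rw [if_neg h1, if_neg h1, h2]
    simp
  · rw [if_pos h1, if_pos h1]
    rcases h2 with h2 | h2
    · rw [h2]
      push_cast
      simp
      ring
    · rw [h2]
      push_cast
      simp
      ring

lemma qc_nonneg (hq : ψ.Quad) (j : HeightOneSpectrum (𝓞 K) × ℕ) : 0 ≤ qc ψ j := by
  unfold qc
  rcases quad_val ψ hq j.1 with ⟨h1, h2⟩ | ⟨h1, h2⟩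
  · rw [if_neg h1]
  · rw [if_pos h1]
    refine div_nonneg ?_ (by positivity)
    have h3 : -1 ≤ (ψ j.1.asIdeal).re ^ (j.2 + 1) := by
      rcases h2 with h2 | h2
      · rw [h2]; simp
      · rw [h2]
        have : ((-1 : ℂ)).re = -1 := by simp
        rw [this]
        rcases neg_one_pow_eq_or ℝ (j.2 + 1) with h | h
        · rw [h]; norm_num
        · rw [h]
    linarith

/-- **Nonvanishing at `1`** for quadratic characters. -/
theorem quad_ne_zero (hq : ψ.Quad) {F : ℂ → ℂ} (hF : DifferentiableOn ℂ F UU)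
    (hFe : ∀ s : ℂ, 1 < s.re → F s = LH ψ s) : F 1 ≠ 0 := by
  classical
  intro hF1
  set φ₀ := HeckeChar.triv ψ.cond ψ.cond_ne with hφ₀
  obtain ⟨Z, hZ, hZe⟩ := quad_continuation φ₀ (triv_quad ψ.cond_ne)
  set f : ℂ → ℂ := fun s => Z s * dslope F 1 s with hf
  have hfd : DifferentiableOn ℂ f UU :=
    hZ.mul ((Complex.differentiableOn_dslope (isOpen_UU.mem_nhds (by
      change (0 : ℝ) < (1 : ℂ).re; norm_num))).2 hF)
  set N : HeightOneSpectrum (𝓞 K) × ℕ → ℕ := fun j => absNorm j.1.asIdeal ^ (j.2 + 1) with hN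
  have hN0 : ∀ j, N j ≠ 0 := fun j => pow_ne_zero _ (by
    rw [Ne, Ideal.absNorm_eq_zero_iff]
    exact j.1.ne_bot)
  have hterm : ∀ (s : ℂ) (j : HeightOneSpectrum (𝓞 K) × ℕ),
      ((qc ψ j : ℝ) : ℂ) * (N j : ℂ) ^ (-s) = lt φ₀ s j + lt ψ s j := by
    intro s j
    rw [qc_eq ψ hq, lt, lt]
    ring
  have hsn : ∀ s : ℂ, 1 < s.re → Summable fun j => ‖((qc ψ j : ℝ) : ℂ) * (N j : ℂ) ^ (-s)‖ := by
    intro s hs
    refine Summable.of_nonneg_of_le (fun _ => norm_nonneg _) (fun j => ?_)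
      ((lt_summable φ₀ hs).add (lt_summable ψ hs))
    rw [hterm]
    exact norm_add_le _ _
  have hfe : ∀ s : ℂ, 1 < s.re → f s =
      Complex.exp (∑' j, ((qc ψ j : ℝ) : ℂ) * (N j : ℂ) ^ (-s)) := by
    intro s hs
    have h1 : dslope F 1 s * (s - 1) = F s := by
      have := sub_smul_dslope F 1 s
      rw [hF1, sub_zero, smul_eq_mul] at this
      rw [← this]
      ring
    have h2 : f s = LH φ₀ s * LH ψ s := by
      simp only [hf]
      rw [hZe s hs, ← hFe s hs, ← h1]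
      ring
    rw [h2, LH_eq_exp φ₀ hs, LH_eq_exp ψ hs, ← Complex.exp_add, lL_eq_tsum φ₀ hs,
      lL_eq_tsum ψ hs, ← (lt_summable φ₀ hs).of_norm.tsum_add (lt_summable ψ hs).of_norm]
    congr 1
    exact tsum_congr fun j => (hterm s j).symm
  have key := landau (N := N) (c := qc ψ) hN0 (qc_nonneg ψ hq) (fun σ hσ => by
    have h1 := hsn (σ : ℂ) (by rw [Complex.ofReal_re]; exact hσ)
    simp only [norm_term hN0 (qc_nonneg ψ hq), Complex.ofReal_re] at h1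
    exact h1) hfd hfe
  -- the sum over the squares of the primes diverges
  refine not_summable_inv K ψ.cond_ne ?_
  have hbound : ∀ T : Finset (HeightOneSpectrum (𝓞 K)),
      ∑ v ∈ T, (if v.asIdeal ⊔ ψ.cond = ⊤ then (qn v)⁻¹ else 0) ≤ ‖f (1 / 2)‖ := by
    intro T
    have h1 := key (T.map ⟨fun v => (v, 1), fun a b h => (Prod.ext_iff.1 h).1⟩)
    rw [Finset.sum_map] at h1
    have h2 : ∀ v ∈ T, (if v.asIdeal ⊔ ψ.cond = ⊤ then (qn v)⁻¹ else 0) =
        qc ψ (v, 1) * (N (v, 1) : ℝ) ^ (-(1 / 2) : ℝ) := by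
      intro v _
      unfold qc
      by_cases hv : v.asIdeal ⊔ ψ.cond = ⊤
      · rw [if_pos hv, if_pos hv]
        have h3 : (ψ v.asIdeal).re ^ (1 + 1) = 1 := by
          rcases quad_val ψ hq v with ⟨h4, -⟩ | ⟨-, h4 | h4⟩
          · exact absurd hv h4
          · rw [h4]; simp
          · rw [h4]; simp
        have h5 : (N (v, 1) : ℝ) ^ (-(1 / 2) : ℝ) = (qn v)⁻¹ := by
          simp only [hN]
          rw [Nat.cast_pow]
          change (qn v ^ (1 + 1)) ^ (-(1 / 2) : ℝ) = _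
          rw [← Real.rpow_natCast, ← Real.rpow_mul (qn_pos v).le, ← Real.rpow_neg_one]
          congr 1
          norm_num
        rw [h5]
        simp only [h3]
        norm_num
      · rw [if_neg hv, if_neg hv, zero_mul]
    rw [Finset.sum_congr rfl h2]
    refine le_trans ?_ ((Real.add_one_le_exp _).trans h1)
    simp
  refine summable_of_sum_le (fun v => ?_) hbound
  split_ifs
  · exact inv_nonneg.2 (qn_pos v).le
  · exact le_rfl

/-- real points near `1` -/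
lemma tendsto_one_add : Tendsto (fun ε : ℝ => (((1 + ε : ℝ) : ℂ))) (𝓝[>] 0) (𝓝 1) := by
  have h1 : Tendsto (fun ε : ℝ => (((1 + ε : ℝ) : ℂ))) (𝓝 0) (𝓝 (((1 + 0 : ℝ) : ℂ))) :=
    (Complex.continuous_ofReal.comp (continuous_const.add continuous_id)).tendsto 0
  rw [add_zero, Complex.ofReal_one] at h1
  exact h1.mono_left nhdsWithin_le_nhds

lemma re_one_add {ε : ℝ} (hε : 0 < ε) : 1 < (((1 + ε : ℝ) : ℂ)).re := by
  rw [Complex.ofReal_re]
  linarith

/-- a function bounded from above near `0` -/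
lemma log_norm_upper {F : ℂ → ℂ} (hF : AnalyticAt ℂ F 1)
    (hFe : ∀ s : ℂ, 1 < s.re → F s = LH ψ s) :
    ∃ C : ℝ, ∀ᶠ ε : ℝ in 𝓝[>] 0, (TP ψ ((1 + ε : ℝ) : ℂ)).re ≤ C := by
  have h1 := (hF.continuousAt.tendsto.comp tendsto_one_add).norm
  have h2 := h1.eventually (gt_mem_nhds (lt_add_one _))
  refine ⟨‖F 1‖ + 1 + PK K, ?_⟩
  filter_upwards [h2, self_mem_nhdsWithin] with ε h3 hε
  have hs := re_one_add hε
  simp only [Function.comp_apply] at h3
  rw [hFe _ hs] at h3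
  have h4 := (abs_le.1 (log_norm_LH ψ hs)).1
  have h5 : Real.log ‖LH ψ ((1 + ε : ℝ) : ℂ)‖ ≤ ‖LH ψ ((1 + ε : ℝ) : ℂ)‖ - 1 :=
    Real.log_le_sub_one_of_pos (norm_pos_iff.2 (LH_ne_zero ψ hs))
  linarith

/-- the inequality `3 + 4 cos + cos ≥ 0` -/
lemma three_four_one {ε : ℝ} (hε : 0 < ε) :
    0 ≤ 3 * SQ K (1 + ε) + 4 * (TP ψ ((1 + ε : ℝ) : ℂ)).re +
      (TP (ψ.mul ψ) ((1 + ε : ℝ) : ℂ)).re := by
  have hs := re_one_add hε
  have h1 := qn_summable (K := K) (σ := 1 + ε) (by linarith)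
  have h2 := (primes_summable (hP_summable ψ hs)).of_norm
  have h3 := (primes_summable (hP_summable (ψ.mul ψ) hs)).of_norm
  have h2' := Complex.hasSum_re h2.hasSum
  have h3' := Complex.hasSum_re h3.hasSum
  have h4 := ((h1.hasSum.mul_left 3).add (h2'.mul_left 4)).add h3'
  refine h4.nonneg fun v => ?_
  have h5 : ∀ φ : HeckeChar K, (hP φ ((1 + ε : ℝ) : ℂ) v.asIdeal).re =
      (φ v.asIdeal).re * qn v ^ (-(1 + ε)) := by
    intro φ
    unfold hP
    have h6 : (absNorm v.asIdeal : ℂ) ^ (-((1 + ε : ℝ) : ℂ)) =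
        ((qn v ^ (-(1 + ε)) : ℝ) : ℂ) := by
      rw [Complex.ofReal_cpow (qn_pos v).le]
      unfold qn
      push_cast
      rfl
    rw [h6, Complex.re_mul_ofReal]
  rw [h5, h5]
  have h6 : (ψ.mul ψ) v.asIdeal = ψ v.asIdeal * ψ v.asIdeal := rfl
  rw [h6, Complex.mul_re]
  have h7 : 0 ≤ qn v ^ (-(1 + ε)) := Real.rpow_nonneg (qn_pos v).le _
  have h8 : (ψ v.asIdeal).re ^ 2 + (ψ v.asIdeal).im ^ 2 ≤ 1 := by
    have h9 := ψ.norm_le_one v.ne_bot
    have h10 : ‖ψ v.asIdeal‖ ^ 2 ≤ 1 := by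
      have := pow_le_pow_left₀ (norm_nonneg _) h9 2
      simpa using this
    rw [← Complex.normSq_eq_norm_sq, Complex.normSq_apply] at h10
    nlinarith
  have h9 : 0 ≤ 3 + 4 * (ψ v.asIdeal).re +
      ((ψ v.asIdeal).re * (ψ v.asIdeal).re - (ψ v.asIdeal).im * (ψ v.asIdeal).im) := by
    nlinarith [sq_nonneg ((ψ v.asIdeal).re + 1)]
  nlinarith [mul_nonneg h9 h7]

/-- **Nonvanishing at `1`.** -/
theorem exists_F (hnt : ψ.Nontriv) :
    ∃ F : ℂ → ℂ, AnalyticAt ℂ F 1 ∧ F 1 ≠ 0 ∧ ∀ s : ℂ, 1 < s.re → F s = LH ψ s := by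
  by_cases hq : ψ.Quad
  · obtain ⟨F, hF, hFe⟩ := quad_nontriv_continuation ψ hq hnt
    exact ⟨F, hF.analyticAt (isOpen_UU.mem_nhds (by change (0 : ℝ) < (1 : ℂ).re; norm_num)),
      quad_ne_zero ψ hq hF hFe, hFe⟩
  · obtain ⟨F, hF, hFe⟩ := analytic_one ψ hnt
    refine ⟨F, hF, fun hF1 => ?_, hFe⟩
    have hnt2 : (ψ.mul ψ).Nontriv := by
      unfold HeckeChar.Quad at hq
      push Not at hq
      obtain ⟨a, ha0, ha, hne⟩ := hq
      exact ⟨a, ha0, by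
        change a ⊔ ψ.cond * ψ.cond = ⊤
        rw [sup_comm] at ha ⊢
        exact coprime_mul ha ha, hne⟩
    obtain ⟨F2, hF2, hF2e⟩ := analytic_one _ hnt2
    obtain ⟨C2, hC2⟩ := log_norm_upper _ hF2 hF2e
    obtain ⟨C1, hC1⟩ := SQ_log K
    -- the zero
    have hO : F =O[𝓝 1] fun s => s - 1 := by
      have := hF.differentiableAt.isBigO_sub
      simpa [hF1] using this
    obtain ⟨C, hC⟩ := hO.bound
    have h1 := tendsto_one_add.eventually hC
    have h2 : Tendsto (fun ε : ℝ => -Real.log ε) (𝓝[>] 0) atTop :=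
      tendsto_neg_atBot_atTop.comp Real.tendsto_log_nhdsGT_zero
    set B : ℝ := 3 * C1 + 4 * (Real.log (|C| + 1) + PK K) + C2 with hB
    obtain ⟨ε, ⟨h3, h4⟩, h5, h6, hε⟩ := ((h1.and (h2.eventually_gt_atTop B)).and
      (hC1.and (hC2.and self_mem_nhdsWithin))).exists
    have hε0 : (0 : ℝ) < ε := hε
    have hs := re_one_add hε0
    rw [hFe _ hs] at h3
    have h7 : ‖(((1 + ε : ℝ) : ℂ) - 1)‖ = ε := by
      have : (((1 + ε : ℝ) : ℂ) - 1) = ((ε : ℝ) : ℂ) := by push_cast; ring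
      rw [this, Complex.norm_real, Real.norm_of_nonneg hε0.le]
    rw [h7] at h3
    have h8 : Real.log ‖LH ψ ((1 + ε : ℝ) : ℂ)‖ ≤ Real.log (|C| + 1) + Real.log ε := by
      rw [← Real.log_mul (by positivity) hε0.ne']
      refine Real.log_le_log (norm_pos_iff.2 (LH_ne_zero ψ hs)) (h3.trans ?_)
      exact mul_le_mul_of_nonneg_right ((le_abs_self C).trans (by linarith)) hε0.le
    have h9 := (abs_le.1 (log_norm_LH ψ hs)).1
    have h10 := three_four_one ψ hε0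
    have h11 := (abs_le.1 h5).2
    linarith

/-- **The sum over the primes is bounded near `1`** for nontrivial characters. -/
theorem TP_bounded (hnt : ψ.Nontriv) :
    ∃ C : ℝ, ∀ᶠ ε : ℝ in 𝓝[>] 0, |(TP ψ ((1 + ε : ℝ) : ℂ)).re| ≤ C := by
  obtain ⟨F, hF, hF1, hFe⟩ := exists_F ψ hnt
  have h1 := (hF.continuousAt.tendsto.comp tendsto_one_add).norm.log (norm_ne_zero_iff.2 hF1)
  have h2 := h1.abs.eventually (gt_mem_nhds (lt_add_one _))
  refine ⟨|Real.log ‖F 1‖| + 1 + PK K, ?_⟩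
  filter_upwards [h2, self_mem_nhdsWithin] with ε h3 hε
  have hs := re_one_add hε
  simp only [Function.comp_apply] at h3
  rw [hFe _ hs] at h3
  have h4 := abs_le.1 (log_norm_LH ψ hs)
  have h5 := abs_lt.1 h3
  rw [abs_le]
  constructor <;> linarith [h4.1, h4.2, h5.1, h5.2]

end Pool.Agent.Work.MP_2b9663_nt.He
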