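import Pool.Agent.Work.MP_2b9663_nt.He.MeanK

set_option autoImplicit false

/-!
The order at `s₀` of the continuation of Euler products over number fields.
-/

namespace Pool.Agent.Work.MP_2b9663_nt.He

open NumberField Ideal Filter Topology IsDedekindDomain

section One

variable {K : Type} [Field K] [NumberField K]

open scoped Classical in
/-- the normalised traces -/
noncomputable def nk (S : Finset (HeightOneSpectrum (𝓞 K))) (t : HeightOneSpectrum (𝓞 K) → ℕ → ℂ)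
    (i : ℕ) (v : HeightOneSpectrum (𝓞 K)) : ℂ :=
  if v ∈ S then 0 else t v 1 / ((Real.sqrt (qn v) ^ i : ℝ) : ℂ)

variable {S : Finset (HeightOneSpectrum (𝓞 K))} {t : HeightOneSpectrum (𝓞 K) → ℕ → ℂ} {i : ℕ}
  {B : ℝ}

lemma nk_norm_le (hB : 0 ≤ B) (h : WeilK S t i B) (v : HeightOneSpectrum (𝓞 K)) :
    ‖nk S t i v‖ ≤ B := by
  unfold nk
  split_ifs with hv
  · rw [norm_zero]; exact hB
  · have h1 := h v hv 1 one_ne_zero
    rw [pow_one] at h1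
    change ‖t v 1‖ ≤ B * Real.sqrt (qn v) ^ i at h1
    have hs : 0 < Real.sqrt (qn v) ^ i := pow_pos (Real.sqrt_pos.mpr (qn_pos v)) i
    rw [norm_div, Complex.norm_real, Real.norm_eq_abs, abs_of_pos hs, div_le_iff₀ hs]
    exact h1

lemma nk_BK (hB : 0 ≤ B) (h : WeilK S t i B) : BK fun v => (nk S t i v).re :=
  ⟨B, fun v => (Complex.abs_re_le_norm _).trans (nk_norm_le hB h v)⟩

/-- the point `s₀ + ε` -/
noncomputable def spt (i : ℕ) (ε : ℝ) : ℂ := (((i : ℝ) / 2 + 1 + ε : ℝ) : ℂ)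

lemma spt_re (i : ℕ) (ε : ℝ) : (spt i ε).re = (i : ℝ) / 2 + 1 + ε := Complex.ofReal_re _

lemma sqrt_mul_rpow {q : ℝ} (hp : 0 < q) (i k : ℕ) (ε : ℝ) :
    Real.sqrt (q ^ k) ^ i * q ^ (-((k : ℝ) * ((i : ℝ) / 2 + 1 + ε))) =
      q ^ (-((k : ℝ) * (1 + ε))) := by
  have h1 : Real.sqrt (q ^ k) ^ i = q ^ ((k : ℝ) * ((i : ℝ) / 2)) := by
    rw [Real.sqrt_eq_rpow, ← Real.rpow_natCast, ← Real.rpow_natCast, ← Real.rpow_mul hp.le,
      ← Real.rpow_mul hp.le]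
    congr 1
    ring
  rw [h1, ← Real.rpow_add hp]
  congr 1
  ring

lemma absNorm_pos' (v : HeightOneSpectrum (𝓞 K)) : 0 < absNorm v.asIdeal := by
  rw [Nat.pos_iff_ne_zero, Ne, Ideal.absNorm_eq_zero_iff]
  exact v.ne_bot

lemma term_norm' (v : HeightOneSpectrum (𝓞 K)) (i k : ℕ) (ε : ℝ) (a : ℂ) :
    ‖a * (absNorm v.asIdeal : ℂ) ^ (-(((k + 1 : ℕ) : ℂ) * spt i ε)) / ((k + 1 : ℕ) : ℂ)‖ =
      ‖a‖ * qn v ^ (-(((k + 1 : ℕ) : ℝ) * ((i : ℝ) / 2 + 1 + ε))) / ((k + 1 : ℕ) : ℝ) := by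
  rw [norm_div, norm_mul, Complex.norm_natCast, Complex.norm_natCast_cpow_of_pos (absNorm_pos' v)]
  congr 3
  rw [Complex.neg_re, spt, ← Complex.ofReal_natCast, ← Complex.ofReal_mul, Complex.ofReal_re]

lemma term_le' (hB : 0 ≤ B) (h : WeilK S t i B) {v : HeightOneSpectrum (𝓞 K)} (hv : v ∉ S) {ε : ℝ}
    (hε : 0 < ε) (k : ℕ) :
    ‖t v (k + 1) * (absNorm v.asIdeal : ℂ) ^ (-(((k + 1 : ℕ) : ℂ) * spt i ε)) /
      ((k + 1 : ℕ) : ℂ)‖ ≤ B * ((qn v)⁻¹) ^ (k + 1) := by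
  have hp0 := qn_pos v
  have hp1 : (1 : ℝ) ≤ qn v := by linarith [two_le_qn v]
  rw [term_norm']
  have h1 : ‖t v (k + 1)‖ ≤ B * Real.sqrt (qn v ^ (k + 1)) ^ i := h v hv (k + 1) (by omega)
  have h2 := mul_le_mul_of_nonneg_right h1
    (Real.rpow_nonneg hp0.le (-(((k + 1 : ℕ) : ℝ) * ((i : ℝ) / 2 + 1 + ε))))
  rw [mul_assoc, sqrt_mul_rpow hp0] at h2
  have h3 : qn v ^ (-(((k + 1 : ℕ) : ℝ) * (1 + ε))) ≤ ((qn v)⁻¹) ^ (k + 1) := by
    rw [← Real.rpow_neg_one, ← Real.rpow_natCast, ← Real.rpow_mul hp0.le]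
    apply Real.rpow_le_rpow_of_exponent_le hp1
    have : (0 : ℝ) ≤ ((k + 1 : ℕ) : ℝ) * ε := by positivity
    nlinarith
  have h4 : (1 : ℝ) ≤ ((k + 1 : ℕ) : ℝ) := by exact_mod_cast Nat.le_add_left 1 k
  refine (div_le_self ?_ h4).trans (h2.trans (mul_le_mul_of_nonneg_left h3 hB))
  have := qpow_nonneg v (-(((k + 1 : ℕ) : ℝ) * ((i : ℝ) / 2 + 1 + ε)))
  positivity

lemma inv_qn_le (v : HeightOneSpectrum (𝓞 K)) : (qn v)⁻¹ ≤ 1 / 2 := by
  rw [one_div]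
  exact inv_anti₀ (by norm_num) (two_le_qn v)

/-- The logarithm of the Euler factor differs little from its first term. -/
lemma logK_sub (hB : 0 ≤ B) (h : WeilK S t i B) {v : HeightOneSpectrum (𝓞 K)} (hv : v ∉ S) {ε : ℝ}
    (hε : 0 < ε) :
    ‖logK (t v) (absNorm v.asIdeal) (spt i ε) - nk S t i v * ((qn v ^ (-(1 + ε)) : ℝ) : ℂ)‖ ≤
      2 * B * qn v ^ (-2 : ℝ) := by
  have hp0 := qn_pos v
  set u : ℕ → ℂ := fun k => t v (k + 1) *
    (absNorm v.asIdeal : ℂ) ^ (-(((k + 1 : ℕ) : ℂ) * spt i ε)) / ((k + 1 : ℕ) : ℂ) with hu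
  have hx0 : (0 : ℝ) ≤ (qn v)⁻¹ := by positivity
  have hx1 : (qn v)⁻¹ < 1 := (inv_qn_le v).trans_lt (by norm_num)
  have hgeo := summable_geometric_of_lt_one hx0 hx1
  have hle : ∀ k, ‖u k‖ ≤ B * ((qn v)⁻¹) ^ (k + 1) := fun k => term_le' hB h hv hε k
  have hsum : Summable u := by
    refine Summable.of_norm_bounded (g := fun k => B * ((qn v)⁻¹) ^ (k + 1)) ?_ hle
    refine (hgeo.mul_left (B * (qn v)⁻¹)).congr fun k => ?_
    rw [pow_succ]
    ring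
  have h0 : u 0 = nk S t i v * ((qn v ^ (-(1 + ε)) : ℝ) : ℂ) := by
    have h1 := sqrt_mul_rpow hp0 i 1 ε
    rw [pow_one, Nat.cast_one, one_mul, one_mul] at h1
    have hs : ((Real.sqrt (qn v) ^ i : ℝ) : ℂ) ≠ 0 := by
      exact_mod_cast (pow_pos (Real.sqrt_pos.mpr hp0) i).ne'
    have h2 : ((qn v ^ (-((i : ℝ) / 2 + 1 + ε)) : ℝ) : ℂ) =
        (absNorm v.asIdeal : ℂ) ^ (-(spt i ε)) := by
      rw [Complex.ofReal_cpow hp0.le, spt]
      unfold qn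
      push_cast
      rfl
    simp only [hu]
    rw [zero_add, Nat.cast_one, one_mul, div_one, ← h2, ← h1, nk, if_neg hv, Complex.ofReal_mul]
    field_simp
  have h1 : logK (t v) (absNorm v.asIdeal) (spt i ε) = u 0 + ∑' k, u (k + 1) :=
    hsum.tsum_eq_zero_add
  rw [h1, h0, add_sub_cancel_left]
  have hsum1 : Summable (fun k => B * ((qn v)⁻¹) ^ (k + 1 + 1)) := by
    refine (hgeo.mul_left (B * (qn v)⁻¹ ^ 2)).congr fun k => ?_
    rw [pow_succ, pow_succ]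
    ring
  refine (tsum_of_norm_bounded hsum1.hasSum fun k => hle (k + 1)).trans ?_
  have h3 : ∑' k : ℕ, B * ((qn v)⁻¹) ^ (k + 1 + 1) =
      B * ((qn v)⁻¹) ^ 2 * (1 - (qn v)⁻¹)⁻¹ := by
    rw [← tsum_geometric_of_lt_one hx0 hx1, ← tsum_mul_left]
    refine tsum_congr fun k => ?_
    rw [pow_succ, pow_succ]
    ring
  rw [h3]
  have h4 : (1 - (qn v)⁻¹)⁻¹ ≤ 2 := by
    rw [inv_le_comm₀ (by linarith) (by norm_num)]
    have := inv_qn_le v
    linarith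
  have h5 : qn v ^ (-2 : ℝ) = ((qn v)⁻¹) ^ 2 := by
    rw [Real.rpow_neg hp0.le, inv_pow]
    norm_num
  rw [h5]
  calc B * ((qn v)⁻¹) ^ 2 * (1 - (qn v)⁻¹)⁻¹ ≤ B * ((qn v)⁻¹) ^ 2 * 2 := by
        gcongr
    _ = _ := by ring

lemma qn2_summable : Summable fun v : HeightOneSpectrum (𝓞 K) => qn v ^ (-2 : ℝ) :=
  qn_summable one_lt_two

/-- The logarithm of the Euler product. -/
lemma log_productK (hB : 0 ≤ B) (h : WeilK S t i B) (T : Finset (HeightOneSpectrum (𝓞 K)))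
    (hT : S ⊆ T) {ε : ℝ} (hε : 0 < ε) :
    |(∑' v : {v : HeightOneSpectrum (𝓞 K) // v ∉ T}, logK (t v) (absNorm v.1.asIdeal) (spt i ε)).re -
      SR (fun v => (nk S t i v).re) ε| ≤ 2 * B * PK K + T.card * B := by
  have hnt : ∀ v, |(nk S t i v).re| ≤ B := fun v =>
    (Complex.abs_re_le_norm _).trans (nk_norm_le hB h v)
  have hG : ∀ v : {v : HeightOneSpectrum (𝓞 K) // v ∉ T}, v.1 ∉ S := fun v hv => v.2 (hT hv)
  set w : HeightOneSpectrum (𝓞 K) → ℂ := fun v =>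
    nk S t i v * ((qn v ^ (-(1 + ε)) : ℝ) : ℂ) with hw
  set u : HeightOneSpectrum (𝓞 K) → ℝ := fun v => (nk S t i v).re * qn v ^ (-(1 + ε)) with hu
  have hwv : ∀ v, (w v).re = u v := fun v => by
    simp only [hw, hu]
    rw [Complex.re_mul_ofReal]
  have hvs : Summable u := SR_summable (nk_BK hB h) hε
  have hvs' : Summable (fun v : {v : HeightOneSpectrum (𝓞 K) // v ∉ T} => u v) := hvs.subtype _
  have hws : Summable w := by
    refine Summable.of_norm_bounded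
      ((qn_summable (K := K) (σ := 1 + ε) (by linarith)).mul_left B) fun v => ?_
    simp only [hw]
    rw [norm_mul, Complex.norm_real, Real.norm_eq_abs, abs_of_nonneg (qpow_nonneg v _)]
    exact mul_le_mul_of_nonneg_right (nk_norm_le hB h v) (qpow_nonneg v _)
  have hvc : Summable (fun v : {v : HeightOneSpectrum (𝓞 K) // v ∉ T} => w v) := hws.subtype _
  have hdiff : ∀ v : {v : HeightOneSpectrum (𝓞 K) // v ∉ T},
      ‖logK (t v) (absNorm v.1.asIdeal) (spt i ε) - w v‖ ≤ 2 * B * qn v.1 ^ (-2 : ℝ) :=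
    fun v => logK_sub hB h (hG v) hε
  have hP2 : Summable (fun v : {v : HeightOneSpectrum (𝓞 K) // v ∉ T} =>
      2 * B * qn v.1 ^ (-2 : ℝ)) := (qn2_summable.mul_left (2 * B)).subtype _
  have hds : Summable (fun v : {v : HeightOneSpectrum (𝓞 K) // v ∉ T} =>
      logK (t v) (absNorm v.1.asIdeal) (spt i ε) - w v) := Summable.of_norm_bounded hP2 hdiff
  have e1 : (∑' v : {v : HeightOneSpectrum (𝓞 K) // v ∉ T},
      logK (t v) (absNorm v.1.asIdeal) (spt i ε)) =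
      (∑' v : {v : HeightOneSpectrum (𝓞 K) // v ∉ T},
        (logK (t v) (absNorm v.1.asIdeal) (spt i ε) - w v)) +
      ∑' v : {v : HeightOneSpectrum (𝓞 K) // v ∉ T}, w v := by
    rw [← hds.tsum_add hvc]
    refine tsum_congr fun v => ?_
    ring
  have e2 : SR (fun v => (nk S t i v).re) ε =
      ∑ v ∈ T, u v + ∑' v : {v : HeightOneSpectrum (𝓞 K) // v ∉ T}, u v :=
    (hvs.sum_add_tsum_subtype_compl T).symm
  have e4 : (∑' v : {v : HeightOneSpectrum (𝓞 K) // v ∉ T}, w v).re =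
      ∑' v : {v : HeightOneSpectrum (𝓞 K) // v ∉ T}, u v := by
    rw [Complex.re_tsum hvc]
    exact tsum_congr fun v => hwv v
  rw [e1, e2, Complex.add_re, e4]
  have e3 : ∀ a b c : ℝ, a + b - (c + b) = a - c := fun a b c => by ring
  rw [e3]
  refine (abs_sub _ _).trans (add_le_add ?_ ?_)
  · refine (Complex.abs_re_le_norm _).trans ?_
    refine (tsum_of_norm_bounded hP2.hasSum hdiff).trans ?_
    rw [PK, ← tsum_mul_left]
    refine (qn2_summable.mul_left (2 * B)).tsum_subtype_le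
      (fun v : HeightOneSpectrum (𝓞 K) => 2 * B * qn v ^ (-2 : ℝ)) _ ?_
    intro v
    have := qpow_nonneg v (-2 : ℝ)
    positivity
  · refine (Finset.abs_sum_le_sum_abs _ _).trans ?_
    rw [← nsmul_eq_mul]
    refine Finset.sum_le_card_nsmul _ _ _ fun v _ => ?_
    simp only [hu]
    rw [abs_mul, abs_of_nonneg (qpow_nonneg v _)]
    refine (mul_le_of_le_one_right (abs_nonneg _) ?_).trans (hnt v)
    exact Real.rpow_le_one_of_one_le_of_nonpos (by linarith [two_le_qn v]) (by linarith)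

end One

section Path

variable (i : ℕ)

lemma spt_eq (ε : ℝ) : spt i ε = ((i : ℂ) / 2 + 1) + ε := by
  rw [spt]
  push_cast
  ring

lemma spt_path : Tendsto (fun ε : ℝ => spt i ε) (𝓝[>] 0) (𝓝[≠] ((i : ℂ) / 2 + 1)) := by
  rw [tendsto_nhdsWithin_iff]
  constructor
  · have h1 : Tendsto (fun ε : ℝ => ((i : ℂ) / 2 + 1) + (ε : ℂ)) (𝓝 0)
        (𝓝 (((i : ℂ) / 2 + 1) + ((0 : ℝ) : ℂ))) := Continuous.tendsto (by fun_prop) 0
    rw [Complex.ofReal_zero, add_zero] at h1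
    refine (h1.mono_left nhdsWithin_le_nhds).congr fun ε => ?_
    rw [spt_eq]
  · filter_upwards [self_mem_nhdsWithin] with ε hε0
    have hε : (0 : ℝ) < ε := hε0
    rw [Set.mem_compl_iff, Set.mem_singleton_iff, spt_eq]
    intro h1
    have h2 : (ε : ℂ) = 0 := by linear_combination h1
    rw [Complex.ofReal_eq_zero] at h2
    exact hε.ne' h2

lemma bound_of_cont {g : ℂ → ℂ} (hg : ContinuousAt g ((i : ℂ) / 2 + 1))
    (hg0 : g ((i : ℂ) / 2 + 1) ≠ 0) :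
    ∃ A : ℝ, ∀ᶠ ε : ℝ in 𝓝[>] 0, g (spt i ε) ≠ 0 ∧ |Real.log ‖g (spt i ε)‖| ≤ A := by
  have hpath' : Tendsto (fun ε : ℝ => spt i ε) (𝓝[>] 0) (𝓝 ((i : ℂ) / 2 + 1)) :=
    (spt_path i).mono_right nhdsWithin_le_nhds
  have h1 : Tendsto (fun ε : ℝ => ‖g (spt i ε)‖) (𝓝[>] 0) (𝓝 ‖g ((i : ℂ) / 2 + 1)‖) :=
    (hg.tendsto.comp hpath').norm
  have hA : 0 < ‖g ((i : ℂ) / 2 + 1)‖ := norm_pos_iff.mpr hg0
  have h2 := (Real.continuousAt_log hA.ne').tendsto.comp h1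
  have h3 := h2.abs.eventually (gt_mem_nhds (lt_add_one |Real.log ‖g ((i : ℂ) / 2 + 1)‖|))
  have h4 := h1.eventually (lt_mem_nhds hA)
  refine ⟨|Real.log ‖g ((i : ℂ) / 2 + 1)‖| + 1, ?_⟩
  filter_upwards [h3, h4] with ε h5 h6
  exact ⟨norm_pos_iff.mp h6, h5.le⟩

variable {i}

/-- the logarithm of an Euler product near `s₀` -/
theorem log_euler {K : Type} [Field K] [NumberField K] {S : Finset (HeightOneSpectrum (𝓞 K))}
    {t : HeightOneSpectrum (𝓞 K) → ℕ → ℂ} {B : ℝ} (hB : 0 ≤ B) (h : WeilK S t i B) {E : ℂ → ℂ}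
    (hE : IsEulerK S t i E) :
    ∃ C : ℝ, ∀ᶠ ε : ℝ in 𝓝[>] 0, E (spt i ε) ≠ 0 ∧
      |Real.log ‖E (spt i ε)‖ - SR (fun v => (nk S t i v).re) ε| ≤ C := by
  obtain ⟨T, Q, hT, hQ, hprod⟩ := hE
  set ψ : ℂ → ℂ := fun s => ∏ v ∈ T, ((Q v).eval ((absNorm v.asIdeal : ℂ) ^ (-s)))⁻¹ with hψ
  have hψ0 : ψ ((i : ℂ) / 2 + 1) ≠ 0 :=
    Finset.prod_ne_zero_iff.mpr fun v hv => inv_ne_zero (hQ v hv)
  have hψc : ContinuousAt ψ ((i : ℂ) / 2 + 1) := by
    refine tendsto_finsetProd _ fun v hv => ?_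
    refine ContinuousAt.inv₀ ?_ (hQ v hv)
    have hp0 : (absNorm v.asIdeal : ℂ) ≠ 0 := by exact_mod_cast (absNorm_pos' v).ne'
    have h1 : Continuous (fun s : ℂ => (Q v).eval ((absNorm v.asIdeal : ℂ) ^ (-s))) := by
      refine (Q v).continuous.comp ?_
      refine Continuous.const_cpow (by fun_prop) (Or.inl hp0)
    exact h1.continuousAt
  obtain ⟨A, hA⟩ := bound_of_cont i hψc hψ0
  refine ⟨A + (2 * B * PK K + T.card * B), ?_⟩
  filter_upwards [hA, self_mem_nhdsWithin] with ε h1 hε0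
  have hε : (0 : ℝ) < ε := hε0
  have hval := hprod (spt i ε) (by rw [spt_re]; linarith)
  set Z := ∑' v : {v : HeightOneSpectrum (𝓞 K) // v ∉ T},
    logK (t v) (absNorm v.1.asIdeal) (spt i ε) with hZ
  have hval' : E (spt i ε) = ψ (spt i ε) * Complex.exp Z := hval
  refine ⟨by rw [hval']; exact mul_ne_zero h1.1 (Complex.exp_ne_zero _), ?_⟩
  rw [hval', norm_mul, Complex.norm_exp, Real.log_mul (norm_ne_zero_iff.mpr h1.1)
    (Real.exp_pos _).ne', Real.log_exp]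
  have h4 := log_productK hB h T hT hε
  have h5 : Real.log ‖ψ (spt i ε)‖ + Z.re - SR (fun v => (nk S t i v).re) ε =
      Real.log ‖ψ (spt i ε)‖ + (Z.re - SR (fun v => (nk S t i v).re) ε) := by ring
  rw [h5]
  exact (abs_add_le _ _).trans (add_le_add h1.2 h4)

/-- the logarithm of a meromorphic function near `s₀` -/
theorem log_mero {F : ℂ → ℂ} (hm : MeromorphicAt F ((i : ℂ) / 2 + 1))
    (h0 : ∀ᶠ ε : ℝ in 𝓝[>] 0, F (spt i ε) ≠ 0) :
    ∃ n : ℤ, meromorphicOrderAt F ((i : ℂ) / 2 + 1) = n ∧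
      ∃ C : ℝ, ∀ᶠ ε : ℝ in 𝓝[>] 0, |Real.log ‖F (spt i ε)‖ - n * Real.log ε| ≤ C := by
  have hfin : meromorphicOrderAt F ((i : ℂ) / 2 + 1) ≠ ⊤ := by
    intro htop
    rw [meromorphicOrderAt_eq_top_iff] at htop
    obtain ⟨ε, h2, h3⟩ := (((spt_path i).eventually htop).and h0).exists
    exact h3 h2
  obtain ⟨n, hn⟩ := WithTop.ne_top_iff_exists.mp hfin
  refine ⟨n, hn.symm, ?_⟩
  obtain ⟨g, hg, hg0, hFg⟩ := (meromorphicOrderAt_eq_int_iff hm).mp hn.symm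
  obtain ⟨A', hA'⟩ := bound_of_cont i hg.continuousAt hg0
  refine ⟨A', ?_⟩
  filter_upwards [hA', (spt_path i).eventually hFg, self_mem_nhdsWithin] with ε h2 h3 hε0
  have hε : (0 : ℝ) < ε := hε0
  have h7 : spt i ε - ((i : ℂ) / 2 + 1) = (ε : ℂ) := by rw [spt_eq]; ring
  rw [h3, h7, smul_eq_mul, norm_mul, norm_zpow, Complex.norm_real, Real.norm_eq_abs,
    abs_of_pos hε, Real.log_mul (zpow_ne_zero _ hε.ne') (norm_ne_zero_iff.mpr h2.1),
    Real.log_zpow, add_sub_cancel_left]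
  exact h2.2

end Path

end Pool.Agent.Work.MP_2b9663_nt.He
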