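import Pool.Agent.Work.MP_2b9663_nt.He.Glue

set_option autoImplicit false

/-!
The pole of the Dedekind zeta function in terms of the sum over the primes.
-/

namespace Pool.Agent.Work.MP_2b9663_nt.He

open NumberField Ideal Filter Topology IsDedekindDomain

variable (K : Type) [Field K] [NumberField K]

/-- the sum over the primes -/
noncomputable def SQ (σ : ℝ) : ℝ := ∑' v : HeightOneSpectrum (𝓞 K), qn v ^ (-σ)

/-- the trivial character -/
noncomputable def one : HeckeChar K := HeckeChar.triv ⊤ top_ne_bot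

lemma one_apply (I : Ideal (𝓞 K)) : one K I = 1 := by
  change (if I ⊔ ⊤ = ⊤ then (1 : ℂ) else 0) = 1
  rw [if_pos (sup_top_eq _)]

lemma LH_one {s : ℂ} (hs : 1 < s.re) : LH (one K) s = dedekindZeta K s := by
  have h1 := (hasSum_hI K (1 : DirichletCharacter ℂ 1) hs).tsum_eq
  have h2 : ∀ I : Ideal (𝓞 K), hI K (1 : DirichletCharacter ℂ 1) s I = hP (one K) s I := by
    intro I
    unfold hI hP
    rw [one_apply]
    congr 1
    have : ((absNorm I : ℕ) : ZMod 1) = 1 := Subsingleton.elim _ _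
    rw [this, map_one]
  rw [LH, ← tsum_congr h2, h1]
  unfold LL dedekindZeta
  congr 1
  funext n
  have : ((n : ℕ) : ZMod 1) = 1 := Subsingleton.elim _ _
  rw [this, map_one, one_mul]
  rfl

lemma TP_one {σ : ℝ} (hσ : 1 < σ) : TP (one K) (σ : ℂ) = ((SQ K σ : ℝ) : ℂ) := by
  unfold TP SQ
  rw [Complex.ofReal_tsum]
  refine tsum_congr fun v => ?_
  unfold hP
  rw [one_apply, one_mul, Complex.ofReal_cpow (qn_pos v).le]
  unfold qn
  push_cast
  rfl

theorem SQ_log : ∃ C : ℝ, ∀ᶠ ε : ℝ in 𝓝[>] 0, |SQ K (1 + ε) + Real.log ε| ≤ C := by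
  have h1 : Tendsto (fun s : ℝ => ‖((s : ℂ) - 1) * dedekindZeta K s‖) (𝓝[>] 1)
      (𝓝 ‖((dedekindZeta_residue K : ℝ) : ℂ)‖) := by
    have := (tendsto_sub_one_mul_dedekindZeta_nhdsGT K).norm
    simpa using this
  have h0 : ‖((dedekindZeta_residue K : ℝ) : ℂ)‖ ≠ 0 := by
    rw [Complex.norm_real]
    exact norm_ne_zero_iff.2 (dedekindZeta_residue_ne_zero K)
  have h2 := h1.log h0
  have h3 : Tendsto (fun ε : ℝ => 1 + ε) (𝓝[>] 0) (𝓝[>] 1) := by
    refine tendsto_nhdsWithin_iff.2 ⟨?_, ?_⟩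
    · have : Tendsto (fun ε : ℝ => 1 + ε) (𝓝 0) (𝓝 (1 + 0)) := tendsto_const_nhds.add tendsto_id
      rw [add_zero] at this
      exact this.mono_left nhdsWithin_le_nhds
    · filter_upwards [self_mem_nhdsWithin] with ε hε
      have : (0 : ℝ) < ε := hε
      change (1 : ℝ) < 1 + ε
      linarith
  have h4 := (h2.comp h3).abs.eventually (gt_mem_nhds (lt_add_one _))
  refine ⟨|Real.log ‖((dedekindZeta_residue K : ℝ) : ℂ)‖| + 1 + PK K, ?_⟩
  filter_upwards [h4, self_mem_nhdsWithin] with ε h5 hε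
  have hε0 : (0 : ℝ) < ε := hε
  have hs : 1 < (((1 + ε : ℝ) : ℂ)).re := by
    rw [Complex.ofReal_re]
    linarith
  have h6 := log_norm_LH (one K) hs
  have h7 : Real.log ‖(((1 + ε : ℝ) : ℂ) - 1) * dedekindZeta K ((1 + ε : ℝ) : ℂ)‖ =
      Real.log ε + Real.log ‖LH (one K) ((1 + ε : ℝ) : ℂ)‖ := by
    rw [← LH_one K hs, norm_mul, Real.log_mul _ (norm_ne_zero_iff.2 (LH_ne_zero _ hs))]
    · congr 2
      have : (((1 + ε : ℝ) : ℂ) - 1) = ((ε : ℝ) : ℂ) := by push_cast; ring
      rw [this, Complex.norm_real, Real.norm_of_nonneg hε0.le]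
    · have : (((1 + ε : ℝ) : ℂ) - 1) = ((ε : ℝ) : ℂ) := by push_cast; ring
      rw [this, Complex.norm_real, Real.norm_of_nonneg hε0.le]
      exact hε0.ne'
  rw [TP_one K (by linarith), Complex.ofReal_re] at h6
  simp only [Function.comp_apply] at h5
  rw [h7] at h5
  rw [abs_le] at h6 ⊢
  have h8 := abs_lt.1 h5
  constructor <;> linarith [h8.1, h8.2]

lemma SQ_le_of_summable {p : HeightOneSpectrum (𝓞 K) → Prop} [DecidablePred p]
    (h : Summable fun v : HeightOneSpectrum (𝓞 K) => if p v then (qn v)⁻¹ else 0) {ε : ℝ}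
    (hε : 0 < ε) : ∑' v : HeightOneSpectrum (𝓞 K), (if p v then qn v ^ (-(1 + ε)) else 0) ≤
      ∑' v : HeightOneSpectrum (𝓞 K), if p v then (qn v)⁻¹ else 0 := by
  have h1 : ∀ v : HeightOneSpectrum (𝓞 K), (if p v then qn v ^ (-(1 + ε)) else 0) ≤
      if p v then (qn v)⁻¹ else 0 := by
    intro v
    split_ifs
    · rw [← Real.rpow_neg_one]
      exact Real.rpow_le_rpow_of_exponent_le (by linarith [two_le_qn v]) (by linarith)
    · exact le_rfl
  have h2 : Summable fun v : HeightOneSpectrum (𝓞 K) => if p v then qn v ^ (-(1 + ε)) else 0 := by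
    refine Summable.of_nonneg_of_le (fun v => ?_) h1 h
    split_ifs
    · exact Real.rpow_nonneg (qn_pos v).le _
    · exact le_rfl
  exact h2.tsum_le_tsum h1 h

/-- only finitely many primes divide a nonzero ideal -/
lemma finite_not_coprime {M : Ideal (𝓞 K)} (hM : M ≠ ⊥) :
    {v : HeightOneSpectrum (𝓞 K) | v.asIdeal ⊔ M ≠ ⊤}.Finite := by
  refine (Ideal.finite_factors hM).subset fun v hv => ?_
  rw [Set.mem_ofPred_eq, Ideal.dvd_iff_le]
  have h1 := v.isMaximal.eq_of_le hv le_sup_left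
  rw [h1]
  exact le_sup_right

/-- the sum of the inverse norms of the primes not dividing an ideal diverges -/
theorem not_summable_inv {M : Ideal (𝓞 K)} (hM : M ≠ ⊥) :
    open scoped Classical in
    ¬ Summable fun v : HeightOneSpectrum (𝓞 K) => if v.asIdeal ⊔ M = ⊤ then (qn v)⁻¹ else 0 := by
  classical
  intro h
  obtain ⟨C, hC⟩ := SQ_log K
  set B : ℝ := ∑' v : HeightOneSpectrum (𝓞 K), if v.asIdeal ⊔ M = ⊤ then (qn v)⁻¹ else 0 with hB
  set T := (finite_not_coprime K hM).toFinset with hT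
  have key : ∀ ε : ℝ, 0 < ε → SQ K (1 + ε) ≤ B + ∑ v ∈ T, 1 := by
    intro ε hε
    have h1 := SQ_le_of_summable K h hε
    have h2 : ∀ v : HeightOneSpectrum (𝓞 K), qn v ^ (-(1 + ε)) =
        (if v.asIdeal ⊔ M = ⊤ then qn v ^ (-(1 + ε)) else 0) +
        if v ∈ T then qn v ^ (-(1 + ε)) else 0 := by
      intro v
      by_cases hv : v.asIdeal ⊔ M = ⊤
      · have : v ∉ T := by
          rw [hT, Set.Finite.mem_toFinset]
          exact fun h3 => h3 hv
        rw [if_pos hv, if_neg this, add_zero]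
      · have : v ∈ T := by
          rw [hT, Set.Finite.mem_toFinset]
          exact hv
        rw [if_neg hv, if_pos this, zero_add]
    have hs := qn_summable (K := K) (σ := 1 + ε) (by linarith)
    have h3 : Summable fun v : HeightOneSpectrum (𝓞 K) =>
        if v ∈ T then qn v ^ (-(1 + ε)) else 0 :=
      summable_of_ne_finset_zero (s := T) fun v hv => if_neg hv
    have h4 : Summable fun v : HeightOneSpectrum (𝓞 K) =>
        if v.asIdeal ⊔ M = ⊤ then qn v ^ (-(1 + ε)) else 0 := by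
      refine Summable.of_nonneg_of_le (fun v => ?_) (fun v => ?_) hs
      · split_ifs
        · exact Real.rpow_nonneg (qn_pos v).le _
        · exact le_rfl
      · split_ifs
        · exact le_rfl
        · exact Real.rpow_nonneg (qn_pos v).le _
    have h5 : SQ K (1 + ε) = ∑' v : HeightOneSpectrum (𝓞 K),
        (if v.asIdeal ⊔ M = ⊤ then qn v ^ (-(1 + ε)) else 0) +
        ∑' v : HeightOneSpectrum (𝓞 K), if v ∈ T then qn v ^ (-(1 + ε)) else 0 := by
      rw [SQ, ← h4.tsum_add h3]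
      exact tsum_congr h2
    rw [h5]
    refine add_le_add h1 ?_
    rw [tsum_eq_sum (s := T) fun v hv => if_neg hv]
    refine Finset.sum_le_sum fun v hv => ?_
    rw [if_pos hv]
    exact Real.rpow_le_one_of_one_le_of_nonpos (by linarith [two_le_qn v]) (by linarith)
  have h1 : Tendsto (fun ε : ℝ => -Real.log ε) (𝓝[>] 0) atTop :=
    tendsto_neg_atBot_atTop.comp Real.tendsto_log_nhdsGT_zero
  obtain ⟨ε, h2, h3, h4⟩ := ((h1.eventually_gt_atTop (B + ∑ v ∈ T, 1 + C)).and
    (hC.and self_mem_nhdsWithin)).exists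
  have h5 := key ε h4
  have h6 := (abs_le.1 h3).1
  linarith

end Pool.Agent.Work.MP_2b9663_nt.He
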