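import Pool.Agent.Work.MP_2b9663_nt.He.Weight
import Pool.Agent.Work.MP_2b9663_nt.He.Defs
import Pool.Agent.Work.MP_2b9663_nt.He.Diff

set_option autoImplicit false

/-!
The smooth homogeneous functions attached to the infinite types.
-/

namespace Pool.Agent.Work.MP_2b9663_nt.He

open NumberField NumberField.mixedEmbedding NumberField.Units
  NumberField.Units.dirichletUnitTheorem Module InfinitePlace Filter Topology

section Aux

variable {E : Type} [NormedAddCommGroup E] [NormedSpace ℝ E]

lemma contDiffAt_zpow' {k : ℕ} {f : E → ℂ} {x : E} (hf : ContDiffAt ℝ k f x) (h0 : f x ≠ 0)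
    (n : ℤ) : ContDiffAt ℝ k (fun y => f y ^ n) x := by
  cases n with
  | ofNat m =>
    simp only [Int.ofNat_eq_natCast, zpow_natCast]
    exact hf.pow m
  | negSucc m =>
    simp only [zpow_negSucc]
    exact (hf.pow (m + 1)).inv (pow_ne_zero _ h0)

lemma contDiffAt_cpow' {k : ℕ} {a : E → ℝ} {z : E → ℂ} {x : E} (ha : ContDiffAt ℝ k a x)
    (hz : ContDiffAt ℝ k z x) (h0 : 0 < a x) :
    ContDiffAt ℝ k (fun y => ((a y : ℝ) : ℂ) ^ z y) x := by
  have h1 : ContDiffAt ℝ k (fun y => Complex.exp (((Real.log (a y) : ℝ) : ℂ) * z y)) x := by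
    have h2 : ContDiffAt ℝ k (fun y => ((Real.log (a y) : ℝ) : ℂ)) x :=
      Complex.ofRealCLM.contDiff.contDiffAt.comp x (ha.log h0.ne')
    exact (h2.mul hz).cexp
  refine h1.congr_of_eventuallyEq ?_
  filter_upwards [ha.continuousAt.eventually (lt_mem_nhds h0)] with y hy
  rw [Complex.cpow_def_of_ne_zero (by exact_mod_cast hy.ne'), Complex.ofReal_log hy.le]

end Aux

variable {K : Type} [Field K]

open scoped Classical in
/-- the coordinate at a place -/
noncomputable def cw (w : InfinitePlace K) (X : mixedSpace K) : ℂ :=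
  if hw : IsReal w then ((X.1 ⟨w, hw⟩ : ℝ) : ℂ) else X.2 ⟨w, not_isReal_iff_isComplex.mp hw⟩

lemma norm_cw (w : InfinitePlace K) (X : mixedSpace K) : ‖cw w X‖ = normAtPlace w X := by
  unfold cw
  split_ifs with hw
  · rw [normAtPlace_apply_of_isReal hw, Complex.norm_real]
  · rw [normAtPlace_apply_of_isComplex (not_isReal_iff_isComplex.mp hw)]

lemma cw_mixed (w : InfinitePlace K) (x : K) : cw w (mixedEmbedding K x) = w.embedding x := by
  unfold cw
  split_ifs with hw
  · rw [mixedEmbedding_apply_isReal, embedding_of_isReal_apply]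
  · rw [mixedEmbedding_apply_isComplex]

lemma cw_smul (w : InfinitePlace K) (c : ℝ) (X : mixedSpace K) : cw w (c • X) = c * cw w X := by
  unfold cw
  split_ifs with hw
  · simp
  · simp

variable [NumberField K]

open scoped Classical in
lemma cw_contDiff (w : InfinitePlace K) (k : ℕ) : ContDiff ℝ k (cw w) := by
  unfold cw
  split_ifs with hw
  · exact Complex.ofRealCLM.contDiff.comp ((contDiff_apply ℝ ℝ (⟨w, hw⟩ : {w : InfinitePlace K // IsReal w})).comp contDiff_fst)
  · exact ((contDiff_apply ℝ ℂ (⟨w, not_isReal_iff_isComplex.mp hw⟩ : {w : InfinitePlace K // IsComplex w})).comp contDiff_snd)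

open scoped Classical in
lemma contDiffAt_normAtPlace (w : InfinitePlace K) (k : ℕ) {X : mixedSpace K}
    (hX : normAtPlace w X ≠ 0) : ContDiffAt ℝ k (fun Y : mixedSpace K => normAtPlace w Y) X := by
  have h0 : cw w X ≠ 0 := by
    rw [← norm_ne_zero_iff, norm_cw]
    exact hX
  have h1 : ContDiffAt ℝ k (fun Y : mixedSpace K => ‖cw w Y‖) X :=
    (cw_contDiff w k).contDiffAt.norm ℝ h0
  simpa only [norm_cw] using h1

open scoped Classical in
lemma contDiffAt_mixedNorm (k : ℕ) {X : mixedSpace K} (hX : mixedEmbedding.norm X ≠ 0) :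
    ContDiffAt ℝ k (fun Y : mixedSpace K => mixedEmbedding.norm Y) X := by
  have h1 : ContDiffAt ℝ k (fun Y : mixedSpace K =>
      ∏ w : InfinitePlace K, normAtPlace w Y ^ mult w) X :=
    contDiffAt_prod fun w _ => (contDiffAt_normAtPlace w k
      (mixedEmbedding.norm_ne_zero_iff.1 hX w)).pow _
  exact h1

open scoped Classical in
lemma contDiffAt_lc (k : ℕ) {X : mixedSpace K} (hX : mixedEmbedding.norm X ≠ 0)
    (i : Fin (rank K)) : ContDiffAt ℝ k (fun Y : mixedSpace K => lc K Y i) X := by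
  let B := (basisUnitLattice K).ofZLatticeBasis ℝ (unitLattice K)
  let f : logSpace K →L[ℝ] ℝ := LinearMap.toContinuousLinearMap (B.coord i)
  have h1 : ContDiffAt ℝ k (fun Y : mixedSpace K => logMap Y) X := by
    rw [contDiffAt_pi]
    intro w
    simp only [logMap_apply]
    refine contDiffAt_const.mul (ContDiffAt.sub ?_ (ContDiffAt.mul ?_ contDiffAt_const))
    · exact (contDiffAt_normAtPlace _ k (mixedEmbedding.norm_ne_zero_iff.1 hX _)).log
        (mixedEmbedding.norm_ne_zero_iff.1 hX _)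
    · exact (contDiffAt_mixedNorm k hX).log hX
  exact f.contDiff.contDiffAt.comp X h1

/-- the character of infinite type `(n, t)` on the mixed space -/
noncomputable def infU (n : InfinitePlace K → ℤ) (t : InfinitePlace K → ℝ) (X : mixedSpace K) : ℂ :=
  ∏ w : InfinitePlace K, (cw w X / (normAtPlace w X : ℂ)) ^ n w *
    (normAtPlace w X : ℂ) ^ ((t w : ℂ) * Complex.I)

lemma infU_mixed (n : InfinitePlace K → ℤ) (t : InfinitePlace K → ℝ) (x : K) :
    infU n t (mixedEmbedding K x) = infChar n t x := by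
  unfold infU infChar
  refine Finset.prod_congr rfl fun w _ => ?_
  rw [cw_mixed, normAtPlace_apply]

/-- the function to be summed over the lattice -/
noncomputable def HH (n : InfinitePlace K → ℤ) (t : InfinitePlace K → ℝ) (s : ℂ)
    (X : mixedSpace K) : ℂ :=
  (sw K X : ℂ) * infU n t X * (mixedEmbedding.norm X : ℂ) ^ (-s)

lemma HH_eq_zero {n : InfinitePlace K → ℤ} {t : InfinitePlace K → ℝ} {s : ℂ} {X : mixedSpace K}
    (h : sw K X = 0) : HH n t s X = 0 := by
  unfold HH
  rw [h]
  simp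

open scoped Classical in
lemma contDiffAt_HH_of_ne (n : InfinitePlace K → ℤ) (t : InfinitePlace K → ℝ) (k : ℕ)
    {z : ℂ × mixedSpace K} (hz : mixedEmbedding.norm z.2 ≠ 0) :
    ContDiffAt ℝ k (fun z : ℂ × mixedSpace K => HH n t z.1 z.2) z := by
  have hw : ∀ w : InfinitePlace K, 0 < normAtPlace w z.2 := fun w =>
    lt_of_le_of_ne (normAtPlace_nonneg _ _) (mixedEmbedding.norm_ne_zero_iff.1 hz w).symm
  have hN : 0 < mixedEmbedding.norm z.2 :=
    lt_of_le_of_ne (mixedEmbedding.norm_nonneg _) hz.symm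
  have hsnd : ContDiffAt ℝ k (fun z : ℂ × mixedSpace K => z.2) z := contDiffAt_snd
  have hnp : ∀ w : InfinitePlace K,
      ContDiffAt ℝ k (fun z : ℂ × mixedSpace K => normAtPlace w z.2) z := fun w =>
    (contDiffAt_normAtPlace w k (hw w).ne').comp z hsnd
  have h1 : ContDiffAt ℝ k (fun z : ℂ × mixedSpace K => infU n t z.2) z := by
    unfold infU
    refine contDiffAt_prod fun w _ => ContDiffAt.mul ?_ ?_
    · refine contDiffAt_zpow' ?_ ?_ _
      · refine ContDiffAt.mul (((cw_contDiff w k).contDiffAt).comp z hsnd) ?_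
        refine ContDiffAt.inv (Complex.ofRealCLM.contDiff.contDiffAt.comp z (hnp w)) ?_
        exact_mod_cast (hw w).ne'
      · refine div_ne_zero ?_ (by exact_mod_cast (hw w).ne')
        rw [← norm_ne_zero_iff, norm_cw]
        exact (hw w).ne'
    · exact contDiffAt_cpow' (hnp w) contDiffAt_const (hw w)
  have h2 : ContDiffAt ℝ k (fun z : ℂ × mixedSpace K =>
      (mixedEmbedding.norm z.2 : ℂ) ^ (-z.1)) z :=
    contDiffAt_cpow' ((contDiffAt_mixedNorm k hz).comp z hsnd) contDiffAt_fst.neg hN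
  have h3 : ContDiffAt ℝ k (fun z : ℂ × mixedSpace K =>
      (((torsionOrder K : ℝ)⁻¹ * ∏ i, bump (lc K z.2 i) : ℝ) : ℂ)) z := by
    refine Complex.ofRealCLM.contDiff.contDiffAt.comp z (contDiffAt_const.mul ?_)
    refine contDiffAt_prod fun i _ => ?_
    exact (bump_contDiff k).contDiffAt.comp z ((contDiffAt_lc k hz i).comp z hsnd)
  refine ((h3.mul h1).mul h2).congr_of_eventuallyEq ?_
  have h4 : ∀ᶠ y in 𝓝 z, mixedEmbedding.norm y.2 ≠ 0 :=
    ((mixedEmbedding.continuous_norm K).continuousAt.comp continuousAt_snd).eventually_ne hz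
  filter_upwards [h4] with y hy
  unfold HH sw
  rw [if_neg hy]

open scoped Classical in
/-- **Smoothness away from zero.** -/
theorem contDiffAt_HH (n : InfinitePlace K → ℤ) (t : InfinitePlace K → ℝ) (k : ℕ)
    {z : ℂ × mixedSpace K} (hz : z.2 ≠ 0) :
    ContDiffAt ℝ k (fun z : ℂ × mixedSpace K => HH n t z.1 z.2) z := by
  by_cases h : mixedEmbedding.norm z.2 = 0
  · obtain ⟨κ, hκ, hκ1, H⟩ := exists_cone K
    obtain ⟨w, hw⟩ := mixedEmbedding.norm_eq_zero_iff.1 h
    have h1 : ∀ᶠ y in 𝓝 z, normAtPlace w y.2 < κ * ‖y.2‖ := by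
      have h2 : Continuous fun y : ℂ × mixedSpace K => normAtPlace w y.2 :=
        (continuous_normAtPlace w).comp continuous_snd
      have h3 : Continuous fun y : ℂ × mixedSpace K => κ * ‖y.2‖ :=
        continuous_const.mul continuous_snd.norm
      refine (isOpen_lt h2 h3).mem_nhds ?_
      change normAtPlace w z.2 < κ * ‖z.2‖
      rw [hw]
      exact mul_pos hκ (norm_pos_iff.2 hz)
    refine (contDiffAt_const (c := (0 : ℂ))).congr_of_eventuallyEq ?_
    filter_upwards [h1] with y hy
    refine HH_eq_zero ?_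
    by_contra hc
    exact absurd (H y.2 hc w) (not_le.2 hy)
  · exact contDiffAt_HH_of_ne n t k h

end Pool.Agent.Work.MP_2b9663_nt.He
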