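import Pool.Agent.Work.MP_2b9663_nt.He.Bound
import Pool.Agent.Work.MP_2b9663_nt.Ch.Comp

set_option autoImplicit false

/-!
Lattice sums with periodic coefficients of mean value zero are analytic for `Re s > 0`.
-/

namespace Pool.Agent.Work.MP_2b9663_nt.He

open NumberField NumberField.mixedEmbedding NumberField.Units
  NumberField.Units.dirichletUnitTheorem Module InfinitePlace Filter Topology

variable {K : Type} [Field K] [NumberField K]

/-- the function to be summed over the algebraic integers -/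
noncomputable def HX (n : InfinitePlace K → ℤ) (t : InfinitePlace K → ℝ) (s : ℂ) (x : 𝓞 K) : ℂ :=
  HH n t s (mixedEmbedding K (x : K))

variable (n : InfinitePlace K → ℤ) (t : InfinitePlace K → ℝ)

lemma HX_zero (s : ℂ) : HX n t s 0 = 0 := by
  unfold HX
  refine HH_eq_zero ?_
  have := swt_zero K
  unfold swt at this
  exact this

lemma norm_infU_le (X : mixedSpace K) (hX : mixedEmbedding.norm X ≠ 0) : ‖infU n t X‖ = 1 := by
  unfold infU
  rw [norm_prod]
  refine Finset.prod_eq_one fun w _ => ?_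
  have h1 : 0 < normAtPlace w X :=
    lt_of_le_of_ne (normAtPlace_nonneg _ _) (mixedEmbedding.norm_ne_zero_iff.1 hX w).symm
  rw [norm_mul, norm_zpow, norm_div, norm_cw, Complex.norm_real, Real.norm_of_nonneg h1.le,
    div_self h1.ne', one_zpow, Complex.norm_cpow_eq_rpow_re_of_pos h1]
  simp

lemma norm_HX_le_one (x : 𝓞 K) {s : ℂ} (hs : 0 ≤ s.re) : ‖HX n t s x‖ ≤ 1 := by
  by_cases hx : x = 0
  · rw [hx, HX_zero]
    simp
  · have h0 := Lip.norm_ne hx
    have h1 : (1 : ℝ) ≤ nrm K x := by exact_mod_cast Lip.nrm_pos hx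
    rw [Lip.nrm_eq] at h1
    unfold HX HH
    rw [norm_mul, norm_mul, norm_infU_le n t _ h0, mul_one, Complex.norm_real,
      Real.norm_of_nonneg (sw_nonneg K _), Complex.norm_cpow_eq_rpow_re_of_pos (by linarith),
      Complex.neg_re]
    refine mul_le_one₀ (sw_le_one K _) (Real.rpow_nonneg (mixedEmbedding.norm_nonneg _) _) ?_
    exact Real.rpow_le_one_of_one_le_of_nonpos h1 (by linarith)

/-- the iterated differences of the summands decay -/
theorem HX_bound {ι : Type} [Fintype ι] (g : ι → 𝓞 K) (k : ℕ) (σ₀ R : ℝ) (h0 : 0 ≤ σ₀) :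
    ∃ C : ℝ, ∀ (x : 𝓞 K) (s : ℂ), σ₀ ≤ s.re → ‖s‖ ≤ R →
      ‖(Pd g)^[k] (HX n t s) x‖ ≤ C * (1 + sz K x) ^ (-((finrank ℚ K : ℝ) * σ₀ + k)) := by
  classical
  set φ : 𝓞 K →+ mixedSpace K :=
    ((mixedEmbedding K).comp (algebraMap (𝓞 K) K)).toAddMonoidHom with hφ
  obtain ⟨R₀, C, hR₀, hC, H⟩ := HH_bound n t (fun i => φ (g i)) k R
  set a : ℝ := (finrank ℚ K : ℝ) * σ₀ + k with ha
  have hn0 : (0 : ℝ) ≤ finrank ℚ K := Nat.cast_nonneg _
  have ha0 : 0 ≤ a := by positivity
  have h2a : (0 : ℝ) ≤ 2 ^ a := Real.rpow_nonneg (by norm_num) _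
  have h3a : (0 : ℝ) ≤ (1 + R₀) ^ a := Real.rpow_nonneg (by linarith) _
  refine ⟨C * 2 ^ a + (2 * Fintype.card ι) ^ k * (1 + R₀) ^ a, fun x s hs hsR => ?_⟩
  have hsx := Lip.sz_nonneg x
  have hpos : 0 < (1 + sz K x) ^ (-a) := Real.rpow_pos_of_pos (by linarith) _
  rcases le_or_gt R₀ (sz K x) with hx | hx
  · have h1 := Pd_iterate_comp φ g (HH n t s) k x
    have h2 := H s (φ x) hsR hx
    change (Pd g)^[k] (HX n t s) x = _ at h1
    rw [h1]
    refine h2.trans ?_
    have hx1 : 1 ≤ sz K x := hR₀.trans hx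
    have h3 : ‖φ x‖ ^ (-((finrank ℚ K : ℝ) * s.re + k)) ≤ 2 ^ a * (1 + sz K x) ^ (-a) := by
      change sz K x ^ (-((finrank ℚ K : ℝ) * s.re + k)) ≤ _
      have h4 : sz K x ^ (-((finrank ℚ K : ℝ) * s.re + k)) ≤ sz K x ^ (-a) := by
        refine Real.rpow_le_rpow_of_exponent_le hx1 ?_
        rw [ha]
        have := mul_le_mul_of_nonneg_left hs hn0
        linarith
      refine h4.trans ?_
      have h5 : (1 + sz K x) / 2 ≤ sz K x := by linarith
      refine (Real.rpow_le_rpow_of_nonpos (by linarith) h5 (by linarith)).trans (le_of_eq ?_)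
      rw [Real.div_rpow (by linarith) (by norm_num), Real.rpow_neg (by norm_num : (0 : ℝ) ≤ 2),
        div_inv_eq_mul, mul_comm]
    have h6 := mul_le_mul_of_nonneg_left h3 hC
    have h7 : 0 ≤ (2 * (Fintype.card ι : ℝ)) ^ k * (1 + R₀) ^ a * (1 + sz K x) ^ (-a) := by
      positivity
    linarith
  · have h1 := Pd_norm_le_of_bound g Set.univ (fun _ _ _ => Set.mem_univ _) (HX n t s) 1
      (fun y _ => norm_HX_le_one n t y (h0.trans hs)) k x (Set.mem_univ x)
    rw [mul_one] at h1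
    refine h1.trans ?_
    have h2 : 1 ≤ (1 + R₀) ^ a * (1 + sz K x) ^ (-a) := by
      rw [Real.rpow_neg (by linarith), ← div_eq_mul_inv, one_le_div (by positivity)]
      exact Real.rpow_le_rpow (by linarith) (by linarith) ha0
    have h3 : (0 : ℝ) ≤ (2 * (Fintype.card ι : ℝ)) ^ k := by positivity
    have h4 := mul_le_mul_of_nonneg_left h2 h3
    have h5 : 0 ≤ C * 2 ^ a * (1 + sz K x) ^ (-a) := by positivity
    linarith

theorem HX_summable {s : ℂ} (hs : 1 < s.re) : Summable fun x : 𝓞 K => HX n t s x := by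
  obtain ⟨C, hC⟩ := HX_bound n t (fun i : Fin 0 => Fin.elim0 i) 0 s.re ‖s‖ (by linarith)
  have hn : (0 : ℝ) < finrank ℚ K := by exact_mod_cast finrank_pos
  have h1 : (finrank ℚ K : ℝ) < (finrank ℚ K : ℝ) * s.re + (0 : ℕ) := by
    rw [Nat.cast_zero, add_zero]
    exact lt_mul_of_one_lt_right hn hs
  exact Summable.of_norm_bounded ((sz_summable K h1).mul_left C) fun x => hC x s le_rfl le_rfl

lemma HX_differentiable (x : 𝓞 K) : Differentiable ℂ fun s => HX n t s x := by
  by_cases hx : x = 0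
  · subst hx
    simp only [HX_zero]
    exact differentiable_const _
  · unfold HX HH
    refine Differentiable.const_mul ?_ _
    intro s
    exact differentiableAt_id.neg.const_cpow (Or.inl (by exact_mod_cast Lip.norm_ne hx))

lemma Pd_differentiable {ι A : Type} [Fintype ι] [AddCommGroup A] (g : ι → A) (f : ℂ → A → ℂ)
    (hf : ∀ x, Differentiable ℂ fun s => f s x) (k : ℕ) :
    ∀ x, Differentiable ℂ fun s => (Pd g)^[k] (f s) x := by
  induction k with
  | zero => exact hf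
  | succ k ih =>
    intro x
    simp only [Function.iterate_succ_apply']
    unfold Pd at ih ⊢
    exact Differentiable.fun_sum fun i _ => (ih x).sub (ih (x + g i))

/-- a periodic function is bounded -/
lemma periodic_bounded {A : Ideal (𝓞 K)} (hA : A ≠ ⊥) {k : 𝓞 K → ℂ}
    (hk : ∀ x, ∀ a ∈ A, k (x + a) = k x) : ∃ B : ℝ, ∀ x, ‖k x‖ ≤ B := by
  have := finite_idealQuot hA
  have := Fintype.ofFinite (𝓞 K ⧸ A)
  refine ⟨∑ q : 𝓞 K ⧸ A, ‖k (Quotient.out q)‖, fun x => ?_⟩
  rw [← periodic_out hk x]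
  exact Finset.single_le_sum (f := fun q : 𝓞 K ⧸ A => ‖k (Quotient.out q)‖)
    (fun q _ => norm_nonneg _) (Finset.mem_univ _)

/-- the averaged difference does not change the sum -/
lemma tsum_Pd {A : Ideal (𝓞 K)} [Fintype (𝓞 K ⧸ A)] (hA : A ≠ ⊥) (ω : 𝓞 K → ℂ)
    (hω : ∀ x, ∀ a ∈ A, ω (x + a) = ω x) (h0 : mn A ω = 0) (f : 𝓞 K → ℂ) (hf : Summable f) :
    Summable (Pd (fun q : 𝓞 K ⧸ A => (Quotient.out q : 𝓞 K)) f) ∧
    ∑' x, ω x * Pd (fun q : 𝓞 K ⧸ A => (Quotient.out q : 𝓞 K)) f x =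
      Fintype.card (𝓞 K ⧸ A) * ∑' x, ω x * f x := by
  have hshift : ∀ v : 𝓞 K, Summable fun x => f (x + v) := fun v =>
    hf.comp_injective (add_left_injective v)
  obtain ⟨B, hB⟩ := periodic_bounded hA hω
  have hmul : ∀ (ω' f' : 𝓞 K → ℂ), (∀ x, ‖ω' x‖ ≤ B) → Summable f' →
      Summable fun x => ω' x * f' x := fun ω' f' h1 h2 => by
    refine Summable.of_norm_bounded (h2.norm.mul_left B) fun x => ?_
    rw [norm_mul]
    exact mul_le_mul_of_nonneg_right (h1 x) (norm_nonneg _)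
  constructor
  · unfold Pd
    exact summable_sum fun q _ => hf.sub (hshift _)
  · unfold Pd
    have h1 : ∀ q : 𝓞 K ⧸ A, ∑' x, ω x * f (x + Quotient.out q) =
        ∑' y, ω (y - Quotient.out q) * f y := by
      intro q
      rw [← (Equiv.addRight (Quotient.out q : 𝓞 K)).tsum_eq fun y => ω (y - Quotient.out q) * f y]
      refine tsum_congr fun x => ?_
      simp only [Equiv.coe_addRight, add_sub_cancel_right]
    have h2 : ∀ y, ∑ q : 𝓞 K ⧸ A, ω (y - Quotient.out q) = 0 := by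
      intro y
      rw [mn_eq] at h0
      rw [← h0]
      refine Fintype.sum_equiv (Equiv.subLeft (Ideal.Quotient.mk A y)) _ _ fun q => ?_
      have h3 : Ideal.Quotient.mk A (Quotient.out q) = q := Ideal.Quotient.mk_out q
      rw [Equiv.subLeft_apply, ← periodic_out hω (y - Quotient.out q), map_sub, h3]
    have h3 : ∀ x, ω x * ∑ q : 𝓞 K ⧸ A, (f x - f (x + Quotient.out q)) =
        Fintype.card (𝓞 K ⧸ A) * (ω x * f x) - ∑ q : 𝓞 K ⧸ A, ω x * f (x + Quotient.out q) := by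
      intro x
      rw [Finset.sum_sub_distrib, Finset.sum_const, Finset.card_univ, nsmul_eq_mul, mul_sub,
        Finset.mul_sum]
      ring
    have h4 : ∑' x, ∑ q : 𝓞 K ⧸ A, ω x * f (x + Quotient.out q) = 0 := by
      rw [Summable.tsum_finsetSum fun q _ => hmul ω _ hB (hshift _)]
      simp only [h1]
      rw [← Summable.tsum_finsetSum fun q _ => hmul _ f (fun x => hB _) hf]
      simp only [← Finset.sum_mul, h2, zero_mul, tsum_zero]
    simp only [h3]
    rw [((hmul ω f hB hf).mul_left _).tsum_sub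
      (summable_sum fun q _ => hmul ω _ hB (hshift _)), h4, sub_zero, tsum_mul_left]

/-- **The translation lemma**: analyticity for `Re s > 0`. -/
theorem translation_all (A : Ideal (𝓞 K)) (hA : A ≠ ⊥) (ω : 𝓞 K → ℂ)
    (hω : ∀ x, ∀ a ∈ A, ω (x + a) = ω x) (h0 : mn A ω = 0) :
    ∃ g : ℂ → ℂ, DifferentiableOn ℂ g {s | 0 < s.re} ∧
      ∀ s : ℂ, 1 < s.re → g s = ∑' x : 𝓞 K, ω x * HX n t s x := by
  have := finite_idealQuot hA
  have := Fintype.ofFinite (𝓞 K ⧸ A)
  set g : 𝓞 K ⧸ A → 𝓞 K := fun q => Quotient.out q with hg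
  set N : ℕ := finrank ℚ K with hN
  have hcard : (Fintype.card (𝓞 K ⧸ A) : ℂ) ≠ 0 := by
    exact_mod_cast Fintype.card_ne_zero
  obtain ⟨B, hB⟩ := periodic_bounded hA hω
  have hB0 : 0 ≤ B := (norm_nonneg _).trans (hB 0)
  refine ⟨fun s => ((Fintype.card (𝓞 K ⧸ A) : ℂ) ^ N)⁻¹ *
    ∑' x : 𝓞 K, ω x * (Pd g)^[N] (HX n t s) x, ?_, ?_⟩
  · refine DifferentiableOn.const_mul ?_ _
    intro s₀ hs₀
    have hs₀' : 0 < s₀.re := hs₀
    set σ₀ : ℝ := s₀.re / 2 with hσ₀
    have hσ : 0 < σ₀ := by rw [hσ₀]; linarith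
    obtain ⟨C, hC⟩ := HX_bound n t g N σ₀ (‖s₀‖ + 1) hσ.le
    set U : Set ℂ := {s | σ₀ < s.re} ∩ Metric.ball 0 (‖s₀‖ + 1) with hU
    have hUo : IsOpen U :=
      (isOpen_lt continuous_const Complex.continuous_re).inter Metric.isOpen_ball
    have hsU : s₀ ∈ U := ⟨by change σ₀ < s₀.re; rw [hσ₀]; linarith, by simp⟩
    have hn : (0 : ℝ) < finrank ℚ K := by exact_mod_cast finrank_pos
    have h4 : (finrank ℚ K : ℝ) < (finrank ℚ K : ℝ) * σ₀ + N := by
      have : 0 < (finrank ℚ K : ℝ) * σ₀ := by positivity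
      rw [hN]
      linarith
    have h5 := (sz_summable K h4).mul_left (B * C)
    have h6 := Complex.differentiableOn_tsum_of_summable_norm (u := fun x : 𝓞 K =>
        B * C * (1 + sz K x) ^ (-((finrank ℚ K : ℝ) * σ₀ + N)))
      (F := fun (x : 𝓞 K) s => ω x * (Pd g)^[N] (HX n t s) x) h5
      (fun x => ((Pd_differentiable g (fun s => HX n t s) (HX_differentiable n t) N x).const_mul
        (ω x)).differentiableOn) hUo
      (fun x s hs => by
        rw [norm_mul, mul_assoc]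
        refine mul_le_mul (hB x) (hC x s (le_of_lt hs.1) ?_) (norm_nonneg _) hB0
        have := hs.2
        rw [mem_ball_zero_iff] at this
        exact this.le)
    exact ((h6 s₀ hsU).differentiableAt (hUo.mem_nhds hsU)).differentiableWithinAt
  · intro s hs
    have key : ∀ k : ℕ, Summable ((Pd g)^[k] (HX n t s)) ∧
        ∑' x : 𝓞 K, ω x * (Pd g)^[k] (HX n t s) x =
          (Fintype.card (𝓞 K ⧸ A) : ℂ) ^ k * ∑' x : 𝓞 K, ω x * HX n t s x := by
      intro k
      induction k with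
      | zero => exact ⟨HX_summable n t hs, by simp⟩
      | succ k ih =>
        obtain ⟨h1, h2⟩ := tsum_Pd hA ω hω h0 _ ih.1
        rw [Function.iterate_succ_apply']
        refine ⟨h1, ?_⟩
        rw [h2, ih.2, pow_succ]
        ring
    beta_reduce
    rw [(key N).2, inv_mul_cancel_left₀ (pow_ne_zero _ hcard)]

end Pool.Agent.Work.MP_2b9663_nt.He
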