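import Pool.Agent.Work.MP_2b9663_nt.Ch.Lip
import Pool.Agent.Work.MP_2b9663_nt.Ch.TentU

set_option autoImplicit false

/-!
A smooth weight on the mixed space whose sum over associates is one.
-/

namespace Pool.Agent.Work.MP_2b9663_nt.He

open NumberField NumberField.mixedEmbedding NumberField.Units
  NumberField.Units.dirichletUnitTheorem Module InfinitePlace

/-- the smooth bump; its integral translates sum to one -/
noncomputable def bump (c : ℝ) : ℝ := Real.smoothTransition (c + 1) - Real.smoothTransition c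

lemma bump_zero {c : ℝ} (h : 1 ≤ |c|) : bump c = 0 := by
  unfold bump
  rcases le_abs.1 h with h1 | h1
  · rw [Real.smoothTransition.one_of_one_le (by linarith), Real.smoothTransition.one_of_one_le h1,
      sub_self]
  · rw [Real.smoothTransition.zero_of_nonpos (by linarith),
      Real.smoothTransition.zero_of_nonpos (by linarith), sub_self]

lemma bump_ne_zero {c : ℝ} (h : bump c ≠ 0) : |c| < 1 := by
  by_contra hc
  exact h (bump_zero (not_lt.1 hc))

lemma bump_nonneg (c : ℝ) : 0 ≤ bump c := by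
  unfold bump
  rcases le_or_gt c 0 with h | h
  · rw [Real.smoothTransition.zero_of_nonpos h, sub_zero]
    exact Real.smoothTransition.nonneg _
  · rw [Real.smoothTransition.one_of_one_le (by linarith : 1 ≤ c + 1), sub_nonneg]
    exact Real.smoothTransition.le_one _

lemma bump_le_one (c : ℝ) : bump c ≤ 1 := by
  unfold bump
  have h1 := Real.smoothTransition.le_one (c + 1)
  have h2 := Real.smoothTransition.nonneg c
  linarith

lemma bump_contDiff (k : ℕ) : ContDiff ℝ k bump := by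
  unfold bump
  have h1 : ContDiff ℝ k Real.smoothTransition := Real.smoothTransition.contDiff (n := k)
  exact (h1.comp (contDiff_id.add contDiff_const)).sub h1

lemma bump_finset (c : ℝ) :
    ∃ S : Finset ℤ, (∀ k ∉ S, bump (c + k) = 0) ∧ ∑ k ∈ S, bump (c + k) = 1 := by
  refine ⟨{-⌊c⌋, -⌊c⌋ - 1}, fun k hk => ?_, ?_⟩
  · rw [Finset.mem_insert, Finset.mem_singleton, not_or] at hk
    obtain ⟨hk1, hk2⟩ := hk
    have h1 := Int.floor_le c
    have h2 := Int.lt_floor_add_one c
    refine bump_zero ?_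
    rcases lt_or_ge k (-⌊c⌋) with h | h
    · have h3 : k ≤ -⌊c⌋ - 2 := by omega
      have h4 : (k : ℝ) ≤ -(⌊c⌋ : ℝ) - 2 := by exact_mod_cast h3
      rw [abs_of_nonpos (by linarith)]
      linarith
    · have h3 : -⌊c⌋ + 1 ≤ k := by omega
      have h4 : -(⌊c⌋ : ℝ) + 1 ≤ (k : ℝ) := by exact_mod_cast h3
      rw [abs_of_nonneg (by linarith)]
      linarith
  · have hne : (-⌊c⌋ : ℤ) ∉ ({-⌊c⌋ - 1} : Finset ℤ) := by
      rw [Finset.mem_singleton]
      omega
    rw [Finset.sum_insert hne, Finset.sum_singleton]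
    have h1 := Int.floor_le c
    have h2 := Int.lt_floor_add_one c
    unfold bump
    push_cast
    rw [show c + (-(⌊c⌋ : ℝ) - 1) + 1 = c + -(⌊c⌋ : ℝ) by ring,
      Real.smoothTransition.one_of_one_le (by linarith : 1 ≤ c + -(⌊c⌋ : ℝ) + 1),
      Real.smoothTransition.zero_of_nonpos (by linarith : c + (-(⌊c⌋ : ℝ) - 1) ≤ 0)]
    ring

lemma bump_prod {r : ℕ} (c : Fin r → ℝ) :
    HasSum (fun k : Fin r → ℤ => ∏ i, bump (c i + k i)) 1 := by
  classical
  choose S hS h1 using fun i => bump_finset (c i)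
  have h2 : ∑ k ∈ Fintype.piFinset S, ∏ i, bump (c i + k i) = 1 := by
    rw [← Finset.prod_univ_sum S fun i (k : ℤ) => bump (c i + k)]
    exact Finset.prod_eq_one fun i _ => h1 i
  rw [← h2]
  refine hasSum_sum_of_ne_finset_zero fun k hk => ?_
  rw [Fintype.mem_piFinset, not_forall] at hk
  obtain ⟨i, hi⟩ := hk
  exact Finset.prod_eq_zero (Finset.mem_univ i) (hS i _ hi)

variable (K : Type) [Field K] [NumberField K]

open scoped Classical in
/-- the smooth weight -/
noncomputable def sw (X : mixedSpace K) : ℝ :=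
  if mixedEmbedding.norm X = 0 then 0 else (torsionOrder K : ℝ)⁻¹ * ∏ i, bump (lc K X i)

/-- the smooth weight of an algebraic integer -/
noncomputable def swt (x : 𝓞 K) : ℝ := sw K (mixedEmbedding K (x : K))

lemma sw_nonneg (X : mixedSpace K) : 0 ≤ sw K X := by
  unfold sw
  split_ifs
  · exact le_rfl
  · exact mul_nonneg (inv_nonneg.2 (Nat.cast_nonneg _)) (Finset.prod_nonneg fun i _ => bump_nonneg _)

lemma sw_le_one (X : mixedSpace K) : sw K X ≤ 1 := by
  unfold sw
  split_ifs
  · exact zero_le_one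
  · have h1 : (torsionOrder K : ℝ)⁻¹ ≤ 1 := by
      refine inv_le_one_of_one_le₀ ?_
      exact_mod_cast Nat.one_le_iff_ne_zero.2 (torsionOrder_ne_zero K)
    exact mul_le_one₀ h1 (Finset.prod_nonneg fun i _ => bump_nonneg _)
      (Finset.prod_le_one (fun i _ => bump_nonneg _) fun i _ => bump_le_one _)

lemma swt_zero : swt K 0 = 0 := by
  unfold swt sw
  rw [if_pos]
  simp

lemma swt_nonneg (x : 𝓞 K) : 0 ≤ swt K x := sw_nonneg K _

lemma swt_le_one (x : 𝓞 K) : swt K x ≤ 1 := sw_le_one K _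

variable {K}

lemma norm_ne_of_sw {X : mixedSpace K} (h : sw K X ≠ 0) : mixedEmbedding.norm X ≠ 0 := by
  intro h0
  exact h (if_pos h0)

lemma lc_lt_of_sw {X : mixedSpace K} (h : sw K X ≠ 0) (i : Fin (rank K)) : |lc K X i| < 1 := by
  have h1 := norm_ne_of_sw h
  have h2 : ∏ i, bump (lc K X i) ≠ 0 := by
    intro h0
    exact h (by simp [sw, h0])
  exact bump_ne_zero fun h3 => h2 (Finset.prod_eq_zero (Finset.mem_univ i) h3)

variable (K)

lemma swt_unitEquiv (ζe : torsion K × (Fin (rank K) → ℤ)) {x : 𝓞 K} (hx : x ≠ 0) :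
    swt K ((TentU.unitEquiv K ζe : (𝓞 K)ˣ) * x) =
      (torsionOrder K : ℝ)⁻¹ * ∏ i, bump (lc K (mixedEmbedding K (x : K)) i + ζe.2 i) := by
  unfold swt sw
  rw [if_neg (Lip.norm_ne (mul_ne_zero (Units.ne_zero _) hx))]
  congr 1
  refine Finset.prod_congr rfl fun i _ => ?_
  rw [TentU.lc_unitEquiv K ζe hx i]

lemma hasSum_bump (c : Fin (rank K) → ℝ) :
    HasSum (fun ζe : torsion K × (Fin (rank K) → ℤ) =>
      (torsionOrder K : ℝ)⁻¹ * ∏ i, bump (c i + ζe.2 i)) 1 := by
  have h2 := bump_prod c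
  have h3 := TentU.hasSum_torsion K
  have h5 : (0 : torsion K → ℝ) ≤ fun _ => (torsionOrder K : ℝ)⁻¹ := fun _ =>
    inv_nonneg.mpr (Nat.cast_nonneg _)
  have h6 : (0 : (Fin (rank K) → ℤ) → ℝ) ≤ fun k => ∏ i, bump (c i + k i) := fun k =>
    Finset.prod_nonneg fun i _ => bump_nonneg _
  have h7 := h3.summable.mul_of_nonneg h2.summable h5 h6
  have h4 := h3.mul h2 h7
  rw [mul_one] at h4
  exact h4

/-- **The sum over the associates of an element is one.** -/
theorem swt_units (x : 𝓞 K) (hx : x ≠ 0) : HasSum (fun u : (𝓞 K)ˣ => swt K (u * x)) 1 := by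
  rw [← (TentU.unitEquiv K).hasSum_iff]
  have h1 : ((fun u : (𝓞 K)ˣ => swt K (u * x)) ∘ (TentU.unitEquiv K)) = fun ζe =>
      (torsionOrder K : ℝ)⁻¹ * ∏ i, bump (lc K (mixedEmbedding K (x : K)) i + ζe.2 i) :=
    funext fun ζe => swt_unitEquiv K ζe hx
  rw [h1]
  exact hasSum_bump K _

open scoped Classical in
/-- all absolute values are comparable to the size on the support of the weight -/
theorem exists_cone : ∃ κ : ℝ, 0 < κ ∧ κ ≤ 1 ∧ ∀ X : mixedSpace K, sw K X ≠ 0 → ∀ w,
    κ * ‖X‖ ≤ normAtPlace w X := by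
  obtain ⟨M, hM0, hM⟩ := Lip.exists_logMap_bound K
  set M' : ℝ := Fintype.card (InfinitePlace K) * M with hM'
  have hM'0 : 0 ≤ M' := by positivity
  refine ⟨Real.exp (-(2 * M')), Real.exp_pos _, Real.exp_le_one_iff.2 (by linarith),
    fun X hX w => ?_⟩
  have hn := norm_ne_of_sw hX
  have hpos : ∀ v, 0 < normAtPlace v X := fun v =>
    lt_of_le_of_ne (normAtPlace_nonneg _ _) (mixedEmbedding.norm_ne_zero_iff.1 hn v).symm
  have h1 := Lip.abs_nlog_le hn hM0 (hM _ (lc_lt_of_sw hX))
  have h2 : ∀ v, normAtPlace v X ≤ Real.exp (2 * M') * normAtPlace w X := by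
    intro v
    have h3 := (abs_le.1 (h1 v)).2
    have h4 := (abs_le.1 (h1 w)).1
    unfold Lip.nlog at h3 h4
    rw [← Real.log_le_log_iff (hpos v) (mul_pos (Real.exp_pos _) (hpos w)),
      Real.log_mul (Real.exp_pos _).ne' (hpos w).ne', Real.log_exp]
    linarith
  have h3 : ‖X‖ ≤ Real.exp (2 * M') * normAtPlace w X := by
    rw [norm_eq_sup'_normAtPlace]
    exact Finset.sup'_le _ _ fun v _ => h2 v
  calc Real.exp (-(2 * M')) * ‖X‖
      ≤ Real.exp (-(2 * M')) * (Real.exp (2 * M') * normAtPlace w X) :=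
        mul_le_mul_of_nonneg_left h3 (Real.exp_pos _).le
    _ = normAtPlace w X := by
        rw [← mul_assoc, ← Real.exp_add]
        simp

end Pool.Agent.Work.MP_2b9663_nt.He
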